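import Pool.Agent.L0h78.DE.Defs
import Pool.Agent.H424R2.SG.PolyA
import Pool.Agent.H532R2.IntPoly
import Pool.Agent.Helper91K9.DL.Poly

/-!
# The learner
-/

namespace Pool.Agent.L0h78.DE

open Pool.Agent.NPC Pool.Agent.NPC.H532
open Pool.Agent.Helper91K9.DL (nvars)

/-- The inner product modulo 2. -/
def ip (α x : List Bool) : Bool := (α.zip x).foldl (fun c p => xor c (p.1 && p.2)) false

/-- A bit as a sign. -/
def sZ (b : Bool) : ℤ := if b then -1 else 1

/-- The value of a Boolean function as a sign. -/
def yZ (b : Bool) : ℤ := if b then 1 else -1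

/-- The characters. -/
def chL (α x : List Bool) : ℤ := sZ (ip α x)

/-- A sum of signed characters. -/
def GH (H : List (Bool × List Bool)) (x : List Bool) : ℤ := (H.map fun p => sZ p.1 * chL p.2 x).sum

/-- Clipping to `[-D, D]`. -/
def clipZ (D z : ℤ) : ℤ := if z < -D then -D else if D < z then D else z

/-- The clipped sum. -/
def qH (D : ℕ) (H : List (Bool × List Bool)) (x : List Bool) : ℤ := clipZ D (GH H x)

/-- The sum modulo 2. -/
def shL (x a : List Bool) : List Bool := (x.zip a).map fun p => xor p.1 p.2

/-- The first `k` bits, followed by zeros. -/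
def prefL (k : ℕ) (u : List Bool) : List Bool := u.zipIdx.map fun p => p.1 && decide (p.2 < k)

/-- The scaled estimate of the autocorrelation of the residual. -/
def valZ (g M D : ℕ) (st : List (List Bool × Bool)) (H : List (Bool × List Bool)) (a : List Bool)
    (w : ℕ) : ℤ :=
  (g * M * D * D : ℕ) - (2 * w * M * D * D : ℕ) -
    (2 * g * D : ℕ) * (st.map fun e => yZ e.2 * qH D H (shL e.1 a)).sum +
    g * (st.map fun e => qH D H e.1 * qH D H (shL e.1 a)).sum

/-- The test of a prefix. -/
def test (g M D : ℕ) (st : List (List Bool × Bool)) (tab : List (List Bool × List ℕ))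
    (H : List (Bool × List Bool)) (k : ℕ) (α : List Bool) : Bool :=
  !decide ((tab.map fun row => chL α row.1 * valZ g M D st H (prefL (k + 1) row.1)
    (row.2.getD k 0)).sum < ((2 * tab.length * g * M : ℕ) : ℤ))

/-- One level of the search. -/
def level (g M D : ℕ) (st : List (List Bool × Bool)) (tab : List (List Bool × List ℕ))
    (cap : ℕ) (H : List (Bool × List Bool)) (L : List (List Bool)) (k : ℕ) : List (List Bool) :=
  ((L.flatMap fun α => [α ++ [false], α ++ [true]]).filter fun α =>
    test g M D st tab H k α).take cap

/-- The search for large coefficients. -/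
def search (g M D : ℕ) (st : List (List Bool × Bool)) (tab : List (List Bool × List ℕ))
    (nv cap : ℕ) (H : List (Bool × List Bool)) : List (List Bool) :=
  (List.range nv).foldl (level g M D st tab cap H) [[]]

/-- The scaled empirical coefficient. -/
def ecoef (D : ℕ) (st : List (List Bool × Bool)) (H : List (Bool × List Bool)) (α : List Bool) :
    ℤ :=
  (st.map fun e => (D * yZ e.2 - qH D H e.1) * chL α e.1).sum

/-- The empirical coefficient is large. -/
def big (M D : ℕ) (st : List (List Bool × Bool)) (H : List (Bool × List Bool))
    (α : List Bool) : Bool :=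
  !decide (2 * (ecoef D st H α).natAbs < 3 * M)

/-- One step of the learner. -/
def step (g M D : ℕ) (st : List (List Bool × Bool)) (tab : List (List Bool × List ℕ))
    (nv cap : ℕ) (H : List (Bool × List Bool)) : List (Bool × List Bool) :=
  match ((search g M D st tab nv cap H).filter (big M D st H)).head? with
  | none => H
  | some α => H ++ [(decide (ecoef D st H α < 0), α)]

/-- The loop. -/
def loop (g M D : ℕ) (st : List (List Bool × Bool)) (tab : List (List Bool × List ℕ))
    (nv cap T : ℕ) : List (Bool × List Bool) :=
  (List.range T).foldl (fun H _ => step g M D st tab nv cap H) []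

/-- The table of the random vectors and the estimates for their prefixes. -/
def mkTab (E : List Bool × Input → ℕ) (n s g b' N' nv M N ME : ℕ) (ex : List (List Bool × Bool))
    (bt : List Bool) : List (List Bool × List ℕ) :=
  (List.range N').map fun i => ((bt.drop (i * n)).take n, (List.range nv).map fun k =>
    E (prefL (k + 1) ((bt.drop (i * n)).take n), (n, s, g, b'),
      (ex.drop (M + (i * n + k) * ME)).take ME,
      (bt.drop (N * n + (i * n + k) * ME)).take ME))

/-- The basic parameter. -/
def qq (n s a b : ℕ) : ℕ := n + s + a + b + 2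

/-- The parameter `D`. -/
def dd (s a : ℕ) : ℕ := 2 * (2 * s + 1) * a

/-- The learner. -/
def learner (E : List Bool × Input → ℕ) (e : ℕ) (I : Input) : List (Bool × List Bool) :=
  let n := I.1.1
  let s := I.1.2.1
  let a := I.1.2.2.1
  let b := I.1.2.2.2
  let ex := I.2.1
  let bt := I.2.2
  let q := qq n s a b
  let D := dd s a
  let g := q ^ 10
  let M := q ^ 30
  let b' := q ^ 40
  let ME := (n + s + g + b') ^ e
  loop g M D (ex.take M)
    (mkTab E n s g b' (min M ex.length) (nvars ex) M M ME ex bt) (nvars ex) ex.length
    (min (D * D + 1) ex.length)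

/-- The evaluation of hypotheses. -/
def evalH (p : List (Bool × List Bool) × List Bool) : Bool := !decide (GH p.1 p.2 < 0)

end Pool.Agent.L0h78.DE
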