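import Pool.Agent.L0h78.DE.Alg

/-!
# The learner runs in polynomial time
-/

namespace Pool.Agent.L0h78.DE

open Pool.Agent.NPC Pool.Agent.NPC.H532 Pool.Agent.H424R2.PPAD
open Pool.Agent.Helper91K9.DL (nvars nvars_upoly)

attribute [local fun_prop] Poly_addZ Poly_subZ Poly_mulZ Poly_sumZ Poly_neg Poly_isNeg
  Pool.Agent.H424R2.SG.PolyA.poly_take Pool.Agent.H424R2.SG.PolyA.poly_drop

variable {α : Type} [TEnc α]

@[fun_prop] theorem Poly_ltZ {f g : α → ℤ} (hf : NPC.Poly f) (hg : NPC.Poly g) :
    NPC.Poly (fun a => decide (f a < g a)) :=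
  (Poly_isNeg (Poly_subZ hf hg)).congr fun a => by simp

@[fun_prop] theorem ip_poly {f g : α → List Bool} (hf : NPC.Poly f) (hg : NPC.Poly g) :
    NPC.Poly (fun a => ip (f a) (g a)) :=
  NPC.Poly.foldl (F := fun (_ : α) (c : Bool) (p : Bool × Bool) => xor c (p.1 && p.2))
    (NPC.Poly.zip hf hg) (NPC.Poly.const false) (by fun_prop) (Polynomial.C 3) (by
      intro a k _
      rw [Polynomial.eval_C]
      exact sz_bool_le _)

@[fun_prop] theorem sZ_poly {f : α → Bool} (hf : NPC.Poly f) : NPC.Poly (fun a => sZ (f a)) := by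
  unfold sZ
  fun_prop

@[fun_prop] theorem yZ_poly {f : α → Bool} (hf : NPC.Poly f) : NPC.Poly (fun a => yZ (f a)) := by
  unfold yZ
  fun_prop

@[fun_prop] theorem chL_poly {f g : α → List Bool} (hf : NPC.Poly f) (hg : NPC.Poly g) :
    NPC.Poly (fun a => chL (f a) (g a)) := by
  unfold chL
  fun_prop

@[fun_prop] theorem GH_poly {f : α → List (Bool × List Bool)} {g : α → List Bool}
    (hf : NPC.Poly f) (hg : NPC.Poly g) : NPC.Poly (fun a => GH (f a) (g a)) := by
  unfold GH
  fun_prop

@[fun_prop] theorem clipZ_poly {f g : α → ℤ} (hf : NPC.Poly f) (hg : NPC.Poly g) :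
    NPC.Poly (fun a => clipZ (f a) (g a)) := by
  unfold clipZ
  fun_prop

@[fun_prop] theorem qH_poly {D : α → ℕ} {f : α → List (Bool × List Bool)} {g : α → List Bool}
    (hD : NPC.Poly D) (hf : NPC.Poly f) (hg : NPC.Poly g) :
    NPC.Poly (fun a => qH (D a) (f a) (g a)) := by
  unfold qH
  fun_prop

@[fun_prop] theorem shL_poly {f g : α → List Bool} (hf : NPC.Poly f) (hg : NPC.Poly g) :
    NPC.Poly (fun a => shL (f a) (g a)) := by
  unfold shL
  fun_prop

@[fun_prop] theorem prefL_poly {k : α → ℕ} {u : α → List Bool} (hk : NPC.Poly k)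
    (hu : NPC.Poly u) : NPC.Poly (fun a => prefL (k a) (u a)) := by
  unfold prefL
  fun_prop

@[fun_prop] theorem valZ_poly {g M D : α → ℕ} {st : α → List (List Bool × Bool)}
    {H : α → List (Bool × List Bool)} {a : α → List Bool} {w : α → ℕ} (hg : NPC.Poly g)
    (hM : NPC.Poly M) (hD : NPC.Poly D) (hst : NPC.Poly st) (hH : NPC.Poly H) (ha : NPC.Poly a)
    (hw : NPC.Poly w) : NPC.Poly (fun x => valZ (g x) (M x) (D x) (st x) (H x) (a x) (w x)) := by
  unfold valZ
  fun_prop

@[fun_prop] theorem test_poly {g M D k : α → ℕ} {st : α → List (List Bool × Bool)}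
    {tab : α → List (List Bool × List ℕ)} {H : α → List (Bool × List Bool)} {a : α → List Bool}
    (hg : NPC.Poly g) (hM : NPC.Poly M) (hD : NPC.Poly D) (hst : NPC.Poly st)
    (htab : NPC.Poly tab) (hH : NPC.Poly H) (hk : NPC.Poly k) (ha : NPC.Poly a) :
    NPC.Poly (fun x => test (g x) (M x) (D x) (st x) (tab x) (H x) (k x) (a x)) := by
  unfold test
  fun_prop

@[fun_prop] theorem level_poly {g M D cap k : α → ℕ} {st : α → List (List Bool × Bool)}
    {tab : α → List (List Bool × List ℕ)} {H : α → List (Bool × List Bool)}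
    {L : α → List (List Bool)} (hg : NPC.Poly g) (hM : NPC.Poly M) (hD : NPC.Poly D)
    (hst : NPC.Poly st) (htab : NPC.Poly tab) (hcap : NPC.Poly cap) (hH : NPC.Poly H)
    (hL : NPC.Poly L) (hk : NPC.Poly k) :
    NPC.Poly (fun x => level (g x) (M x) (D x) (st x) (tab x) (cap x) (H x) (L x) (k x)) := by
  unfold level
  fun_prop

@[fun_prop] theorem ecoef_poly {D : α → ℕ} {st : α → List (List Bool × Bool)}
    {H : α → List (Bool × List Bool)} {a : α → List Bool} (hD : NPC.Poly D)
    (hst : NPC.Poly st) (hH : NPC.Poly H) (ha : NPC.Poly a) :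
    NPC.Poly (fun x => ecoef (D x) (st x) (H x) (a x)) := by
  have hD' : NPC.Poly (fun x => ((D x : ℕ) : ℤ)) := Poly_ofNat hD
  unfold ecoef
  fun_prop

@[fun_prop] theorem big_poly {M D : α → ℕ} {st : α → List (List Bool × Bool)}
    {H : α → List (Bool × List Bool)} {a : α → List Bool} (hM : NPC.Poly M) (hD : NPC.Poly D)
    (hst : NPC.Poly st) (hH : NPC.Poly H) (ha : NPC.Poly a) :
    NPC.Poly (fun x => big (M x) (D x) (st x) (H x) (a x)) := by
  have h := Poly_natAbs (ecoef_poly hD hst hH ha)
  unfold big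
  fun_prop

/-- The lists during the search. -/
theorem search_inv (g M D : ℕ) (st : List (List Bool × Bool)) (tab : List (List Bool × List ℕ))
    (cap : ℕ) (H : List (Bool × List Bool)) : ∀ (R : List ℕ) (L : List (List Bool)) (c : ℕ),
    L.length ≤ max 1 cap → (∀ β ∈ L, β.length = c) →
    (R.foldl (level g M D st tab cap H) L).length ≤ max 1 cap ∧
      ∀ β ∈ R.foldl (level g M D st tab cap H) L, β.length = c + R.length := by
  intro R
  induction R with
  | nil => exact fun L c h1 h2 => ⟨h1, by simpa using h2⟩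
  | cons k R ih =>
    intro L c h1 h2
    rw [List.foldl_cons]
    have h3 : ∀ β ∈ level g M D st tab cap H L k, β.length = c + 1 := by
      intro β hβ
      unfold level at hβ
      have h4 := List.mem_of_mem_filter (List.mem_of_mem_take hβ)
      obtain ⟨γ, hγ, h5⟩ := List.mem_flatMap.1 h4
      have h6 := h2 γ hγ
      simp only [List.mem_cons, List.not_mem_nil, or_false] at h5
      rcases h5 with rfl | rfl <;> simp [h6]
    have h4 : (level g M D st tab cap H L k).length ≤ max 1 cap := by
      unfold level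
      exact (List.length_take_le _ _).trans (le_max_right _ _)
    obtain ⟨h5, h6⟩ := ih _ (c + 1) h4 h3
    refine ⟨h5, fun β hβ => ?_⟩
    rw [h6 β hβ, List.length_cons]
    omega

@[fun_prop] theorem search_poly {g M D nv cap : α → ℕ} {st : α → List (List Bool × Bool)}
    {tab : α → List (List Bool × List ℕ)} {H : α → List (Bool × List Bool)}
    (hg : NPC.Poly g) (hM : NPC.Poly M) (hD : NPC.Poly D)
    (hst : NPC.Poly st) (htab : NPC.Poly tab) (hnv : UPoly nv) (hcap : UPoly cap)
    (hH : NPC.Poly H) :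
    NPC.Poly (fun x => search (g x) (M x) (D x) (st x) (tab x) (nv x) (cap x) (H x)) := by
  obtain ⟨r, hr⟩ := Helper91K9.DL.UPoly.sz_le hnv
  obtain ⟨s, hs⟩ := Helper91K9.DL.UPoly.sz_le hcap
  have hcap' : NPC.Poly cap := hcap.toPoly
  refine NPC.Poly.foldl (F := fun x => level (g x) (M x) (D x) (st x) (tab x) (cap x) (H x))
    hnv.range (NPC.Poly.const [[]]) (by fun_prop)
    ((s + 1) * (Polynomial.C 4 * r + Polynomial.C 2) + Polynomial.C 1) ?_
  intro a k hk
  obtain ⟨h1, h2⟩ := search_inv (g a) (M a) (D a) (st a) (tab a) (cap a) (H a)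
    ((List.range (nv a)).take k) [[]] 0 (by simp) (by simp)
  have h3 : ((List.range (nv a)).take k).length ≤ nv a := by simp
  have h4 := sz_le_length_mul (((List.range (nv a)).take k).foldl
    (level (g a) (M a) (D a) (st a) (tab a) (cap a) (H a)) [[]]) (4 * nv a + 1) (by
      intro β hβ
      have h5 := h2 β hβ
      refine (sz_listBool_le β).trans ?_
      omega)
  refine h4.trans ?_
  have e1 := hr a
  have e2 := hs a
  simp only [Polynomial.eval_add, Polynomial.eval_mul, Polynomial.eval_C, Polynomial.eval_one]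
  refine Nat.add_le_add_right (Nat.mul_le_mul ?_ (by omega)) 1
  exact h1.trans (max_le (by omega) (by omega))

theorem step_poly {g M D nv cap : α → ℕ} {st : α → List (List Bool × Bool)}
    {tab : α → List (List Bool × List ℕ)} {H : α → List (Bool × List Bool)}
    (hg : NPC.Poly g) (hM : NPC.Poly M) (hD : NPC.Poly D)
    (hst : NPC.Poly st) (htab : NPC.Poly tab) (hnv : UPoly nv) (hcap : UPoly cap)
    (hH : NPC.Poly H) :
    NPC.Poly (fun x => step (g x) (M x) (D x) (st x) (tab x) (nv x) (cap x) (H x)) := by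
  have h0 := search_poly hg hM hD hst htab hnv hcap hH
  have h1 : NPC.Poly (fun x => ((search (g x) (M x) (D x) (st x) (tab x) (nv x) (cap x)
      (H x)).filter (big (M x) (D x) (st x) (H x))).head?) := NPC.Poly.head?
    (NPC.Poly.filter (p := fun x β => big (M x) (D x) (st x) (H x) β) h0 (by fun_prop))
  refine (NPC.Poly.optCases (g := fun x => H x)
    (h := fun x β => H x ++ [(decide (ecoef (D x) (st x) (H x) β < 0), β)]) h1 hH
      (by fun_prop)).congr fun a => ?_
  unfold step
  cases ((search (g a) (M a) (D a) (st a) (tab a) (nv a) (cap a) (H a)).filter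
    (big (M a) (D a) (st a) (H a))).head? <;> rfl

/-- The lists during the loop. -/
theorem loop_inv (g M D : ℕ) (st : List (List Bool × Bool)) (tab : List (List Bool × List ℕ))
    (nv cap : ℕ) : ∀ (R : List ℕ) (H : List (Bool × List Bool)),
    (∀ p ∈ H, p.2.length = nv) →
    (R.foldl (fun H _ => step g M D st tab nv cap H) H).length ≤ H.length + R.length ∧
      ∀ p ∈ R.foldl (fun H _ => step g M D st tab nv cap H) H, p.2.length = nv := by
  intro R
  induction R with
  | nil => exact fun H h1 => ⟨by simp, by simpa using h1⟩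
  | cons k R ih =>
    intro H h1
    rw [List.foldl_cons]
    have h3 : (step g M D st tab nv cap H).length ≤ H.length + 1 ∧
        ∀ p ∈ step g M D st tab nv cap H, p.2.length = nv := by
      unfold step
      cases h : ((search g M D st tab nv cap H).filter (big M D st H)).head? with
      | none => exact ⟨by simp, h1⟩
      | some β =>
        refine ⟨by simp, fun p hp => ?_⟩
        rcases List.mem_append.1 hp with hp | hp
        · exact h1 p hp
        · rw [List.mem_singleton] at hp
          subst hp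
          have h4 := (search_inv g M D st tab cap H (List.range nv) [[]] 0 (by simp)
            (by simp)).2 β (List.mem_of_mem_filter (List.mem_of_mem_head? h))
          simpa using h4
    obtain ⟨h5, h6⟩ := ih _ h3.2
    refine ⟨h5.trans ?_, h6⟩
    rw [List.length_cons]
    omega

theorem loop_poly {g M D nv cap T : α → ℕ} {st : α → List (List Bool × Bool)}
    {tab : α → List (List Bool × List ℕ)}
    (hg : NPC.Poly g) (hM : NPC.Poly M) (hD : NPC.Poly D)
    (hst : NPC.Poly st) (htab : NPC.Poly tab) (hnv : UPoly nv) (hcap : UPoly cap)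
    (hT : UPoly T) :
    NPC.Poly (fun x => loop (g x) (M x) (D x) (st x) (tab x) (nv x) (cap x) (T x)) := by
  obtain ⟨r, hr⟩ := Helper91K9.DL.UPoly.sz_le hnv
  obtain ⟨s, hs⟩ := Helper91K9.DL.UPoly.sz_le hT
  have h1 : NPC.Poly (fun p : α × List (Bool × List Bool) × ℕ => p.1) := by fun_prop
  refine NPC.Poly.foldl (F := fun x H _ => step (g x) (M x) (D x) (st x) (tab x) (nv x) (cap x) H)
    hT.range (NPC.Poly.const []) (step_poly (hg.comp h1) (hM.comp h1) (hD.comp h1) (hst.comp h1)
      (htab.comp h1) (hnv.comp h1) (hcap.comp h1) (by fun_prop))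
    (s * (Polynomial.C 4 * r + Polynomial.C 6) + Polynomial.C 1) ?_
  intro a k hk
  obtain ⟨h1, h2⟩ := loop_inv (g a) (M a) (D a) (st a) (tab a) (nv a) (cap a)
    ((List.range (T a)).take k) [] (by simp)
  have h3 : ((List.range (T a)).take k).length ≤ T a := by simp
  have h4 := sz_le_length_mul (((List.range (T a)).take k).foldl
    (fun H _ => step (g a) (M a) (D a) (st a) (tab a) (nv a) (cap a) H) []) (4 * nv a + 5) (by
      intro p hp
      have h5 := h2 p hp
      rw [show p = (p.1, p.2) from rfl, sz_pair]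
      have h6 := sz_listBool_le p.2
      have h7 := sz_bool_le p.1
      omega)
  refine h4.trans ?_
  have e1 := hr a
  have e2 := hs a
  simp only [Polynomial.eval_add, Polynomial.eval_mul, Polynomial.eval_C]
  refine Nat.add_le_add_right (Nat.mul_le_mul ?_ (by omega)) 1
  simp only [List.length_nil] at h1
  omega

theorem pow_poly (K : ℕ) {f : α → ℕ} (hf : NPC.Poly f) : NPC.Poly (fun x => f x ^ K) := by
  induction K with
  | zero => simpa using NPC.Poly.const 1
  | succ K ih =>
    simp only [pow_succ]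
    exact NPC.Poly.mul ih hf

theorem mkTab_poly {E : List Bool × Input → ℕ} (hE : NPC.Poly E)
    {n s g b' N' nv M N ME : α → ℕ} {ex : α → List (List Bool × Bool)} {bt : α → List Bool}
    (hn : NPC.Poly n) (hs : NPC.Poly s) (hg : NPC.Poly g) (hb' : NPC.Poly b') (hN' : UPoly N')
    (hnv : UPoly nv) (hM : NPC.Poly M) (hN : NPC.Poly N) (hME : NPC.Poly ME)
    (hex : NPC.Poly ex) (hbt : NPC.Poly bt) :
    NPC.Poly (fun x => mkTab E (n x) (s x) (g x) (b' x) (N' x) (nv x) (M x) (N x) (ME x) (ex x)
      (bt x)) := by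
  unfold mkTab
  have h1 : NPC.Poly (fun p : α × ℕ => p.1) := by fun_prop
  have h2 : NPC.Poly (fun x => List.range (N' x)) := hN'.range
  have h3 : NPC.Poly (fun x : α × ℕ => List.range (nv x.1)) := (hnv.comp h1).range
  refine NPC.Poly.map (F := fun x i => (((bt x).drop (i * n x)).take (n x),
    (List.range (nv x)).map fun k => E (prefL (k + 1) (((bt x).drop (i * n x)).take (n x)),
      (n x, s x, g x, b' x), ((ex x).drop (M x + (i * n x + k) * ME x)).take (ME x),
      ((bt x).drop (N x * n x + (i * n x + k) * ME x)).take (ME x)))) h2 ?_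
  refine NPC.Poly.pair (by fun_prop) ?_
  refine NPC.Poly.map (F := fun (p : α × ℕ) k => E (prefL (k + 1) (((bt p.1).drop
      (p.2 * n p.1)).take (n p.1)),
      (n p.1, s p.1, g p.1, b' p.1), ((ex p.1).drop (M p.1 + (p.2 * n p.1 + k) * ME p.1)).take
        (ME p.1),
      ((bt p.1).drop (N p.1 * n p.1 + (p.2 * n p.1 + k) * ME p.1)).take (ME p.1))) h3 ?_
  refine hE.comp ?_
  fun_prop

theorem learner_poly {E : List Bool × Input → ℕ} (hE : NPC.Poly E) (e : ℕ) :
    NPC.Poly (learner E e) := by
  have hn : NPC.Poly (fun I : Input => I.1.1) := by fun_prop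
  have hs : NPC.Poly (fun I : Input => I.1.2.1) := by fun_prop
  have ha : NPC.Poly (fun I : Input => I.1.2.2.1) := by fun_prop
  have hb : NPC.Poly (fun I : Input => I.1.2.2.2) := by fun_prop
  have hex : NPC.Poly (fun I : Input => I.2.1) := by fun_prop
  have hbt : NPC.Poly (fun I : Input => I.2.2) := by fun_prop
  have hq : NPC.Poly (fun I : Input => qq I.1.1 I.1.2.1 I.1.2.2.1 I.1.2.2.2) := by
    unfold qq
    fun_prop
  have hD : NPC.Poly (fun I : Input => dd I.1.2.1 I.1.2.2.1) := by
    unfold dd
    fun_prop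
  have hg := pow_poly 10 hq
  have hM := pow_poly 30 hq
  have hb' := pow_poly 40 hq
  have hME := pow_poly e (NPC.Poly.add (NPC.Poly.add (NPC.Poly.add hn hs) hg) hb')
  have hlen : UPoly (fun I : Input => I.2.1.length) := UPoly.length hex
  have hnv : UPoly (fun I : Input => nvars I.2.1) := nvars_upoly.comp hex
  have hst := Pool.Agent.H424R2.SG.PolyA.poly_take hex hM
  refine loop_poly hg hM hD hst ?_ hnv hlen ?_
  · refine mkTab_poly hE hn hs hg hb' ?_ hnv hM hM hME hex hbt
    exact UPoly.of_le (NPC.Poly.min hM hlen.toPoly) hlen fun a => min_le_right _ _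
  · exact UPoly.of_le (NPC.Poly.min (NPC.Poly.add (NPC.Poly.mul hD hD) (NPC.Poly.const 1))
      hlen.toPoly) hlen fun a => min_le_right _ _

theorem evalH_poly : NPC.Poly evalH := by
  unfold evalH
  fun_prop

end Pool.Agent.L0h78.DE
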