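import Pool.Agent.L0h78.DE.Four

/-!
# DNF formulas and small Fourier coefficients
-/

namespace Pool.Agent.L0h78.DE

open Finset
open Pool.Agent.Helper91K9.DL (dnfVal termVal examples)

variable {n : ℕ}

/-- The unit vector. -/
def ev (v : Fin n) : Cu n := fun i => decide (i = v)

theorem chi_ev (v : Fin n) (x : Cu n) : chi (ev v) x = if x v then -1 else 1 := by
  unfold chi ev
  rw [prod_eq_single v]
  · simp
  · intro i _ hi
    simp [hi]
  · intro h
    exact (h (mem_univ v)).elim

/-- All coefficients are at most `θ`. -/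
def Small (r : Cu n → ℝ) (θ : ℝ) : Prop := ∀ S, |fc r S| ≤ θ

theorem Small.lit {r : Cu n → ℝ} {θ : ℝ} (h : Small r θ) (v : Fin n) (b : Bool) :
    Small (fun x => (if (x v == b) = true then (1 : ℝ) else 0) * r x) θ := by
  intro S
  have h1 : fc (fun x => (if (x v == b) = true then (1 : ℝ) else 0) * r x) S =
      (1 / 2) * fc r S + (if b then -1 / 2 else 1 / 2) * fc r (sh S (ev v)) := by
    unfold fc
    rw [← Ex_mul_left, ← Ex_mul_left, ← Ex_add]
    refine Ex_congr fun x => ?_
    rw [chi_comm (sh S (ev v)), chi_sh, chi_comm x S, chi_comm x (ev v), chi_ev]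
    cases hx : x v <;> cases b <;> simp [hx] <;> ring
  rw [h1]
  refine (abs_add_le _ _).trans ?_
  rw [abs_mul, abs_mul]
  have h2 := h S
  have h3 := h (sh S (ev v))
  have h4 : |(if b then -1 / 2 else 1 / 2 : ℝ)| = 1 / 2 := by
    cases b <;> simp [abs_div]
  rw [h4, abs_of_pos (by norm_num : (0 : ℝ) < 1 / 2)]
  linarith

/-- The indicator of a term. -/
def tv (t : List (ℕ × Bool)) (x : Cu n) : ℝ := if termVal t (List.ofFn x) = true then 1 else 0

theorem getD_ofFn (x : Cu n) (v : ℕ) (hv : v < n) :
    (List.ofFn x).getD v false = x ⟨v, hv⟩ := by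
  rw [List.getD_eq_getElem _ _ (by simpa using hv)]
  simp

theorem Small.term {r : Cu n → ℝ} {θ : ℝ} (h : Small r θ) :
    ∀ t : List (ℕ × Bool), (∀ l ∈ t, l.1 < n) → Small (fun x => tv t x * r x) θ := by
  intro t
  induction t with
  | nil =>
    intro _
    have h1 : (fun x : Cu n => tv [] x * r x) = r := by
      funext x
      simp [tv, termVal]
    rw [h1]
    exact h
  | cons l t ih =>
    intro ht
    have h1 := (ih fun l' hl' => ht l' (List.mem_cons_of_mem _ hl')).lit ⟨l.1, ht l (by simp)⟩ l.2
    have h2 : (fun x : Cu n => tv (l :: t) x * r x) = fun x : Cu n =>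
        (if (x ⟨l.1, ht l (by simp)⟩ == l.2) = true then (1 : ℝ) else 0) * (tv t x * r x) := by
      funext x
      unfold tv
      have h3 : termVal (l :: t) (List.ofFn x) =
          ((x ⟨l.1, ht l (by simp)⟩ == l.2) && termVal t (List.ofFn x)) := by
        unfold termVal
        rw [List.all_cons, getD_ofFn x l.1 (ht l (by simp))]
      rw [h3]
      cases (x ⟨l.1, ht l (by simp)⟩ == l.2) <;> cases termVal t (List.ofFn x) <;> simp
    rw [h2]
    exact h1

/-- The values of a Boolean function as signs. -/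
def sR (b : Bool) : ℝ := if b then 1 else -1

theorem abs_sR (b : Bool) : |sR b| = 1 := by cases b <;> simp [sR]

theorem sR_mul_self (b : Bool) : sR b * sR b = 1 := by cases b <;> simp [sR]

/-- The polynomial of a DNF formula. -/
noncomputable def dq (F : List (List (ℕ × Bool))) (x : Cu n) : ℝ :=
  2 * (F.map fun t => tv t x).sum - 1

theorem sum_tv (x : Cu n) : ∀ F : List (List (ℕ × Bool)),
    (dnfVal F (List.ofFn x) = false → (F.map fun t => tv t x).sum = 0) ∧
      (dnfVal F (List.ofFn x) = true → 1 ≤ (F.map fun t => tv t x).sum) ∧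
      0 ≤ (F.map fun t => tv t x).sum := by
  intro F
  induction F with
  | nil => simp [dnfVal]
  | cons t F ih =>
    have h0 : (0 : ℝ) ≤ tv t x := by unfold tv; split_ifs <;> norm_num
    have e : dnfVal (t :: F) (List.ofFn x) =
        (termVal t (List.ofFn x) || dnfVal F (List.ofFn x)) := rfl
    rw [List.map_cons, List.sum_cons, e]
    refine ⟨fun h => ?_, fun h => ?_, add_nonneg h0 ih.2.2⟩
    · rw [Bool.or_eq_false_iff] at h
      rw [ih.1 h.2]
      simp [tv, h.1]
    · rcases (Bool.or_eq_true _ _).mp h with h | h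
      · have : tv t x = 1 := by simp [tv, h]
        rw [this]
        linarith [ih.2.2]
      · linarith [ih.2.1 h]

theorem abs_sub_le_dq (F : List (List (ℕ × Bool))) (x : Cu n) (p : ℝ) (h1 : -1 ≤ p) (h2 : p ≤ 1) :
    |sR (fn n F x) - p| ≤ dq F x * (sR (fn n F x) - p) := by
  obtain ⟨h3, h4, -⟩ := sum_tv x F
  unfold dq fn sR
  cases h : dnfVal F (List.ofFn x)
  · rw [h3 h]
    simp only [Bool.false_eq_true, if_false]
    rw [abs_of_nonpos (by linarith)]
    linarith
  · have h5 := h4 h
    simp only [if_true]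
    rw [abs_of_nonneg (by linarith)]
    nlinarith

theorem Ex_term_le {r : Cu n → ℝ} {θ : ℝ} (h : Small r θ) (t : List (ℕ × Bool))
    (ht : ∀ l ∈ t, l.1 < n) : Ex (fun x => tv t x * r x) ≤ θ := by
  have h1 := h.term t ht zv
  unfold fc at h1
  simp only [chi_zv, mul_one] at h1
  exact (le_abs_self _).trans h1

theorem Ex_list_sum {Ω : Type} [Fintype Ω] {α : Type} (φ : α → Ω → ℝ) : ∀ F : List α,
    Ex (fun x => (F.map fun t => φ t x).sum) = (F.map fun t => Ex (φ t)).sum := by
  intro F
  induction F with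
  | nil => simp [Ex]
  | cons t F ih =>
    simp only [List.map_cons, List.sum_cons]
    rw [Ex_add, ih]

/-- Small coefficients of `f - p` imply that `p` is close to `f`. -/
theorem dnf_close {s : ℕ} {F : List (List (ℕ × Bool))} (hF : IsDnf n s F) {p : Cu n → ℝ}
    (hp : ∀ x, -1 ≤ p x ∧ p x ≤ 1) {θ : ℝ} (hθ : 0 ≤ θ)
    (h : Small (fun x => sR (fn n F x) - p x) θ) :
    Ex (fun x => |sR (fn n F x) - p x|) ≤ (2 * s + 1) * θ := by
  set r : Cu n → ℝ := fun x => sR (fn n F x) - p x with hr
  have h1 : Ex (fun x => |r x|) ≤ Ex (fun x => 2 * (F.map fun t => tv t x * r x).sum - r x) := by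
    refine Ex_mono fun x => (abs_sub_le_dq F x (p x) (hp x).1 (hp x).2).trans_eq ?_
    unfold dq
    rw [List.sum_map_mul_right]
    simp only [hr]
    ring
  rw [Ex_sub, Ex_mul_left, Ex_list_sum] at h1
  have h2 : (F.map fun t => Ex fun x => tv t x * r x).sum ≤ F.length * θ := by
    have h3 : ∀ G : List (List (ℕ × Bool)), (∀ t ∈ G, ∀ l ∈ t, l.1 < n) →
        (G.map fun t => Ex fun x => tv t x * r x).sum ≤ G.length * θ := by
      intro G
      induction G with
      | nil => simp
      | cons t G ih =>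
        intro hG
        have h4 := ih fun t' ht' => hG t' (List.mem_cons_of_mem _ ht')
        have h5 := Ex_term_le h t (hG t (by simp))
        rw [List.map_cons, List.sum_cons, List.length_cons]
        push_cast
        linarith
    exact h3 F hF.2
  have h3 : -Ex r ≤ θ := by
    have h4 := h zv
    unfold fc at h4
    simp only [chi_zv, mul_one] at h4
    exact (neg_le_abs _).trans h4
  have h4 : (F.length : ℝ) ≤ s := by exact_mod_cast hF.1
  have h5 : (F.length : ℝ) * θ ≤ s * θ := mul_le_mul_of_nonneg_right h4 hθ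
  linarith

theorem prob_sign_le (f : Cu n → Bool) (p : Cu n → ℝ) (hh : Cu n → Bool)
    (h1 : ∀ x, hh x = true ↔ 0 ≤ p x) :
    Prob (fun x => hh x ≠ f x) ≤ Ex (fun x => |sR (f x) - p x|) := by
  rw [prob_eq]
  refine Ex_mono fun x => ?_
  by_cases h : hh x ≠ f x
  · rw [ind_of h]
    cases hf : f x
    · have h2 : hh x = true := by
        rw [hf] at h
        simpa using h
      have h3 := (h1 x).1 h2
      simp only [sR, Bool.false_eq_true, if_false]
      rw [abs_of_nonpos (by linarith)]
      linarith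
    · have h2 : ¬ hh x = true := by
        rw [hf] at h
        exact h
      have h3 : ¬ 0 ≤ p x := fun h3 => h2 ((h1 x).2 h3)
      simp only [sR, if_true]
      rw [abs_of_nonneg (by linarith)]
      linarith
  · rw [ind_of_not h]
    exact abs_nonneg _

end Pool.Agent.L0h78.DE
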