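import Pool.Agent.L0h78.DE.Alg
import Pool.Agent.L0h78.DE.Dnf

/-!
# The functions of the learner as real functions on the cube
-/

namespace Pool.Agent.L0h78.DE

open Finset

variable {n : ℕ}

/-- A list as a point of the cube. -/
def pad (α : List Bool) : Cu n := fun i => α.getD i false

theorem sZ_xor (a b : Bool) : sZ (xor a b) = sZ a * sZ b := by cases a <;> cases b <;> rfl

theorem sZ_foldl (l : List (Bool × Bool)) : ∀ c : Bool,
    sZ (l.foldl (fun c p => xor c (p.1 && p.2)) c) =
      sZ c * (l.map fun p => sZ (p.1 && p.2)).prod := by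
  induction l with
  | nil => intro c; simp
  | cons p l ih =>
    intro c
    rw [List.foldl_cons, ih, sZ_xor, List.map_cons, List.prod_cons]
    ring

theorem chL_eq : ∀ {n : ℕ} (α : List Bool) (x : Cu n),
    (chL α (List.ofFn x) : ℝ) = chi (pad α) x := by
  intro n
  induction n with
  | zero =>
    intro α x
    simp [chL, ip, sZ, chi]
  | succ n ih =>
    intro α x
    unfold chL ip
    rw [sZ_foldl]
    cases α with
    | nil =>
      simp [chi, pad, sZ]
    | cons b α =>
      have h1 := ih α (fun i => x i.succ)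
      unfold chL ip at h1
      rw [sZ_foldl] at h1
      rw [List.ofFn_succ, List.zip_cons_cons, List.map_cons, List.prod_cons]
      push_cast at h1 ⊢
      have h2 : chi (pad (b :: α)) x = (if b && x 0 then (-1 : ℝ) else 1) *
          chi (pad α) (fun i : Fin n => x i.succ) := by
        unfold chi
        rw [Fin.prod_univ_succ]
        congr 1
      rw [h2, ← h1]
      have h3 : ((sZ false : ℤ) : ℝ) = 1 := by simp [sZ]
      have h4 : ((sZ (b && x 0) : ℤ) : ℝ) = (if b && x 0 then (-1 : ℝ) else 1) := by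
        unfold sZ
        split_ifs <;> simp
      rw [h3, h4]
      ring

theorem shL_ofFn (x a : Cu n) : shL (List.ofFn x) (List.ofFn a) = List.ofFn (sh x a) := by
  unfold shL sh
  refine List.ext_getElem (by simp) fun i h1 h2 => ?_
  simp

theorem prefL_ofFn (k : ℕ) (u : Cu n) : prefL k (List.ofFn u) = List.ofFn (cut k u) := by
  unfold prefL cut
  refine List.ext_getElem (by simp) fun i h1 h2 => ?_
  simp

theorem yZ_eq (b : Bool) : (yZ b : ℝ) = sR b := by cases b <;> simp [yZ, sR]

/-- Classes of hypotheses. -/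
abbrev Cl (n T : ℕ) : Type := Fin T → Option (Bool × Cu n)

/-- The sum of signed characters. -/
noncomputable def gC {T : ℕ} (c : Cl n T) (x : Cu n) : ℝ :=
  ∑ i, (c i).elim 0 fun p => (sZ p.1 : ℝ) * chi p.2 x

/-- The class of a list. -/
def toC (n T : ℕ) (H : List (Bool × List Bool)) : Cl n T :=
  fun i => (H[(i : ℕ)]?).map fun p => (p.1, pad p.2)

theorem sum_toC (φ : Bool × List Bool → ℝ) : ∀ (T : ℕ) (H : List (Bool × List Bool)),
    H.length ≤ T → ∑ i : Fin T, (H[(i : ℕ)]?).elim 0 φ = (H.map φ).sum := by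
  intro T
  induction T with
  | zero =>
    intro H hH
    have : H = [] := List.length_eq_zero_iff.1 (by omega)
    subst this
    simp
  | succ T ih =>
    intro H hH
    rw [Fin.sum_univ_succ]
    cases H with
    | nil => simp
    | cons p H =>
      rw [List.map_cons, List.sum_cons, ← ih H (by simpa using hH)]
      congr 1

theorem GH_list (H : List (Bool × List Bool)) (x : Cu n) :
    (GH H (List.ofFn x) : ℝ) = (H.map fun p => (sZ p.1 : ℝ) * chi (pad p.2) x).sum := by
  unfold GH
  induction H with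
  | nil => simp
  | cons p H ih =>
    rw [List.map_cons, List.sum_cons, List.map_cons, List.sum_cons]
    push_cast
    push_cast at ih
    rw [ih, chL_eq]

theorem GH_eq (T : ℕ) (H : List (Bool × List Bool)) (hH : H.length ≤ T) (x : Cu n) :
    (GH H (List.ofFn x) : ℝ) = gC (toC n T H) x := by
  rw [GH_list, ← sum_toC (fun p => (sZ p.1 : ℝ) * chi (pad p.2) x) T H hH]
  unfold gC toC
  refine sum_congr rfl fun i _ => ?_
  cases H[(i : ℕ)]? <;> simp

/-- Clipping. -/
noncomputable def clip (t : ℝ) : ℝ := max (-1) (min 1 t)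

theorem clip_ge (t : ℝ) : -1 ≤ clip t := le_max_left _ _

theorem clip_le (t : ℝ) : clip t ≤ 1 := max_le (by norm_num) (min_le_left _ _)

theorem abs_clip (t : ℝ) : |clip t| ≤ 1 := abs_le.2 ⟨clip_ge t, clip_le t⟩

theorem clipZ_eq (D : ℕ) (hD : 0 < D) (z : ℤ) : (clipZ D z : ℝ) = D * clip (z / D) := by
  have hD0 : (0 : ℝ) < D := by exact_mod_cast hD
  unfold clipZ clip
  split_ifs with h1 h2
  · have h3 : (z : ℝ) < -D := by exact_mod_cast h1
    have h4 : (z : ℝ) / D < -1 := by rw [div_lt_iff₀ hD0]; linarith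
    rw [min_eq_right (by linarith), max_eq_left h4.le]
    push_cast
    ring
  · have h3 : (D : ℝ) < z := by exact_mod_cast h2
    have h4 : 1 < (z : ℝ) / D := by rw [lt_div_iff₀ hD0]; linarith
    rw [min_eq_left h4.le, max_eq_right (by norm_num)]
    push_cast
    ring
  · have h3 : -(D : ℝ) ≤ z := by exact_mod_cast not_lt.1 h1
    have h4 : (z : ℝ) ≤ D := by exact_mod_cast not_lt.1 h2
    have h5 : (z : ℝ) / D ≤ 1 := by rw [div_le_iff₀ hD0]; linarith
    have h6 : -1 ≤ (z : ℝ) / D := by rw [le_div_iff₀ hD0]; linarith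
    rw [min_eq_right h5, max_eq_right h6]
    field_simp

/-- The bounded approximation. -/
noncomputable def pC {T : ℕ} (D : ℕ) (c : Cl n T) (x : Cu n) : ℝ := clip (gC c x / D)

theorem qH_eq (T D : ℕ) (hD : 0 < D) (H : List (Bool × List Bool)) (hH : H.length ≤ T)
    (x : Cu n) : (qH D H (List.ofFn x) : ℝ) = D * pC D (toC n T H) x := by
  unfold qH pC
  rw [clipZ_eq D hD, GH_eq T H hH]

/-! ### The potential -/

theorem proj (g h : ℝ) : (g - clip g) * (clip h - clip g) ≤ 0 := by
  rcases lt_trichotomy g (clip g) with h1 | h1 | h1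
  · have h2 : clip g = -1 := by
      unfold clip at h1 ⊢
      rcases max_choice (-1) (min 1 g) with h3 | h3
      · exact h3
      · rw [h3] at h1
        exact absurd (min_le_right 1 g) (not_le.2 h1)
    have := clip_ge h
    nlinarith
  · rw [← h1]; simp
  · have h2 : clip g = 1 := by
      unfold clip at h1 ⊢
      have h3 : -1 < g := (le_max_left _ _).trans_lt h1
      rcases min_choice 1 g with h4 | h4
      · rw [h4]; norm_num
      · rw [h4] at h1
        rw [max_eq_right h3.le] at h1
        exact absurd h1 (lt_irrefl _)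
    have := clip_le h
    nlinarith

/-- Projection to the interval: convexity of the squared distance. -/
theorem dist_convex (g h : ℝ) :
    (g - clip g) ^ 2 + 2 * (g - clip g) * (h - g) ≤ (h - clip h) ^ 2 := by
  have key := proj g h
  nlinarith [sq_nonneg ((h - clip h) - (g - clip g))]

/-- The potential. -/
noncomputable def pot (f g : Cu n → ℝ) : ℝ := Ex fun x => (f x - g x) ^ 2 - (g x - clip (g x)) ^ 2

theorem pot_nonneg {f g : Cu n → ℝ} (hf : ∀ x, |f x| ≤ 1) : 0 ≤ pot f g := by
  refine Ex_nonneg fun x => ?_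
  have h1 := proj (g x) (f x)
  have h2 : clip (f x) = f x := by
    have := abs_le.1 (hf x)
    unfold clip
    rw [min_eq_right this.2, max_eq_right this.1]
  rw [h2] at h1
  nlinarith [sq_nonneg (f x - clip (g x))]

theorem pot_step (f g : Cu n → ℝ) (S : Cu n) (ε : ℝ) :
    pot f (fun x => g x + ε * chi S x) ≤
      pot f g - 2 * ε * fc (fun x => f x - clip (g x)) S + ε ^ 2 := by
  unfold pot fc
  rw [← Ex_mul_left, ← Ex_sub]
  have h1 : (ε ^ 2 : ℝ) = Ex (fun _ : Cu n => ε ^ 2) := (Ex_const _).symm
  rw [h1, ← Ex_add]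
  refine Ex_mono fun x => ?_
  have h2 := dist_convex (g x) (g x + ε * chi S x)
  have h3 := chi_sq S x
  have h4 : (ε * chi S x) ^ 2 = ε ^ 2 := by
    rw [mul_pow, pow_two (chi S x), h3, mul_one]
  nlinarith

end Pool.Agent.L0h78.DE
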