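import Pool.Agent.L0h78.DE.Conv
import Pool.Agent.L0h78.DE.AlgPoly

/-!
# Correctness of the learner for good samples
-/

namespace Pool.Agent.L0h78.DE

open Finset

variable {n : ℕ}

/-- The residual. -/
noncomputable def rC {T : ℕ} (f : Cu n → Bool) (D : ℕ) (c : Cl n T) (x : Cu n) : ℝ :=
  sR (f x) - pC D c x

theorem abs_pC {T : ℕ} (D : ℕ) (c : Cl n T) (x : Cu n) : |pC D c x| ≤ 1 := abs_clip _

theorem abs_rC {T : ℕ} (f : Cu n → Bool) (D : ℕ) (c : Cl n T) (x : Cu n) : |rC f D c x| ≤ 2 := by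
  unfold rC
  calc |sR (f x) - pC D c x| ≤ |sR (f x)| + |pC D c x| := abs_sub _ _
    _ ≤ 2 := by have := abs_pC D c x; rw [abs_sR]; linarith

/-- Good samples. -/
structure Good {M N : ℕ} (D T g : ℕ) (τ : ℝ) (f : Cu n → Bool) (X : Fin M → Cu n)
    (U : Fin N → Cu n) (W : Fin N → List ℕ) : Prop where
  h1 : ∀ i, ∀ k < n, |((W i).getD k 0 : ℝ) / g - shiftProb f (cut (k + 1) (U i))| ≤ 1 / g
  h2 : ∀ (c : Cl n T), ∀ k < n, ∀ S : Cu n, |∑ i, ac (rC f D c) (cut (k + 1) (U i)) * chi S (U i) -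
    N * en (rC f D c) (k + 1) S| ≤ N * τ
  h3 : ∀ (c : Cl n T) (a : Cu n), |∑ j, sR (f (X j)) * pC D c (sh (X j) a) -
    M * Ex fun x => sR (f x) * pC D c (sh x a)| ≤ M * τ
  h4 : ∀ (c : Cl n T) (a : Cu n), |∑ j, pC D c (X j) * pC D c (sh (X j) a) -
    M * Ex fun x => pC D c x * pC D c (sh x a)| ≤ M * τ
  h5 : ∀ (c : Cl n T) (S : Cu n), |∑ j, rC f D c (X j) * chi S (X j) -
    M * fc (rC f D c) S| ≤ M * τ

theorem Ex_ff (f : Cu n → Bool) (a : Cu n) :
    Ex (fun x => sR (f x) * sR (f (sh x a))) = 1 - 2 * shiftProb f a := by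
  unfold shiftProb
  rw [prob_eq, ← Ex_mul_left]
  have h1 : (1 : ℝ) = Ex (fun _ : Cu n => (1 : ℝ)) := (Ex_const _).symm
  conv_rhs => rw [h1]
  rw [← Ex_sub]
  refine Ex_congr fun x => ?_
  change _ = 1 - 2 * ind (f (sh x a) ≠ f x)
  by_cases h : f (sh x a) = f x
  · rw [ind_of_not (by simpa using h), h, sR_mul_self]
    ring
  · rw [ind_of h]
    have h1 : ∀ b c : Bool, ¬ b = c → sR c * sR b = 1 - 2 * 1 := by
      intro b c
      cases b <;> cases c <;> simp [sR] <;> norm_num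
    exact h1 _ _ h

theorem ac_rC {T : ℕ} (f : Cu n → Bool) (D : ℕ) (c : Cl n T) (a : Cu n) :
    ac (rC f D c) a = 1 - 2 * shiftProb f a - 2 * Ex (fun x => sR (f x) * pC D c (sh x a)) +
      Ex (fun x => pC D c x * pC D c (sh x a)) := by
  have h1 : Ex (fun x => pC D c x * sR (f (sh x a))) =
      Ex (fun x => sR (f x) * pC D c (sh x a)) := by
    rw [← Ex_sh (fun x => sR (f x) * pC D c (sh x a)) a]
    refine Ex_congr fun x => ?_
    rw [sh_invol]
    ring
  have h2 : ac (rC f D c) a = Ex (fun x => sR (f x) * sR (f (sh x a))) -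
      Ex (fun x => sR (f x) * pC D c (sh x a)) - Ex (fun x => pC D c x * sR (f (sh x a))) +
      Ex (fun x => pC D c x * pC D c (sh x a)) := by
    unfold ac rC
    rw [← Ex_sub, ← Ex_sub, ← Ex_add]
    exact Ex_congr fun x => by ring
  rw [h2, h1, Ex_ff]
  ring

/-- The list of the examples used for statistics. -/
def stL {M : ℕ} (f : Cu n → Bool) (X : Fin M → Cu n) : List (List Bool × Bool) :=
  List.ofFn fun j => (List.ofFn (X j), f (X j))

/-- The table. -/
def tabL {N : ℕ} (U : Fin N → Cu n) (W : Fin N → List ℕ) : List (List Bool × List ℕ) :=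
  List.ofFn fun i => (List.ofFn (U i), W i)

theorem sum_stL {M : ℕ} (f : Cu n → Bool) (X : Fin M → Cu n) (φ : List Bool × Bool → ℤ) :
    (((stL f X).map φ).sum : ℝ) = ∑ j, (φ (List.ofFn (X j), f (X j)) : ℝ) := by
  unfold stL
  rw [List.map_ofFn, List.sum_ofFn]
  push_cast
  rfl

theorem sum_tabL {N : ℕ} (U : Fin N → Cu n) (W : Fin N → List ℕ)
    (φ : List Bool × List ℕ → ℤ) :
    (((tabL U W).map φ).sum : ℝ) = ∑ i, (φ (List.ofFn (U i), W i) : ℝ) := by
  unfold tabL
  rw [List.map_ofFn, List.sum_ofFn]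
  push_cast
  rfl

section

variable {M N D T g : ℕ} {τ : ℝ} {f : Cu n → Bool} {X : Fin M → Cu n} {U : Fin N → Cu n}
  {W : Fin N → List ℕ}

theorem val_close (hG : Good D T g τ f X U W) (hD : 0 < D) (hg : 0 < g)
    (H : List (Bool × List Bool)) (hH : H.length ≤ T) (a : Cu n) (w : ℕ)
    (hw : |(w : ℝ) / g - shiftProb f a| ≤ 1 / g) :
    |(valZ g M D (stL f X) H (List.ofFn a) w : ℝ) -
      (g * M * D ^ 2) * ac (rC f D (toC n T H)) a| ≤ (g * M * D ^ 2) * (2 / g + 3 * τ) := by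
  have hg0 : (0 : ℝ) < g := by exact_mod_cast hg
  have hD0 : (0 : ℝ) < D := by exact_mod_cast hD
  have hM0 : (0 : ℝ) ≤ M := Nat.cast_nonneg M
  set c := toC n T H with hc
  have e1 : (valZ g M D (stL f X) H (List.ofFn a) w : ℝ) = g * M * D ^ 2 * (1 - 2 * (w / g)) -
      2 * g * D ^ 2 * ∑ j, sR (f (X j)) * pC D c (sh (X j) a) +
      g * D ^ 2 * ∑ j, pC D c (X j) * pC D c (sh (X j) a) := by
    unfold valZ
    rw [Int.cast_add, Int.cast_sub, Int.cast_sub, Int.cast_mul, Int.cast_mul, sum_stL, sum_stL]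
    have h1 : ∀ j, ((yZ (f (X j)) * qH D H (shL (List.ofFn (X j)) (List.ofFn a)) : ℤ) : ℝ) =
        D * (sR (f (X j)) * pC D c (sh (X j) a)) := by
      intro j
      push_cast
      rw [yZ_eq, shL_ofFn, qH_eq T D hD H hH]
      ring
    have h2 : ∀ j, ((qH D H (List.ofFn (X j)) * qH D H (shL (List.ofFn (X j)) (List.ofFn a)) : ℤ)
        : ℝ) = D ^ 2 * (pC D c (X j) * pC D c (sh (X j) a)) := by
      intro j
      push_cast
      rw [shL_ofFn, qH_eq T D hD H hH, qH_eq T D hD H hH]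
      ring
    rw [sum_congr rfl fun j _ => h1 j, sum_congr rfl fun j _ => h2 j, ← mul_sum, ← mul_sum]
    push_cast
    field_simp
  have e2 : (valZ g M D (stL f X) H (List.ofFn a) w : ℝ) -
      (g * M * D ^ 2) * ac (rC f D c) a =
      -(g * M * D ^ 2 * 2) * ((w : ℝ) / g - shiftProb f a) -
      2 * g * D ^ 2 * (∑ j, sR (f (X j)) * pC D c (sh (X j) a) -
        M * Ex fun x => sR (f x) * pC D c (sh x a)) +
      g * D ^ 2 * (∑ j, pC D c (X j) * pC D c (sh (X j) a) -
        M * Ex fun x => pC D c x * pC D c (sh x a)) := by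
    rw [e1, ac_rC]
    ring
  rw [e2]
  have h3 := hG.h3 c a
  have h4 := hG.h4 c a
  rw [abs_le] at hw h3 h4 ⊢
  have k1 : (0 : ℝ) ≤ g * M * D ^ 2 * 2 := by positivity
  have k2 : (0 : ℝ) ≤ 2 * g * D ^ 2 := by positivity
  have k3 : (0 : ℝ) ≤ g * D ^ 2 := by positivity
  have m1 := mul_le_mul_of_nonneg_left hw.1 k1
  have m2 := mul_le_mul_of_nonneg_left hw.2 k1
  have m3 := mul_le_mul_of_nonneg_left h3.1 k2
  have m4 := mul_le_mul_of_nonneg_left h3.2 k2
  have m5 := mul_le_mul_of_nonneg_left h4.1 k3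
  have m6 := mul_le_mul_of_nonneg_left h4.2 k3
  have e3 : (g : ℝ) * M * D ^ 2 * (2 / g + 3 * τ) = g * M * D ^ 2 * 2 * (1 / g) +
      2 * g * D ^ 2 * (M * τ) + g * D ^ 2 * (M * τ) := by ring
  rw [e3]
  constructor <;> linarith

theorem test_close (hG : Good D T g τ f X U W) (hD : 0 < D) (hg : 0 < g)
    (H : List (Bool × List Bool)) (hH : H.length ≤ T) (k : ℕ) (hk : k < n) (α : List Bool) :
    |((((tabL U W).map fun row => chL α row.1 * valZ g M D (stL f X) H (prefL (k + 1) row.1)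
      (row.2.getD k 0)).sum : ℤ) : ℝ) -
      (g * M * D ^ 2) * (N * en (rC f D (toC n T H)) (k + 1) (pad α))| ≤
      (g * M * D ^ 2) * (N * (2 / g + 4 * τ)) := by
  rw [sum_tabL]
  set c := toC n T H with hc
  have h1 : ∀ i, ((chL α (List.ofFn (U i)) * valZ g M D (stL f X) H
      (prefL (k + 1) (List.ofFn (U i))) ((W i).getD k 0) : ℤ) : ℝ) =
      chi (pad α) (U i) * (valZ g M D (stL f X) H (List.ofFn (cut (k + 1) (U i)))
        ((W i).getD k 0) : ℝ) := by
    intro i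
    push_cast
    rw [chL_eq, prefL_ofFn]
  rw [sum_congr rfl fun i _ => h1 i]
  have h2 : ∀ i, |chi (pad α) (U i) * (valZ g M D (stL f X) H (List.ofFn (cut (k + 1) (U i)))
      ((W i).getD k 0) : ℝ) - (g * M * D ^ 2) *
      (ac (rC f D c) (cut (k + 1) (U i)) * chi (pad α) (U i))| ≤
      (g * M * D ^ 2) * (2 / g + 3 * τ) := by
    intro i
    have h3 := val_close hG hD hg H hH (cut (k + 1) (U i)) ((W i).getD k 0) (hG.h1 i k hk)
    have h4 : chi (pad α) (U i) * (valZ g M D (stL f X) H (List.ofFn (cut (k + 1) (U i)))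
      ((W i).getD k 0) : ℝ) - (g * M * D ^ 2) *
      (ac (rC f D c) (cut (k + 1) (U i)) * chi (pad α) (U i)) = chi (pad α) (U i) *
        ((valZ g M D (stL f X) H (List.ofFn (cut (k + 1) (U i))) ((W i).getD k 0) : ℝ) -
        (g * M * D ^ 2) * ac (rC f D c) (cut (k + 1) (U i))) := by ring
    rw [h4, abs_mul, abs_chi, one_mul]
    exact h3
  have h3 : |∑ i, chi (pad α) (U i) * (valZ g M D (stL f X) H (List.ofFn (cut (k + 1) (U i)))
      ((W i).getD k 0) : ℝ) - (g * M * D ^ 2) *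
      ∑ i, (ac (rC f D c) (cut (k + 1) (U i)) * chi (pad α) (U i))| ≤
      (g * M * D ^ 2) * (N * (2 / g + 3 * τ)) := by
    rw [mul_sum, ← sum_sub_distrib]
    refine (abs_sum_le_sum_abs _ _).trans ((sum_le_sum fun i _ => h2 i).trans_eq ?_)
    rw [sum_const, card_univ, Fintype.card_fin, nsmul_eq_mul]
    ring
  have h4 := hG.h2 c k hk (pad α)
  have k0 : (0 : ℝ) ≤ g * M * D ^ 2 := by positivity
  rw [abs_le] at h3 h4 ⊢
  have m1 := mul_le_mul_of_nonneg_left h4.1 k0
  have m2 := mul_le_mul_of_nonneg_left h4.2 k0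
  have e3 : (g : ℝ) * M * D ^ 2 * (N * (2 / g + 4 * τ)) =
      (g * M * D ^ 2) * (N * (2 / g + 3 * τ)) + g * M * D ^ 2 * (N * τ) := by ring
  rw [e3]
  constructor <;> linarith

/-- The hypotheses on the parameters. -/
structure Par (M N D g : ℕ) (τ : ℝ) : Prop where
  hD : 0 < D
  hg : 0 < g
  hM : 0 < M
  hN : 0 < N
  hτ : 0 ≤ τ
  hacc : 2 / (g : ℝ) + 4 * τ ≤ 1 / (D : ℝ) ^ 2
  hτ2 : 2 * D * τ ≤ 1

theorem test_iff (hG : Good D T g τ f X U W) (hP : Par M N D g τ)
    (H : List (Bool × List Bool)) (hH : H.length ≤ T) (k : ℕ) (hk : k < n) (α : List Bool) :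
    (test g M D (stL f X) (tabL U W) H k α = true →
      1 / (D : ℝ) ^ 2 ≤ en (rC f D (toC n T H)) (k + 1) (pad α)) ∧
    (3 / (D : ℝ) ^ 2 ≤ en (rC f D (toC n T H)) (k + 1) (pad α) →
      test g M D (stL f X) (tabL U W) H k α = true) := by
  have h := test_close hG hP.hD hP.hg H hH k hk α
  have hD0 : (0 : ℝ) < D := by exact_mod_cast hP.hD
  have hg0 : (0 : ℝ) < g := by exact_mod_cast hP.hg
  have hM0 : (0 : ℝ) < M := by exact_mod_cast hP.hM
  have hN0 : (0 : ℝ) < N := by exact_mod_cast hP.hN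
  set Z := ((tabL U W).map fun row => chL α row.1 * valZ g M D (stL f X) H
    (prefL (k + 1) row.1) (row.2.getD k 0)).sum with hZ
  set v := en (rC f D (toC n T H)) (k + 1) (pad α) with hv
  have h1 : test g M D (stL f X) (tabL U W) H k α = true ↔ 2 * (N : ℝ) * g * M ≤ (Z : ℝ) := by
    unfold test
    rw [← hZ, Bool.not_eq_true', decide_eq_false_iff_not, not_lt]
    have h2 : (tabL U W).length = N := by simp [tabL]
    rw [h2]
    constructor
    · intro h3
      have h4 : (((2 * N * g * M : ℕ) : ℤ) : ℝ) ≤ (Z : ℝ) := by exact_mod_cast h3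
      push_cast at h4
      exact h4
    · intro h3
      have h4 : (((2 * N * g * M : ℕ) : ℤ) : ℝ) ≤ (Z : ℝ) := by
        push_cast
        exact h3
      exact_mod_cast h4
  have k0 : (0 : ℝ) < g * M * D ^ 2 * N := by positivity
  have h2 : (g * M * D ^ 2) * (N * (2 / g + 4 * τ)) ≤ (N : ℝ) * g * M := by
    have h3 := mul_le_mul_of_nonneg_left hP.hacc k0.le
    have h4 : (g : ℝ) * M * D ^ 2 * N * (1 / D ^ 2) = N * g * M := by
      field_simp
    rw [h4] at h3
    linarith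
  rw [abs_le] at h
  rw [h1]
  constructor
  · intro h3
    rw [div_le_iff₀ (by positivity)]
    have h4 : (N : ℝ) * g * M ≤ (N * g * M) * (v * D ^ 2) := by linarith [h.2]
    have h5 : (0 : ℝ) < N * g * M := by positivity
    exact le_of_mul_le_mul_left (by linarith) h5
  · intro h3
    rw [div_le_iff₀ (by positivity)] at h3
    have h5 : (0 : ℝ) < N * g * M := by positivity
    have h6 := mul_le_mul_of_nonneg_left h3 h5.le
    linarith [h.1]

end

theorem cut_eq_pad (S : Cu n) (k : ℕ) (hk : k ≤ n) (β : List Bool) (hβ : β.length = k) :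
    cut k S = pad β ↔ (List.ofFn S).take k = β := by
  constructor
  · intro h
    refine List.ext_getElem (by simp [hβ, hk]) fun i h1 h2 => ?_
    have h3 : i < k := by omega
    have h4 := congrFun h ⟨i, by omega⟩
    simp only [cut, pad, h3, decide_true, Bool.and_true] at h4
    rw [List.getElem_take, List.getElem_ofFn, h4, List.getD_eq_getElem _ _ h2]
  · intro h
    funext i
    simp only [cut, pad]
    by_cases hi : (i : ℕ) < k
    · rw [← h, List.getD_eq_getElem _ _ (by simp; omega), List.getElem_take,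
        List.getElem_ofFn]
      simp [hi]
    · rw [List.getD_eq_default _ _ (by omega)]
      simp [hi]

theorem sum_en_le (r : Cu n → ℝ) (k : ℕ) (hk : k ≤ n) (L : List (List Bool))
    (h1 : ∀ β ∈ L, β.length = k) (h2 : L.Nodup) :
    (L.map fun β => en r k (pad β)).sum ≤ Ex fun x => r x ^ 2 := by
  classical
  rw [← List.sum_toFinset _ h2]
  unfold en
  rw [sum_comm, ← sum_fc_sq]
  refine sum_le_sum fun S _ => ?_
  have h3 : ∑ β ∈ L.toFinset, (if cut k S = pad β then fc r S ^ 2 else 0) =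
      ∑ β ∈ L.toFinset, (if (List.ofFn S).take k = β then fc r S ^ 2 else 0) := by
    refine sum_congr rfl fun β hβ => ?_
    simp only [cut_eq_pad S k hk β (h1 β (List.mem_toFinset.1 hβ))]
  rw [h3, sum_ite_eq]
  split_ifs
  · exact le_rfl
  · positivity

theorem length_le_of_en (r : Cu n → ℝ) (hr : ∀ x, |r x| ≤ 2) (k : ℕ) (hk : k ≤ n)
    (D : ℕ) (hD : 0 < D) (L : List (List Bool)) (h1 : ∀ β ∈ L, β.length = k) (h2 : L.Nodup)
    (h3 : ∀ β ∈ L, 1 / (D : ℝ) ^ 2 ≤ en r k (pad β)) : L.length ≤ 4 * (D * D) := by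
  have hD0 : (0 : ℝ) < D := by exact_mod_cast hD
  have h4 := sum_en_le r k hk L h1 h2
  have h5 : Ex (fun x => r x ^ 2) ≤ 4 := Ex_le fun x => by
    have := abs_le.1 (hr x)
    nlinarith
  have h6 : ∀ L : List (List Bool), (∀ β ∈ L, 1 / (D : ℝ) ^ 2 ≤ en r k (pad β)) →
      (L.length : ℝ) * (1 / (D : ℝ) ^ 2) ≤ (L.map fun β => en r k (pad β)).sum := by
    intro L
    induction L with
    | nil => simp
    | cons β L ih =>
      intro h
      have h7 := ih fun β' hβ' => h β' (List.mem_cons_of_mem _ hβ')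
      have h8 := h β (by simp)
      rw [List.map_cons, List.sum_cons, List.length_cons]
      push_cast
      linarith
  have h7 := (h6 L h3).trans (h4.trans h5)
  rw [mul_one_div, div_le_iff₀ (by positivity)] at h7
  have h8 : (L.length : ℝ) ≤ ((4 * (D * D) : ℕ) : ℝ) := by
    push_cast
    linarith
  exact_mod_cast h8

end Pool.Agent.L0h78.DE
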