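import Pool.Agent.L0h78.DE.Corr

/-!
# Correctness of the search and of the loop
-/

namespace Pool.Agent.L0h78.DE

open Finset

variable {n M N D T g cap : ℕ} {τ : ℝ} {f : Cu n → Bool} {X : Fin M → Cu n} {U : Fin N → Cu n}
  {W : Fin N → List ℕ}

theorem nodup_ext {L : List (List Bool)} (h : L.Nodup) :
    (L.flatMap fun α => [α ++ [false], α ++ [true]]).Nodup := by
  rw [List.nodup_flatMap]
  refine ⟨fun α _ => by simp, ?_⟩
  refine h.imp fun {α β} hab => ?_
  rw [Function.onFun, List.disjoint_left]
  intro γ h1 h2
  simp only [List.mem_cons, List.not_mem_nil, or_false] at h1 h2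
  apply hab
  rcases h1 with rfl | rfl <;> rcases h2 with h2 | h2 <;>
    · have h3 := congrArg List.dropLast h2
      simpa using h3

theorem search_spec (hG : Good D T g τ f X U W) (hP : Par M N D g τ)
    (hcap : 4 * (D * D) ≤ cap) (H : List (Bool × List Bool)) (hH : H.length ≤ T) (S : Cu n)
    (hS : 2 / (D : ℝ) ≤ |fc (rC f D (toC n T H)) S|) : ∀ k ≤ n,
    ((List.range k).foldl (level g M D (stL f X) (tabL U W) cap H) [[]]).Nodup ∧
      (List.ofFn S).take k ∈
        (List.range k).foldl (level g M D (stL f X) (tabL U W) cap H) [[]] := by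
  intro k
  induction k with
  | zero => intro _; simp
  | succ k ih =>
    intro hk
    obtain ⟨h1, h2⟩ := ih (by omega)
    have h0 := (search_inv g M D (stL f X) (tabL U W) cap H (List.range k) [[]] 0 (by simp)
      (by simp)).2
    rw [List.range_succ, List.foldl_append, List.foldl_cons, List.foldl_nil]
    set L := (List.range k).foldl (level g M D (stL f X) (tabL U W) cap H) [[]] with hL
    have hlen : ∀ β ∈ L, β.length = k := by
      intro β hβ
      have := h0 β hβ
      simpa using this
    set L' := (L.flatMap fun α => [α ++ [false], α ++ [true]]).filter fun α =>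
      test g M D (stL f X) (tabL U W) H k α with hL'
    have h3 : L'.Nodup := (nodup_ext h1).filter _
    have h4 : ∀ β ∈ L', β.length = k + 1 := by
      intro β hβ
      obtain ⟨γ, hγ, h5⟩ := List.mem_flatMap.1 (List.mem_of_mem_filter hβ)
      have h6 := hlen γ hγ
      simp only [List.mem_cons, List.not_mem_nil, or_false] at h5
      rcases h5 with rfl | rfl <;> simp [h6]
    have h5 : ∀ β ∈ L', 1 / (D : ℝ) ^ 2 ≤ en (rC f D (toC n T H)) (k + 1) (pad β) := by
      intro β hβ
      exact (test_iff hG hP H hH k (by omega) β).1 (List.mem_filter.1 hβ).2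
    have h6 : L'.length ≤ cap :=
      (length_le_of_en _ (abs_rC f D _) (k + 1) hk D hP.hD L' h4 h3 h5).trans hcap
    have h7 : level g M D (stL f X) (tabL U W) cap H L k = L' := by
      unfold level
      exact List.take_of_length_le h6
    rw [h7]
    refine ⟨h3, List.mem_filter.2 ⟨?_, ?_⟩⟩
    · have h8 : (List.ofFn S).take (k + 1) = (List.ofFn S).take k ++ [S ⟨k, by omega⟩] := by
        rw [List.take_succ_eq_append_getElem (by simpa using hk)]
        simp
      rw [h8]
      refine List.mem_flatMap.2 ⟨_, h2, ?_⟩
      cases S ⟨k, by omega⟩ <;> simp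
    · refine (test_iff hG hP H hH k (by omega) _).2 ?_
      have h8 : fc (rC f D (toC n T H)) S ^ 2 ≤
          en (rC f D (toC n T H)) (k + 1) (pad ((List.ofFn S).take (k + 1))) := by
        have h9 : cut (k + 1) S = pad ((List.ofFn S).take (k + 1)) :=
          (cut_eq_pad S (k + 1) hk _ (by simp; omega)).2 rfl
        unfold en
        have h10 := single_le_sum (s := (univ : Finset (Cu n)))
          (f := fun S' => if cut (k + 1) S' = pad ((List.ofFn S).take (k + 1)) then
            fc (rC f D (toC n T H)) S' ^ 2 else 0)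
          (fun S' _ => by positivity) (mem_univ S)
        simp only [h9, if_true] at h10
        exact h10
      refine le_trans ?_ h8
      have hD0 : (0 : ℝ) < D := by exact_mod_cast hP.hD
      rw [← sq_abs (fc (rC f D (toC n T H)) S)]
      have h9 : (2 / (D : ℝ)) ^ 2 ≤ |fc (rC f D (toC n T H)) S| ^ 2 :=
        pow_le_pow_left₀ (by positivity) hS 2
      refine le_trans ?_ h9
      rw [div_pow]
      exact div_le_div_of_nonneg_right (by norm_num) (by positivity)

theorem ecoef_close (hG : Good D T g τ f X U W) (hP : Par M N D g τ)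
    (H : List (Bool × List Bool)) (hH : H.length ≤ T) (α : List Bool) :
    |(ecoef D (stL f X) H α : ℝ) - M * D * fc (rC f D (toC n T H)) (pad α)| ≤ M / 2 := by
  have hD0 : (0 : ℝ) < D := by exact_mod_cast hP.hD
  have hM0 : (0 : ℝ) < M := by exact_mod_cast hP.hM
  unfold ecoef
  rw [sum_stL]
  have h1 : ∀ j, (((D * yZ (f (X j)) - qH D H (List.ofFn (X j))) * chL α (List.ofFn (X j)) : ℤ)
      : ℝ) = D * (rC f D (toC n T H) (X j) * chi (pad α) (X j)) := by
    intro j
    push_cast
    rw [yZ_eq, qH_eq T D hP.hD H hH, chL_eq]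
    unfold rC
    ring
  rw [sum_congr rfl fun j _ => h1 j, ← mul_sum]
  have h2 := mul_le_mul_of_nonneg_left (hG.h5 (toC n T H) (pad α)) hD0.le
  rw [← abs_of_pos hD0, ← abs_mul, abs_of_pos hD0] at h2
  have h3 : (D : ℝ) * (M * τ) ≤ M / 2 := by
    have := mul_le_mul_of_nonneg_left hP.hτ2 hM0.le
    linarith
  have h4 : (D : ℝ) * ∑ j, rC f D (toC n T H) (X j) * chi (pad α) (X j) -
      M * D * fc (rC f D (toC n T H)) (pad α) = D *
      (∑ j, rC f D (toC n T H) (X j) * chi (pad α) (X j) -
        M * fc (rC f D (toC n T H)) (pad α)) := by ring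
  rw [h4]
  exact h2.trans h3

theorem big_iff {M D : ℕ} {st : List (List Bool × Bool)} {H : List (Bool × List Bool)}
    {α : List Bool} : big M D st H α = true ↔ (3 : ℝ) * M ≤ 2 * |(ecoef D st H α : ℝ)| := by
  unfold big
  rw [Bool.not_eq_true', decide_eq_false_iff_not, not_lt]
  have e : |(ecoef D st H α : ℝ)| = (((ecoef D st H α).natAbs : ℕ) : ℝ) := by
    rw [Nat.cast_natAbs, Int.cast_abs]
  rw [e]
  generalize (ecoef D st H α).natAbs = z
  constructor
  · intro h
    exact_mod_cast h
  · intro h
    exact_mod_cast h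

theorem sum_append_toC {T : ℕ} (H : List (Bool × List Bool)) (p : Bool × List Bool)
    (hH : H.length + 1 ≤ T) (x : Cu n) :
    gC (toC n T (H ++ [p])) x = gC (toC n T H) x + (sZ p.1 : ℝ) * chi (pad p.2) x := by
  rw [← GH_eq T _ (by simpa using hH), ← GH_eq T _ (by omega), GH_list, GH_list]
  simp

/-- One step: nothing changes and all coefficients are small, or the potential decreases. -/
theorem step_spec (hG : Good D T g τ f X U W) (hP : Par M N D g τ)
    (hcap : 4 * (D * D) ≤ cap) (H : List (Bool × List Bool)) (hH : H.length + 1 ≤ T) :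
    (step g M D (stL f X) (tabL U W) n cap H = H ∧
      Small (rC f D (toC n T H)) (2 / D)) ∨
    (pot (fun x => sR (f x)) (fun x => gC (toC n T (step g M D (stL f X) (tabL U W) n cap H)) x / D)
      ≤ pot (fun x => sR (f x)) (fun x => gC (toC n T H) x / D) - 1 / (D : ℝ) ^ 2) := by
  have hD0 : (0 : ℝ) < D := by exact_mod_cast hP.hD
  have hM0 : (0 : ℝ) < M := by exact_mod_cast hP.hM
  have hH' : H.length ≤ T := by omega
  unfold step
  cases h : ((search g M D (stL f X) (tabL U W) n cap H).filter
    (big M D (stL f X) H)).head? with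
  | none =>
    left
    refine ⟨rfl, fun S => ?_⟩
    by_contra hS
    push Not at hS
    have h1 := (search_spec hG hP hcap H hH' S hS.le n le_rfl).2
    have h2 : (List.ofFn S).take n = List.ofFn S := List.take_of_length_le (by simp)
    rw [h2] at h1
    have h3 := ecoef_close hG hP H hH' (List.ofFn S)
    have h4 : pad (List.ofFn S) = S := by
      funext i
      simp [pad]
    rw [h4] at h3
    have h5 : big M D (stL f X) H (List.ofFn S) = true := by
      rw [big_iff]
      have h6 : |M * D * fc (rC f D (toC n T H)) S| = M * D * |fc (rC f D (toC n T H)) S| := by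
        rw [abs_mul, abs_of_pos (by positivity)]
      have h7 : 2 * (M : ℝ) ≤ M * D * |fc (rC f D (toC n T H)) S| := by
        have h8 := mul_le_mul_of_nonneg_left hS.le (by positivity : (0 : ℝ) ≤ M * D)
        have h9 : (M : ℝ) * D * (2 / D) = 2 * M := by field_simp
        linarith
      have h10 := abs_sub_abs_le_abs_sub (M * D * fc (rC f D (toC n T H)) S)
        (ecoef D (stL f X) H (List.ofFn S) : ℝ)
      rw [abs_sub_comm] at h10
      linarith
    have h6 : List.ofFn S ∈ (search g M D (stL f X) (tabL U W) n cap H).filter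
        (big M D (stL f X) H) := List.mem_filter.2 ⟨h1, h5⟩
    rw [List.head?_eq_none_iff] at h
    rw [h] at h6
    simp at h6
  | some α =>
    right
    have h1 := (List.mem_filter.1 (List.mem_of_mem_head? h)).2
    rw [big_iff] at h1
    have h2 := ecoef_close hG hP H hH' α
    set Z : ℝ := (ecoef D (stL f X) H α : ℝ) with hZ
    set v := fc (rC f D (toC n T H)) (pad α) with hv
    set σ : ℝ := (sZ (decide (ecoef D (stL f X) H α < 0)) : ℝ) with hσ
    have h3 : 1 / D ≤ σ * v ∧ σ ^ 2 = 1 := by
      by_cases hneg : ecoef D (stL f X) H α < 0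
      · have e1 : σ = -1 := by
          rw [hσ, decide_eq_true hneg]
          simp [sZ]
        have e2 : Z < 0 := by
          rw [hZ]
          exact_mod_cast hneg
        rw [abs_of_neg e2] at h1
        rw [abs_le] at h2
        rw [e1]
        refine ⟨?_, by norm_num⟩
        rw [div_le_iff₀ hD0]
        have h5 : (M : ℝ) * 1 ≤ M * (-1 * v * D) := by linarith [h2.1]
        exact le_of_mul_le_mul_left h5 hM0
      · have e1 : σ = 1 := by
          rw [hσ, decide_eq_false hneg]
          simp [sZ]
        have e2 : 0 ≤ Z := by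
          rw [hZ]
          exact_mod_cast not_lt.1 hneg
        rw [abs_of_nonneg e2] at h1
        rw [abs_le] at h2
        rw [e1]
        refine ⟨?_, by norm_num⟩
        rw [div_le_iff₀ hD0]
        have h5 : (M : ℝ) * 1 ≤ M * (1 * v * D) := by linarith [h2.2]
        exact le_of_mul_le_mul_left h5 hM0
    have h4 := pot_step (fun x => sR (f x)) (fun x => gC (toC n T H) x / D) (pad α) (σ / D)
    have h5 : (fun x : Cu n => gC (toC n T H) x / D + σ / D * chi (pad α) x) =
        fun x => gC (toC n T (H ++ [(decide (ecoef D (stL f X) H α < 0), α)])) x / D := by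
      funext x
      rw [sum_append_toC H _ hH x]
      simp only [← hσ]
      ring
    rw [h5] at h4
    refine h4.trans ?_
    have h6 : fc (fun x => sR (f x) - clip (gC (toC n T H) x / D)) (pad α) = v := rfl
    rw [h6, div_pow, h3.2]
    have h7 : 2 * (σ / D) * v = 2 * (σ * v) / D := by ring
    have h8 : 2 * (1 / (D : ℝ)) / D ≤ 2 * (σ * v) / D :=
      div_le_div_of_nonneg_right (by linarith [h3.1]) hD0.le
    have h9 : 2 * (1 / (D : ℝ)) / D = 2 * (1 / D ^ 2) := by
      field_simp
    rw [h7]
    linarith

theorem pot_zero (f : Cu n → Bool) : pot (fun x => sR (f x)) (fun _ => 0) = 1 := by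
  unfold pot
  have h1 : clip 0 = 0 := by
    unfold clip
    norm_num
  rw [Ex_congr (ψ := fun _ => 1) fun x => by
    rw [h1, sub_zero, sub_zero, pow_two, sR_mul_self]
    norm_num]
  exact Ex_const 1

/-- The loop. -/
theorem loop_spec (hG : Good D (D * D + 1) g τ f X U W) (hP : Par M N D g τ)
    (hcap : 4 * (D * D) ≤ cap) :
    (loop g M D (stL f X) (tabL U W) n cap (D * D + 1)).length ≤ D * D + 1 ∧
    Small (rC f D (toC n (D * D + 1)
      (loop g M D (stL f X) (tabL U W) n cap (D * D + 1)))) (2 / D) := by
  have hD0 : (0 : ℝ) < D := by exact_mod_cast hP.hD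
  set T := D * D + 1 with hT
  set Hs : ℕ → List (Bool × List Bool) := fun t => (List.range t).foldl
    (fun H _ => step g M D (stL f X) (tabL U W) n cap H) [] with hHs
  have hlen : ∀ t, (Hs t).length ≤ t := by
    intro t
    have := (loop_inv g M D (stL f X) (tabL U W) n cap (List.range t) [] (by simp)).1
    simpa using this
  have hsucc : ∀ t, Hs (t + 1) = step g M D (stL f X) (tabL U W) n cap (Hs t) := by
    intro t
    simp only [hHs]
    rw [List.range_succ, List.foldl_append, List.foldl_cons, List.foldl_nil]
  have key : ∀ t ≤ T, (step g M D (stL f X) (tabL U W) n cap (Hs t) = Hs t ∧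
      Small (rC f D (toC n T (Hs t))) (2 / D)) ∨
      pot (fun x => sR (f x)) (fun x => gC (toC n T (Hs t)) x / D) ≤ 1 - t * (1 / (D : ℝ) ^ 2) := by
    intro t
    induction t with
    | zero =>
      intro _
      right
      have h1 : (fun x : Cu n => gC (toC n T (Hs 0)) x / D) = fun _ => 0 := by
        funext x
        simp [hHs, gC, toC]
      rw [h1, pot_zero]
      simp
    | succ t ih =>
      intro ht
      rcases ih (by omega) with h | h
      · left
        rw [hsucc, h.1]
        exact h
      · have h2 := hlen t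
        rcases step_spec hG hP hcap (Hs t) (by omega) with h3 | h3
        · left
          rw [hsucc, h3.1]
          exact h3
        · right
          rw [hsucc]
          refine h3.trans ?_
          push_cast
          linarith
  refine ⟨hlen T, ?_⟩
  rcases key T le_rfl with h | h
  · exact h.2
  · exfalso
    have h1 := pot_nonneg (f := fun x => sR (f x)) (g := fun x => gC (toC n T (Hs T)) x / D)
      (fun x => (abs_sR _).le)
    have h2 : (T : ℝ) * (1 / (D : ℝ) ^ 2) > 1 := by
      rw [mul_one_div, gt_iff_lt, lt_div_iff₀ (by positivity), hT]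
      push_cast
      nlinarith
    linarith

/-- The error of the hypothesis found from a good sample. -/
theorem learn_spec {s a : ℕ} {F : List (List (ℕ × Bool))} (hF : IsDnf n s F) (ha : 1 ≤ a)
    (hD : D = dd s a) (hG : Good D (D * D + 1) g τ (fn n F) X U W) (hP : Par M N D g τ)
    (hcap : 4 * (D * D) ≤ cap) :
    Prob (fun x : Cu n => evalH (loop g M D (stL (fn n F) X) (tabL U W) n cap (D * D + 1),
      List.ofFn x) ≠ fn n F x) ≤ 1 / (a : ℝ) := by
  obtain ⟨h1, h2⟩ := loop_spec hG hP hcap
  set H := loop g M D (stL (fn n F) X) (tabL U W) n cap (D * D + 1) with hH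
  have hD0 : (0 : ℝ) < D := by exact_mod_cast hP.hD
  have ha0 : (0 : ℝ) < a := by exact_mod_cast ha
  have h3 := dnf_close hF (p := pC D (toC n (D * D + 1) H)) (fun x => ⟨clip_ge _, clip_le _⟩)
    (by positivity : (0 : ℝ) ≤ 2 / D) h2
  have h4 := prob_sign_le (fn n F) (pC D (toC n (D * D + 1) H))
    (fun x => evalH (H, List.ofFn x)) (fun x => by
      unfold evalH pC
      rw [Bool.not_eq_true', decide_eq_false_iff_not, not_lt]
      rw [← GH_eq (D * D + 1) H h1]
      constructor
      · intro h5
        have h6 : (0 : ℝ) ≤ (GH H (List.ofFn x) : ℝ) / D :=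
          div_nonneg (by exact_mod_cast h5) hD0.le
        unfold clip
        exact le_max_of_le_right (le_min (by norm_num) h6)
      · intro h5
        by_contra h6
        have h7 : (GH H (List.ofFn x) : ℝ) / D < 0 :=
          div_neg_of_neg_of_pos (by exact_mod_cast not_le.1 h6) hD0
        unfold clip at h5
        have h8 : max (-1) (min 1 ((GH H (List.ofFn x) : ℝ) / D)) < 0 :=
          max_lt (by norm_num) ((min_le_right _ _).trans_lt h7)
        linarith)
  refine h4.trans (h3.trans_eq ?_)
  rw [hD]
  unfold dd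
  push_cast
  field_simp

end Pool.Agent.L0h78.DE
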