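import Pool.Agent.Helper91K9.DL.Target

/-!
# Learning DNF formulas from uniform random examples and estimating one number: definitions

Points of the cube `{0,1}^n` are functions `Fin n → Bool`, given to algorithms as lists.  DNF
formulas are lists of terms, terms are lists of literals (variable, sign), as in
`Pool.Agent.Helper91K9.DL`.
-/

namespace Pool.Agent.L0h78.DE

open Pool.Agent.NPC Pool.Agent.H424R2.PPAD Finset
open Pool.Agent.Helper91K9.DL (dnfVal termVal examples)

/-- The probability of `P` for a uniform element of the finite type `Ω`. -/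
noncomputable def Prob {Ω : Type} [Fintype Ω] (P : Ω → Prop) : ℝ := by
  classical exact ((univ.filter P).card : ℝ) / Fintype.card Ω

/-- `F` is a DNF formula with at most `s` terms in the variables `0, …, n - 1`. -/
def IsDnf (n s : ℕ) (F : List (List (ℕ × Bool))) : Prop :=
  F.length ≤ s ∧ ∀ t ∈ F, ∀ l ∈ t, l.1 < n

/-- The Boolean function on `{0,1}^n` computed by `F`. -/
def fn (n : ℕ) (F : List (List (ℕ × Bool))) : (Fin n → Bool) → Bool :=
  fun x => dnfVal F (List.ofFn x)

/-- What an algorithm gets: the parameters `(n, s, a, b)`, a list of examples and a list of random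
bits. -/
abbrev Input : Type := (ℕ × ℕ × ℕ × ℕ) × List (List Bool × Bool) × List Bool

/-- The sample space: `N` points of `{0,1}^n` and `N` bits. -/
abbrev Sample (n N : ℕ) : Type := (Fin N → Fin n → Bool) × (Fin N → Bool)

/-- The input given to an algorithm in the situation `ω`. -/
def input (n s a b : ℕ) (F : List (List (ℕ × Bool))) {N : ℕ} (ω : Sample n N) : Input :=
  ((n, s, a, b), examples F ω.1, List.ofFn ω.2)

/-- DNF formulas are learnable in polynomial time from uniform random examples: there are a type
`H` of (codes of) hypotheses, a polynomial time algorithm `A` that outputs hypotheses, and a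
polynomial time algorithm `V` that evaluates them, such that for every DNF formula `F` with at most
`s` terms in `n` variables, given `(n + s + a + b) ^ e` examples of `F` and as many random bits, `A`
finds with probability at least `1 - 1/b` a hypothesis that differs from `F` with probability at
most `1/a`. -/
def Learnable : Prop :=
  ∃ (H : Type) (_ : TEnc H) (A : Input → H) (V : H × List Bool → Bool), PTime A ∧ PTime V ∧
    ∃ e : ℕ, ∀ (n s a b : ℕ) (F : List (List (ℕ × Bool))), 1 ≤ a → 1 ≤ b → IsDnf n s F →
      1 - 1 / (b : ℝ) ≤ Prob fun ω : Sample n ((n + s + a + b) ^ e) =>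
        Prob (fun x : Fin n → Bool =>
          V (A (input n s a b F ω), List.ofFn x) ≠ fn n F x) ≤ 1 / (a : ℝ)

/-- The number `Ψ` attached to Boolean functions can be estimated for DNF formulas, in polynomial
time from uniform random examples, with precision `1/g` and confidence `1 - 1/b`. -/
def Estimable (Ψ : (n : ℕ) → ((Fin n → Bool) → Bool) → ℝ) : Prop :=
  ∃ E : Input → ℕ, PTime E ∧
    ∃ e : ℕ, ∀ (n s g b : ℕ) (F : List (List (ℕ × Bool))), 1 ≤ g → 1 ≤ b → IsDnf n s F →
      1 - 1 / (b : ℝ) ≤ Prob fun ω : Sample n ((n + s + g + b) ^ e) =>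
        |(E (input n s g b F ω) : ℝ) / g - Ψ n (fn n F)| ≤ 1 / (g : ℝ)

/-- The probability that `f x` changes if the bits of `a` are added to those of `x`. -/
noncomputable def shiftProb {n : ℕ} (f : (Fin n → Bool) → Bool) (a : Fin n → Bool) : ℝ :=
  Prob fun x => f (fun i => xor (x i) (a i)) ≠ f x

/-- As `Estimable`, for `shiftProb f a`; the vector `a` is given to the algorithm. -/
def EstimableShift : Prop :=
  ∃ E : List Bool × Input → ℕ, PTime E ∧
    ∃ e : ℕ, ∀ (n s g b : ℕ) (F : List (List (ℕ × Bool))) (a : Fin n → Bool), 1 ≤ g → 1 ≤ b →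
      IsDnf n s F →
      1 - 1 / (b : ℝ) ≤ Prob fun ω : Sample n ((n + s + g + b) ^ e) =>
        |(E (List.ofFn a, input n s g b F ω) : ℝ) / g - shiftProb (fn n F) a| ≤ 1 / (g : ℝ)

/-- The influence of the variable `i` on `f`. -/
noncomputable def influence {n : ℕ} (f : (Fin n → Bool) → Bool) (i : Fin n) : ℝ :=
  Prob fun x => f (Function.update x i (!x i)) ≠ f x

/-- The influence of the first variable (`0` if there are no variables). -/
noncomputable def firstInfluence (n : ℕ) (f : (Fin n → Bool) → Bool) : ℝ :=
  if h : 0 < n then influence f ⟨0, h⟩ else 0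

/-- The average sensitivity (total influence) of `f`. -/
noncomputable def averageSensitivity (n : ℕ) (f : (Fin n → Bool) → Bool) : ℝ :=
  ∑ i, influence f i

/-- The probability that `f` has different values at a uniform point and at its antipode. -/
noncomputable def antipodal (n : ℕ) (f : (Fin n → Bool) → Bool) : ℝ :=
  Prob fun x => f (fun i => !x i) ≠ f x

end Pool.Agent.L0h78.DE
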