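import Pool.Agent.L0h78.DE.Pr

/-!
# Fourier analysis on the cube
-/

namespace Pool.Agent.L0h78.DE

open Finset

/-- Points of the cube. -/
abbrev Cu (n : ℕ) : Type := Fin n → Bool

variable {n : ℕ}

/-- The sum modulo 2. -/
def sh (x a : Cu n) : Cu n := fun i => xor (x i) (a i)

/-- The characters, `S` and `x` play the same role. -/
noncomputable def chi (S x : Cu n) : ℝ := ∏ i, if S i && x i then -1 else 1

theorem chi_comm (S x : Cu n) : chi S x = chi x S := by
  unfold chi
  exact prod_congr rfl fun i _ => by rw [Bool.and_comm]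

theorem chi_sh (S x a : Cu n) : chi S (sh x a) = chi S x * chi S a := by
  unfold chi sh
  rw [← prod_mul_distrib]
  refine prod_congr rfl fun i _ => ?_
  cases S i <;> cases x i <;> cases a i <;> simp

theorem abs_chi (S x : Cu n) : |chi S x| = 1 := by
  unfold chi
  rw [abs_prod]
  refine prod_eq_one fun i _ => ?_
  split_ifs <;> simp

theorem chi_sq (S x : Cu n) : chi S x * chi S x = 1 := by
  have h := abs_chi S x
  rw [← abs_mul_abs_self, h, one_mul]

/-- The zero vector. -/
def zv : Cu n := fun _ => false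

theorem chi_zv (x : Cu n) : chi zv x = 1 := by
  unfold chi zv
  simp

theorem chi_zv' (S : Cu n) : chi S zv = 1 := by rw [chi_comm, chi_zv]

theorem Ex_chi (S : Cu n) : Ex (chi S) = if S = zv then 1 else 0 := by
  split_ifs with h
  · subst h
    rw [Ex_congr chi_zv]
    exact Ex_const 1
  · have h1 : ∃ i, S i = true := by
      by_contra h1
      push Not at h1
      exact h (funext fun i => by simpa [zv] using h1 i)
    have h2 : ∑ x : Cu n, chi S x = ∏ i, ∑ b : Bool, (if S i && b then (-1 : ℝ) else 1) := by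
      unfold chi
      rw [prod_univ_sum]
      rfl
    obtain ⟨i, hi⟩ := h1
    unfold Ex
    rw [h2, prod_eq_zero (mem_univ i), zero_div]
    simp [hi]

theorem sh_eq_zv {S T : Cu n} : sh S T = zv ↔ S = T := by
  constructor
  · intro h
    funext i
    have := congrFun h i
    simp only [sh, zv] at this
    revert this
    cases S i <;> cases T i <;> simp
  · rintro rfl
    funext i
    simp [sh, zv]

theorem Ex_chi_mul (S T : Cu n) : Ex (fun x => chi S x * chi T x) = if S = T then 1 else 0 := by
  have h : ∀ x, chi S x * chi T x = chi (sh S T) x := by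
    intro x
    rw [chi_comm (sh S T), chi_sh, chi_comm x S, chi_comm x T]
  rw [Ex_congr h, Ex_chi]
  simp only [sh_eq_zv]

/-- Fourier coefficients. -/
noncomputable def fc (r : Cu n → ℝ) (S : Cu n) : ℝ := Ex fun x => r x * chi S x

/-- Autocorrelation. -/
noncomputable def ac (r : Cu n → ℝ) (a : Cu n) : ℝ := Ex fun x => r x * r (sh x a)

theorem sh_invol (x a : Cu n) : sh (sh x a) a = x := by
  funext i
  simp only [sh]
  cases x i <;> cases a i <;> rfl

/-- The translation by `a` as an equivalence. -/
def shEquiv (a : Cu n) : Cu n ≃ Cu n where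
  toFun x := sh x a
  invFun x := sh x a
  left_inv x := sh_invol x a
  right_inv x := sh_invol x a

theorem Ex_sh (φ : Cu n → ℝ) (a : Cu n) : Ex (fun x => φ (sh x a)) = Ex φ :=
  Ex_equiv (shEquiv a) φ

theorem sh_comm (x a : Cu n) : sh x a = sh a x := by
  funext i
  simp only [sh]
  cases x i <;> cases a i <;> rfl

theorem card_cu : (Fintype.card (Cu n) : ℝ) = 2 ^ n := by
  simp

/-- Wiener–Khinchin. -/
theorem ac_eq (r : Cu n → ℝ) (a : Cu n) : ac r a = ∑ S, fc r S ^ 2 * chi S a := by
  have h1 : ∀ S, fc r S ^ 2 * chi S a =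
      Ex fun x => Ex fun y => r x * r y * chi (sh (sh x y) a) S := by
    intro S
    rw [pow_two]
    unfold fc
    rw [← Ex_mul_right, ← Ex_mul_right]
    refine Ex_congr fun x => ?_
    rw [mul_right_comm, ← Ex_mul_left, ]
    refine Ex_congr fun y => ?_
    rw [chi_comm (sh (sh x y) a), chi_sh, chi_sh]
    ring
  have h2 : ∀ x y : Cu n, ∑ S, r x * r y * chi (sh (sh x y) a) S =
      r x * r y * if y = sh x a then 2 ^ n else 0 := by
    intro x y
    rw [← mul_sum]
    congr 1
    have h3 := Ex_chi (sh (sh x y) a)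
    unfold Ex at h3
    rw [card_cu] at h3
    have h4 : sh (sh x y) a = zv ↔ y = sh x a := by
      rw [sh_eq_zv]
      constructor
      · rintro rfl
        rw [sh_comm x y, sh_comm x (sh y x), sh_invol]
      · rintro rfl
        rw [sh_comm x a, sh_comm x (sh a x), sh_invol]
    simp only [h4] at h3
    rw [div_eq_iff (by positivity)] at h3
    rw [h3]
    split_ifs <;> simp
  simp only [h1]
  rw [← Ex_sum]
  unfold ac
  refine Ex_congr fun x => ?_
  rw [← Ex_sum]
  unfold Ex
  rw [Finset.sum_congr rfl fun y _ => h2 x y]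
  rw [card_cu, eq_div_iff (by positivity)]
  simp

theorem sum_fc_sq (r : Cu n → ℝ) : ∑ S, fc r S ^ 2 = Ex fun x => r x ^ 2 := by
  have h := ac_eq r zv
  simp only [chi_zv', mul_one] at h
  rw [← h]
  unfold ac
  refine Ex_congr fun x => ?_
  have : sh x zv = x := by
    funext i
    simp [sh, zv]
  rw [this, pow_two]

/-- The first `k` coordinates, followed by zeros. -/
def cut (k : ℕ) (x : Cu n) : Cu n := fun i => x i && decide ((i : ℕ) < k)

theorem chi_cut (k : ℕ) (S x : Cu n) : chi S (cut k x) = chi (cut k S) x := by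
  unfold chi cut
  refine prod_congr rfl fun i _ => ?_
  cases S i <;> cases x i <;> simp

/-- The energy of the coefficients whose first `k` coordinates are those of `T`. -/
noncomputable def en (r : Cu n → ℝ) (k : ℕ) (T : Cu n) : ℝ :=
  ∑ S, if cut k S = T then fc r S ^ 2 else 0

theorem en_eq (r : Cu n → ℝ) (k : ℕ) (T : Cu n) :
    Ex (fun u => ac r (cut k u) * chi T u) = en r k T := by
  unfold en
  have h : ∀ u, ac r (cut k u) * chi T u = ∑ S, fc r S ^ 2 * (chi (cut k S) u * chi T u) := by
    intro u
    rw [ac_eq, sum_mul]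
    refine sum_congr rfl fun S _ => ?_
    rw [chi_cut]
    ring
  rw [Ex_congr h, Ex_sum]
  refine sum_congr rfl fun S _ => ?_
  rw [Ex_mul_left, Ex_chi_mul]
  split_ifs <;> simp

end Pool.Agent.L0h78.DE
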