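import Pool.Agent.L0h78.DE.Red

/-!
# Learning suffices for estimating
-/

namespace Pool.Agent.L0h78.DE

open Finset
open Pool.Agent.NPC Pool.Agent.H424R2.PPAD
open Pool.Agent.Helper91K9.DL (dnfVal termVal examples nvars nvars_upoly)

variable {n : ℕ}

/-- The number of pairs (point, direction) where the value changes. -/
def cntL (h : List Bool → Bool) (dl : List (List Bool)) (xs : List (List Bool)) : ℕ :=
  (xs.map fun x => (dl.map fun d => if h (shL x d) = h x then 0 else 1).sum).sum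

/-- The sample size. -/
@[irreducible] def mm (n g b : ℕ) : ℕ := 2048 * (g * g) * ((n + 1) * (n + 1)) * b

@[fun_prop] theorem mm_poly {α : Type} [TEnc α] {n g b : α → ℕ} (hn : NPC.Poly n)
    (hg : NPC.Poly g) (hb : NPC.Poly b) : NPC.Poly fun x => mm (n x) (g x) (b x) := by
  unfold mm
  fun_prop

/-- The estimator. -/
def estim {H : Type} (A : Input → H) (V : H × List Bool → Bool) (e : ℕ)
    (dl : List (List Bool × Bool) → List (List Bool)) (I : Input) : ℕ :=
  let n := I.1.1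
  let s := I.1.2.1
  let g := I.1.2.2.1
  let b := I.1.2.2.2
  let a' := 8 * g * (n + 1)
  let t := (n + s + a' + 2 * b) ^ e
  let h := A ((n, s, a', 2 * b), I.2.1.take t, I.2.2.take t)
  (2 * g * cntL (fun x => V (h, x)) (dl I.2.1)
    (((I.2.1.drop t).take (mm n g b)).map fun p => p.1) + mm n g b) / (2 * mm n g b)

/-- The sum of the probabilities of change. -/
noncomputable def psi (dl : List (List Bool)) (f : Cu n → Bool) : ℝ :=
  (dl.map fun d => shiftProb f (pad d)).sum

theorem shiftProb_close (f h : Cu n → Bool) (a : Cu n) :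
    |shiftProb h a - shiftProb f a| ≤ 2 * Prob (fun x => h x ≠ f x) := by
  rw [shiftProb_eq, shiftProb_eq]
  have e1 : Prob (fun x => h (sh x a) ≠ f (sh x a)) = Prob (fun x => h x ≠ f x) :=
    prob_sh (fun x => h x ≠ f x) a
  have k1 : Prob (fun x => h (sh x a) ≠ h x) ≤ Prob (fun x => f (sh x a) ≠ f x) +
      (Prob (fun x => h x ≠ f x) + Prob (fun x => h (sh x a) ≠ f (sh x a))) := by
    refine (prob_mono fun x hx => ?_).trans ((prob_or_le (fun x => f (sh x a) ≠ f x)
      (fun x => h x ≠ f x ∨ h (sh x a) ≠ f (sh x a))).trans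
        (add_le_add le_rfl (prob_or_le _ _)))
    by_contra hcon
    simp only [not_or, not_not] at hcon
    obtain ⟨c1, c2, c3⟩ := hcon
    exact hx (by rw [c3, c1, c2])
  have k2 : Prob (fun x => f (sh x a) ≠ f x) ≤ Prob (fun x => h (sh x a) ≠ h x) +
      (Prob (fun x => h x ≠ f x) + Prob (fun x => h (sh x a) ≠ f (sh x a))) := by
    refine (prob_mono fun x hx => ?_).trans ((prob_or_le (fun x => h (sh x a) ≠ h x)
      (fun x => h x ≠ f x ∨ h (sh x a) ≠ f (sh x a))).trans
        (add_le_add le_rfl (prob_or_le _ _)))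
    by_contra hcon
    simp only [not_or, not_not] at hcon
    obtain ⟨c1, c2, c3⟩ := hcon
    exact hx (by rw [← c3, c1, c2])
  rw [e1] at k1 k2
  rw [abs_le]
  constructor <;> linarith

theorem psi_close (f h : Cu n → Bool) : ∀ dl : List (List Bool),
    |psi dl h - psi dl f| ≤ dl.length * (2 * Prob (fun x => h x ≠ f x)) := by
  intro dl
  unfold psi
  induction dl with
  | nil => simp
  | cons d dl ih =>
    rw [List.map_cons, List.sum_cons, List.map_cons, List.sum_cons, List.length_cons]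
    have h1 := shiftProb_close f h (pad d)
    have e1 : shiftProb h (pad d) + (dl.map fun d => shiftProb h (pad d)).sum -
        (shiftProb f (pad d) + (dl.map fun d => shiftProb f (pad d)).sum) =
        (shiftProb h (pad d) - shiftProb f (pad d)) +
        ((dl.map fun d => shiftProb h (pad d)).sum - (dl.map fun d => shiftProb f (pad d)).sum) := by
      ring
    rw [e1]
    refine (abs_add_le _ _).trans ?_
    push_cast
    linarith

/-- The function whose mean is `psi`. -/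
noncomputable def phi (dl : List (List Bool)) (h : Cu n → Bool) (x : Cu n) : ℝ :=
  (dl.map fun d => ind (h (sh x (pad d)) ≠ h x)).sum

theorem Ex_phi (dl : List (List Bool)) (h : Cu n → Bool) : Ex (phi dl h) = psi dl h := by
  unfold phi psi
  rw [Ex_list_sum (fun d x => ind (h (sh x (pad d)) ≠ h x)) dl]
  congr 1
  refine List.map_congr_left fun d _ => ?_
  rw [shiftProb_eq, prob_eq]

theorem abs_phi_le (dl : List (List Bool)) (h : Cu n → Bool) (x : Cu n) :
    |phi dl h x| ≤ dl.length := by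
  unfold phi
  induction dl with
  | nil => simp
  | cons d dl ih =>
    rw [List.map_cons, List.sum_cons, List.length_cons]
    refine (abs_add_le _ _).trans ?_
    have h1 : |ind (h (sh x (pad d)) ≠ h x)| ≤ 1 := by
      rw [abs_of_nonneg (ind_nonneg _)]
      exact ind_le_one _
    push_cast
    linarith

theorem cntL_eq {M : ℕ} (h : List Bool → Bool) (dl : List (List Bool))
    (hdl : ∀ d ∈ dl, d.length = n) (X : Fin M → Cu n) :
    (cntL h dl (List.ofFn fun j => List.ofFn (X j)) : ℝ) =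
      ∑ j, phi dl (fun x => h (List.ofFn x)) (X j) := by
  unfold cntL
  rw [List.map_ofFn, List.sum_ofFn]
  push_cast
  refine sum_congr rfl fun j _ => ?_
  simp only [Function.comp]
  unfold phi
  induction dl with
  | nil => simp
  | cons d dl ih =>
    have ih' := ih fun d' hd' => hdl d' (List.mem_cons_of_mem _ hd')
    rw [List.map_cons, List.sum_cons, List.map_cons, List.sum_cons]
    push_cast at ih' ⊢
    rw [ih']
    congr 1
    have h1 : List.ofFn (pad d : Cu n) = d := by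
      have h2 := hdl d (by simp)
      refine List.ext_getElem (by simp [h2]) fun i h3 h4 => ?_
      simp [pad, List.getElem?_eq_getElem h4]
    have h2 : shL (List.ofFn (X j)) d = List.ofFn (sh (X j) (pad d)) := by
      conv_lhs => rw [← h1]
      rw [shL_ofFn]
    rw [h2]
    by_cases h3 : h (List.ofFn (sh (X j) (pad d))) = h (List.ofFn (X j))
    · rw [if_pos h3, ind_of_not (by simpa using h3)]
    · rw [if_neg h3, ind_of h3]

theorem round_est {g c M : ℕ} (hg : 1 ≤ g) (hM : 1 ≤ M) :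
    |(((2 * g * c + M) / (2 * M) : ℕ) : ℝ) / g - c / M| ≤ 1 / (2 * (g : ℝ)) := by
  have hg0 : (0 : ℝ) < g := by exact_mod_cast hg
  have hM0 : (0 : ℝ) < M := by exact_mod_cast hM
  set v := (2 * g * c + M) / (2 * M) with hv
  have h1 : 2 * M * v ≤ 2 * g * c + M := Nat.mul_div_le _ _
  have h2 : 2 * g * c + M < 2 * M * (v + 1) := by
    have := Nat.lt_mul_div_succ (2 * g * c + M) (by omega : 0 < 2 * M)
    exact this
  have h1' : 2 * (M : ℝ) * v ≤ 2 * g * c + M := by exact_mod_cast h1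
  have h2' : 2 * (g : ℝ) * c + M < 2 * M * (v + 1) := by exact_mod_cast h2
  have e1 : (v : ℝ) / g - c / M = (v * M - g * c) / (g * M) := by
    field_simp
  have e2 : 1 / (2 * (g : ℝ)) = (M / 2) / (g * M) := by
    field_simp
  rw [e1, e2, abs_div, abs_of_pos (by positivity : (0 : ℝ) < g * M)]
  refine div_le_div_of_nonneg_right ?_ (by positivity)
  rw [abs_le]
  constructor <;> linarith

theorem acc_est {g c M n : ℕ} (hg : 1 ≤ g) (hM : 1 ≤ M) {x y r : ℝ}
    (h1 : |(c : ℝ) - M * x| ≤ M * (1 / (4 * g))) (h2 : |x - y| ≤ (n + 1 : ℕ) * (2 * r))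
    (h3 : r ≤ 1 / ((8 * g * (n + 1) : ℕ) : ℝ)) :
    |(((2 * g * c + M) / (2 * M) : ℕ) : ℝ) / g - y| ≤ 1 / (g : ℝ) := by
  have hg0 : (0 : ℝ) < g := by exact_mod_cast hg
  have hM0 : (0 : ℝ) < M := by exact_mod_cast hM
  have h4 := round_est (c := c) hg hM
  have h5 : |(c : ℝ) / M - x| ≤ 1 / (4 * g) := by
    have e1 : (c : ℝ) / M - x = (c - M * x) / M := by field_simp
    rw [e1, abs_div, abs_of_pos hM0, div_le_iff₀ hM0]
    linarith
  have h6 : ((n + 1 : ℕ) : ℝ) * (2 * r) ≤ 1 / (4 * g) := by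
    have h7 : ((n + 1 : ℕ) : ℝ) * (2 * r) ≤ (n + 1 : ℕ) * (2 * (1 / ((8 * g * (n + 1) : ℕ) : ℝ))) :=
      mul_le_mul_of_nonneg_left (by linarith) (Nat.cast_nonneg _)
    refine h7.trans_eq ?_
    push_cast
    field_simp
    norm_num
  have e2 : 1 / (g : ℝ) = 1 / (2 * g) + 1 / (4 * g) + 1 / (4 * g) := by
    field_simp
    norm_num
  rw [e2]
  rw [abs_le] at h2 h4 h5 ⊢
  constructor <;> linarith [h2.1, h2.2, h4.1, h4.2, h5.1, h5.2]

theorem size_fwd1 {n s g b y : ℕ} (hy : 2 ≤ y) (hn : n + 1 ≤ y) (hg' : g ≤ y)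
    (hs : n + s + 2 * b ≤ 2 * y) (e : ℕ) :
    (n + s + 8 * g * (n + 1) + 2 * b) ^ e ≤ y ^ (6 * e + 16) := by
  have e1 : n + s + 8 * g * (n + 1) + 2 * b ≤ y ^ 6 := by
    have h0 : 8 ≤ y ^ 3 := by
      calc 8 = 2 ^ 3 := by norm_num
        _ ≤ y ^ 3 := Nat.pow_le_pow_left hy 3
    have h1 : 8 * g * (n + 1) ≤ y ^ 5 := by
      calc 8 * g * (n + 1) ≤ y ^ 3 * y * y := Nat.mul_le_mul (Nat.mul_le_mul h0 hg') hn
        _ = y ^ 5 := by ring
    have h2 : n + s + 2 * b ≤ y ^ 5 := by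
      calc n + s + 2 * b ≤ 2 * y := hs
        _ ≤ y ^ 4 * y := Nat.mul_le_mul_right _ (by
            calc 2 ≤ 2 ^ 4 := by norm_num
              _ ≤ y ^ 4 := Nat.pow_le_pow_left hy 4)
        _ = y ^ 5 := by ring
    calc n + s + 8 * g * (n + 1) + 2 * b = 8 * g * (n + 1) + (n + s + 2 * b) := by ring
      _ ≤ y ^ 5 + y ^ 5 := Nat.add_le_add h1 h2
      _ = 2 * y ^ 5 := by ring
      _ ≤ y * y ^ 5 := Nat.mul_le_mul_right _ hy
      _ = y ^ 6 := by ring
  calc (n + s + 8 * g * (n + 1) + 2 * b) ^ e ≤ (y ^ 6) ^ e := Nat.pow_le_pow_left e1 e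
    _ = y ^ (6 * e) := (pow_mul y 6 e).symm
    _ ≤ y ^ (6 * e + 16) := Nat.pow_le_pow_right (by omega) (by omega)

theorem size_fwd2 {k n g b y : ℕ} (hk : k ≤ y ^ 11) (hy : 2 ≤ y) (hn : n + 1 ≤ y)
    (hg' : g ≤ y) (hb' : b ≤ y) (e : ℕ) :
    k * (g * g) * ((n + 1) * (n + 1)) * b ≤ y ^ (6 * e + 16) := by
  have h1 : k * (g * g) * ((n + 1) * (n + 1)) * b ≤ y ^ 11 * (y * y) * (y * y) * y :=
    Nat.mul_le_mul (Nat.mul_le_mul (Nat.mul_le_mul hk (Nat.mul_le_mul hg' hg'))
      (Nat.mul_le_mul hn hn)) hb'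
  have h2 : y ^ 11 * (y * y) * (y * y) * y = y ^ 16 := by ring
  rw [h2] at h1
  exact h1.trans (Nat.pow_le_pow_right (by omega) (by omega))

theorem k_le {y : ℕ} (hy : 2 ≤ y) : 2048 ≤ y ^ 11 :=
  le_trans (by norm_num) (Nat.pow_le_pow_left hy 11)

/-- The sizes. -/
theorem size_fwd {n s g b : ℕ} (hg : 1 ≤ g) (hb : 1 ≤ b) (e : ℕ) :
    (n + s + 8 * g * (n + 1) + 2 * b) ^ e + mm n g b ≤ (n + s + g + b) ^ (6 * e + 17) := by
  have hy : 2 ≤ n + s + g + b := by omega
  have h1 := size_fwd1 (n := n) (s := s) (g := g) (b := b) (y := n + s + g + b) (by omega)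
    (by omega) (by omega) (by omega) e
  have h2 := size_fwd2 (n := n) (g := g) (b := b) (y := n + s + g + b) (k_le hy) (by omega)
    (by omega) (by omega) (by omega) e
  rw [← mm] at h2
  have h3 := Nat.mul_le_mul_right ((n + s + g + b) ^ (6 * e + 16)) hy
  have h4 : (n + s + g + b) ^ (6 * e + 17) =
      (n + s + g + b) * (n + s + g + b) ^ (6 * e + 16) := by
    rw [show 6 * e + 17 = 6 * e + 16 + 1 from rfl, pow_succ _ (6 * e + 16), mul_comm]
  rw [h4]
  exact (Nat.add_le_add h1 h2).trans ((two_mul _).symm.le.trans h3)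

theorem estim_poly {H : Type} [TEnc H] {A : Input → H} {V : H × List Bool → Bool}
    (hA : NPC.Poly A) (hV : NPC.Poly V) (e : ℕ)
    {dl : List (List Bool × Bool) → List (List Bool)} (hdl : NPC.Poly dl) :
    NPC.Poly (estim A V e dl) := by
  have hmm : NPC.Poly fun I : Input => mm I.1.1 I.1.2.2.1 I.1.2.2.2 := by
    fun_prop
  have ht : NPC.Poly fun I : Input => (I.1.1 + I.1.2.1 + 8 * I.1.2.2.1 * (I.1.1 + 1) +
      2 * I.1.2.2.2) ^ e := pow_poly e (by fun_prop)
  have h1 := Pool.Agent.H424R2.SG.PolyA.poly_take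
    (by fun_prop : NPC.Poly fun I : Input => I.2.1) ht
  have h2 := Pool.Agent.H424R2.SG.PolyA.poly_take
    (by fun_prop : NPC.Poly fun I : Input => I.2.2) ht
  have h3 := Pool.Agent.H424R2.SG.PolyA.poly_take (Pool.Agent.H424R2.SG.PolyA.poly_drop
    (by fun_prop : NPC.Poly fun I : Input => I.2.1) ht) hmm
  have h4 : NPC.Poly fun I : Input => A ((I.1.1, I.1.2.1, 8 * I.1.2.2.1 * (I.1.1 + 1),
      2 * I.1.2.2.2), I.2.1.take ((I.1.1 + I.1.2.1 + 8 * I.1.2.2.1 * (I.1.1 + 1) +
      2 * I.1.2.2.2) ^ e), I.2.2.take ((I.1.1 + I.1.2.1 + 8 * I.1.2.2.1 * (I.1.1 + 1) +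
      2 * I.1.2.2.2) ^ e)) := hA.comp (by fun_prop)
  have h5 : NPC.Poly fun p : Input × H => cntL (fun x => V (p.2, x)) (dl p.1.2.1)
      (((p.1.2.1.drop ((p.1.1.1 + p.1.1.2.1 + 8 * p.1.1.2.2.1 * (p.1.1.1 + 1) +
      2 * p.1.1.2.2.2) ^ e)).take (mm p.1.1.1 p.1.1.2.2.1 p.1.1.2.2.2)).map fun p => p.1) := by
    unfold cntL
    have h6 := h3.comp (NPC.Poly.fst NPC.Poly.id : NPC.Poly fun p : Input × H => p.1)
    have h7 : NPC.Poly fun p : Input × H => dl p.1.2.1 :=
      hdl.comp (by fun_prop)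
    fun_prop
  have h6 := h5.comp (NPC.Poly.pair NPC.Poly.id h4)
  have hg : NPC.Poly fun I : Input => I.1.2.2.1 := by fun_prop
  exact NPC.Poly.div (NPC.Poly.add (NPC.Poly.mul (NPC.Poly.mul (NPC.Poly.const 2) hg) h6) hmm)
    (NPC.Poly.mul (NPC.Poly.const 2) hmm)

theorem est_prob {H : Type} {A : Input → H} {V : H × List Bool → Bool} {e : ℕ}
    (hA : ∀ (n s a b : ℕ) (F : List (List (ℕ × Bool))), 1 ≤ a → 1 ≤ b → IsDnf n s F →
      1 - 1 / (b : ℝ) ≤ Prob fun ω : Sample n ((n + s + a + b) ^ e) =>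
        Prob (fun x : Fin n → Bool =>
          V (A (input n s a b F ω), List.ofFn x) ≠ fn n F x) ≤ 1 / (a : ℝ))
    {dl : List (List Bool × Bool) → List (List Bool)} {s g b : ℕ} {F : List (List (ℕ × Bool))}
    {DL : List (List Bool)} (hDL : ∀ d ∈ DL, d.length = n) (hDL2 : DL.length ≤ n + 1)
    (hg : 1 ≤ g) (hb : 1 ≤ b) (hF : IsDnf n s F) {NN t a' M : ℕ}
    (ha' : a' = 8 * g * (n + 1)) (ht : t = (n + s + a' + 2 * b) ^ e) (hM : M = mm n g b)
    (hNN : t + M ≤ NN)
    (hdl : ∀ w : Fin NN → Cu n, dl (examples F w) = DL) :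
    1 - 1 / (b : ℝ) ≤ Prob fun ω : Sample n NN =>
      |(estim A V e dl (input n s g b F ω) : ℝ) / g - psi DL (fn n F)| ≤ 1 / (g : ℝ) := by
  have hg0 : (0 : ℝ) < g := by exact_mod_cast hg
  have hb0 : (0 : ℝ) < b := by exact_mod_cast hb
  have ha1 : 1 ≤ a' := by
    rw [ha']
    have h1 : 1 ≤ g * (n + 1) := Nat.one_le_iff_ne_zero.2 (by positivity)
    nlinarith
  have hM1 : 1 ≤ M := by
    rw [hM]
    unfold mm
    have : 0 < 2048 * (g * g) * ((n + 1) * (n + 1)) * b := by positivity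
    omega
  -- the two events
  have p1 := hA n s a' (2 * b) F ha1 (by omega) hF
  rw [← ht] at p1
  have p1' := prob_not_le_of p1
  have e1 := MP.blocks (C := Cu n) (blk (NN := NN) 0 t (by omega)) (blk t M (by omega))
    (blk_inj _ _ _) (blk_inj _ _ _) (by
      intro a a' haa
      have h4 := congrArg Fin.val haa
      simp only [blk] at h4
      have := a.2
      omega)
  have e2 : MP fun w : Fin NN → Bool => fun j => w (blk 0 t (by omega) j) :=
    MP.restrict _ (blk_inj _ _ _)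
  let rot : ((Fin t → Cu n) × (Fin M → Cu n)) × (Fin t → Bool) ≃
      ((Fin t → Cu n) × (Fin t → Bool)) × (Fin M → Cu n) :=
    ⟨fun p => ((p.1.1, p.2), p.1.2), fun p => ((p.1.1, p.2), p.1.2), fun _ => rfl, fun _ => rfl⟩
  have e3 := (e1.prod e2).comp (MP.equiv rot)
  have e4 := e3.comp (MP.fst (Ω := (Fin t → Cu n) × (Fin t → Bool)) (Ω' := Fin M → Cu n))
  have q1 := e4.prob (fun ω : Sample n t => ¬ Prob (fun x : Fin n → Bool =>
    V (A (input n s a' (2 * b) F ω), List.ofFn x) ≠ fn n F x) ≤ 1 / (a' : ℝ))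
  rw [← q1] at p1'
  have q2 := e3.prob (fun p : ((Fin t → Cu n) × (Fin t → Bool)) × (Fin M → Cu n) =>
    M * (1 / (4 * (g : ℝ))) < |∑ j, phi DL (fun x => V (A (input n s a' (2 * b) F p.1),
      List.ofFn x)) (p.2 j) - M * Ex (phi DL (fun x : Cu n => V (A (input n s a' (2 * b) F p.1),
      List.ofFn x)))|)
  have p2 : Prob (fun p : ((Fin t → Cu n) × (Fin t → Bool)) × (Fin M → Cu n) =>
    M * (1 / (4 * (g : ℝ))) < |∑ j, phi DL (fun x => V (A (input n s a' (2 * b) F p.1),
      List.ofFn x)) (p.2 j) - M * Ex (phi DL (fun x : Cu n => V (A (input n s a' (2 * b) F p.1),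
      List.ofFn x)))|) ≤ 1 / (8 * (b : ℝ)) := by
    refine prob_prod_le (P := fun (u : (Fin t → Cu n) × (Fin t → Bool)) (X : Fin M → Cu n) =>
      M * (1 / (4 * (g : ℝ))) < |∑ j, phi DL (fun x => V (A (input n s a' (2 * b) F u),
      List.ofFn x)) (X j) - M * Ex (phi DL (fun x : Cu n => V (A (input n s a' (2 * b) F u),
      List.ofFn x)))|) fun u => ?_
    have h1 := unif_dev (ι := Unit) (Ω := Cu n) M 0 b
      (fun _ => phi DL (fun x => V (A (input n s a' (2 * b) F u), List.ofFn x)))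
      ((n : ℝ) + 1) (1 / (4 * (g : ℝ))) (by positivity) (fun _ x => by
        refine (abs_phi_le _ _ _).trans ?_
        exact_mod_cast hDL2) (by positivity) hb (by simp) (by
        rw [hM]
        unfold mm
        push_cast
        rw [div_pow, one_pow, mul_one_div, le_div_iff₀ (by positivity)]
        have : (0 : ℝ) ≤ (n + 1) ^ 2 * g ^ 2 * b := by positivity
        nlinarith)
    refine (prob_mono fun X hX => ?_).trans h1
    exact ⟨(), hX⟩
  rw [← q2] at p2
  refine le_prob_of ?_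
  have h6 := prob_or_le (fun ω : Sample n NN => ¬ Prob (fun x : Fin n → Bool =>
    V (A (input n s a' (2 * b) F ((fun j => ω.1 (blk 0 t (by omega) j)),
      fun j => ω.2 (blk 0 t (by omega) j))), List.ofFn x) ≠ fn n F x) ≤ 1 / (a' : ℝ))
    (fun ω : Sample n NN => M * (1 / (4 * (g : ℝ))) <
      |∑ j, phi DL (fun x => V (A (input n s a' (2 * b) F ((fun j => ω.1 (blk 0 t (by omega) j)),
      fun j => ω.2 (blk 0 t (by omega) j))),
      List.ofFn x)) (ω.1 (blk t M (by omega) j)) - M * Ex (phi DL (fun x : Cu n => V (A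
      (input n s a' (2 * b) F ((fun j => ω.1 (blk 0 t (by omega) j)),
      fun j => ω.2 (blk 0 t (by omega) j))), List.ofFn x)))|)
  have h7 : 1 / ((2 * b : ℕ) : ℝ) + 1 / (8 * (b : ℝ)) ≤ 1 / (b : ℝ) := by
    push_cast
    have h8 : 1 / (2 * (b : ℝ)) = 1 / 2 * (1 / b) := by rw [one_div_mul_one_div]
    have h9 : 1 / (8 * (b : ℝ)) = 1 / 8 * (1 / b) := by rw [one_div_mul_one_div]
    have h10 : (0 : ℝ) < 1 / b := by positivity
    rw [h8, h9]
    linarith
  refine le_trans (prob_mono fun ω hω => ?_) (h6.trans ((add_le_add p1' p2).trans h7))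
  by_contra hcon
  rw [not_or, not_not, not_lt] at hcon
  refine hω ?_
  obtain ⟨c1, c2⟩ := hcon
  -- unfold the estimator
  set X1 : Fin t → Cu n := fun j => ω.1 (blk 0 t (by omega) j) with hX1
  set X2 : Fin M → Cu n := fun j => ω.1 (blk t M (by omega) j) with hX2
  set Z : Fin t → Bool := fun j => ω.2 (blk 0 t (by omega) j) with hZ
  set hh : List Bool → Bool := fun x => V (A (input n s a' (2 * b) F (X1, Z)), x) with hhh
  have h1 : (examples F ω.1).take t = examples F X1 := by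
    have h := ofFn_drop_take (fun j => (List.ofFn (ω.1 j), dnfVal F (List.ofFn (ω.1 j)))) 0 t
      (by omega)
    rw [List.drop_zero] at h
    exact h
  have h2 : (List.ofFn ω.2).take t = List.ofFn Z := by
    have h := ofFn_drop_take ω.2 0 t (by omega)
    rw [List.drop_zero] at h
    exact h
  have h3 : (((examples F ω.1).drop t).take M).map (fun p => p.1) =
      List.ofFn fun j => List.ofFn (X2 j) := by
    have h := ofFn_drop_take (fun j => (List.ofFn (ω.1 j), dnfVal F (List.ofFn (ω.1 j)))) t M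
      (by omega)
    unfold examples
    rw [h, List.map_ofFn]
    rfl
  have h4 : estim A V e dl (input n s g b F ω) =
      (2 * g * cntL hh DL (List.ofFn fun j => List.ofFn (X2 j)) + M) / (2 * M) := by
    unfold estim
    simp only [input, ← ha', ← ht, ← hM, h1, h2, h3, hdl]
    rfl
  rw [h4]
  have h5 := cntL_eq hh DL hDL X2
  refine acc_est (n := n) (x := psi DL fun x : Cu n => hh (List.ofFn x))
    (r := Prob (fun x : Cu n => hh (List.ofFn x) ≠ fn n F x)) hg hM1 ?_ ?_ ?_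
  · rw [h5, ← Ex_phi]
    exact c2
  · refine (psi_close (fn n F) (fun x => hh (List.ofFn x)) DL).trans ?_
    refine mul_le_mul_of_nonneg_right ?_ ?_
    · exact_mod_cast hDL2
    · have := prob_nonneg (fun x : Cu n => hh (List.ofFn x) ≠ fn n F x)
      linarith
  · rw [← ha']
    exact c1

end Pool.Agent.L0h78.DE
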