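import Pool.Agent.L0h78.DE.Pr
import Pool.Agent.TH689.LXHoeff

/-!
# Uniform deviations (Hoeffding)
-/

namespace Pool.Agent.L0h78.DE

open Finset

variable {Ω : Type} [Fintype Ω] [DecidableEq Ω] [Nonempty Ω]

theorem dev_le (M : ℕ) (φ : Ω → ℝ) (B τ : ℝ) (hB : 0 < B) (hφ : ∀ x, |φ x| ≤ B) (hτ : 0 ≤ τ) :
    Prob (fun X : Fin M → Ω => M * τ < |∑ j, φ (X j) - M * Ex φ|) ≤
      2 * Real.exp (-(M * τ ^ 2 / (8 * B ^ 2))) := by
  have hM0 : (0 : ℝ) ≤ M := Nat.cast_nonneg M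
  have hc0 : (Fintype.card Ω : ℝ) ≠ 0 := by exact_mod_cast Fintype.card_ne_zero
  have hE : |Ex φ| ≤ B := abs_Ex_le_of hφ
  have h1 := Pool.Agent.TH689.LX.hoeff_tail (V := Fin M) (C := Ω) (fun _ x => φ x - Ex φ)
    (fun _ => 2 * B) (2 * B * Real.sqrt M) (Real.sqrt M * τ / (2 * B)) (by positivity)
    (fun _ => by positivity) (fun t x => by
      calc |φ x - Ex φ| ≤ |φ x| + |Ex φ| := abs_sub _ _
        _ ≤ 2 * B := by have := hφ x; linarith) (fun t => by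
      rw [sum_sub_distrib, sum_const, card_univ, nsmul_eq_mul]
      unfold Ex
      field_simp
      simp) (by positivity) (by
      rw [sum_const, card_univ, Fintype.card_fin, nsmul_eq_mul, mul_pow (2 * B),
        Real.sq_sqrt hM0]
      linarith)
  have h2 : Real.sqrt M * τ / (2 * B) * (2 * B * Real.sqrt M) = M * τ := by
    have := Real.mul_self_sqrt hM0
    field_simp
    rw [Real.sq_sqrt hM0]
    ring
  have h3 : (Real.sqrt M * τ / (2 * B)) ^ 2 / 2 = M * τ ^ 2 / (8 * B ^ 2) := by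
    rw [div_pow, mul_pow, Real.sq_sqrt hM0, mul_pow]
    field_simp
    norm_num
  rw [h2, h3] at h1
  have h4 : ∀ X : Fin M → Ω, ∑ t, (φ (X t) - Ex φ) = ∑ j, φ (X j) - M * Ex φ := by
    intro X
    rw [sum_sub_distrib, sum_const, card_univ, Fintype.card_fin, nsmul_eq_mul]
  simp only [h4] at h1
  have h5 : (0 : ℝ) < Fintype.card (Fin M → Ω) := by exact_mod_cast Fintype.card_pos
  have h6 : Prob (fun X : Fin M → Ω => M * τ < |∑ j, φ (X j) - M * Ex φ|) =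
      ((univ.filter fun X : Fin M → Ω => M * τ < |∑ j, φ (X j) - M * Ex φ|).card : ℝ) /
        (Fintype.card (Fin M → Ω) : ℝ) := by
    unfold Prob
    congr!
  rw [h6, div_le_iff₀ h5]
  exact h1

theorem unif_dev {ι : Type} [Fintype ι] (M K b : ℕ) (φ : ι → Ω → ℝ) (B τ : ℝ) (hB : 0 < B)
    (hφ : ∀ i x, |φ i x| ≤ B) (hτ : 0 ≤ τ) (hb : 1 ≤ b) (hcard : Fintype.card ι ≤ 2 ^ K)
    (hM : 8 * B ^ 2 * ((K : ℝ) + 16 * b) ≤ M * τ ^ 2) :
    Prob (fun X : Fin M → Ω => ∃ i, M * τ < |∑ j, φ i (X j) - M * Ex (φ i)|) ≤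
      1 / (8 * (b : ℝ)) := by
  have hb0 : (1 : ℝ) ≤ b := by exact_mod_cast hb
  have h1 := prob_exists_le_of (fun i (X : Fin M → Ω) => M * τ < |∑ j, φ i (X j) - M * Ex (φ i)|)
    (2 * Real.exp (-((K : ℝ) + 16 * b))) (fun i => by
      refine (dev_le M (φ i) B τ hB (hφ i) hτ).trans ?_
      refine mul_le_mul_of_nonneg_left (Real.exp_le_exp.2 (neg_le_neg ?_)) (by norm_num)
      rw [le_div_iff₀ (by positivity)]
      linarith)
  refine h1.trans ?_
  have h2 : (Fintype.card ι : ℝ) ≤ 2 ^ K := by exact_mod_cast hcard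
  have h3 : Real.exp (-((K : ℝ) + 16 * b)) = Real.exp (-1) ^ K * Real.exp (-(16 * (b : ℝ))) := by
    rw [← Real.exp_nat_mul, ← Real.exp_add]
    congr 1
    ring
  have h4 : (2 : ℝ) * Real.exp (-1) ≤ 1 := by
    rw [Real.exp_neg, ← div_eq_mul_inv]
    refine (div_le_one (Real.exp_pos _)).2 ?_
    have := Real.exp_one_gt_d9
    linarith
  have h5 : (2 : ℝ) ^ K * Real.exp (-1) ^ K ≤ 1 := by
    rw [← mul_pow]
    exact pow_le_one₀ (by positivity) h4
  have h6 : 2 * Real.exp (-(16 * (b : ℝ))) ≤ 1 / (8 * b) := by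
    rw [Real.exp_neg, ← div_eq_mul_inv, div_le_div_iff₀ (Real.exp_pos _) (by linarith)]
    have := Real.add_one_le_exp (16 * (b : ℝ))
    linarith
  have h7 := Real.exp_pos (-(16 * (b : ℝ)))
  calc (Fintype.card ι : ℝ) * (2 * Real.exp (-((K : ℝ) + 16 * b)))
      ≤ 2 ^ K * (2 * Real.exp (-((K : ℝ) + 16 * b))) :=
        mul_le_mul_of_nonneg_right h2 (by positivity)
    _ = (2 ^ K * Real.exp (-1) ^ K) * (2 * Real.exp (-(16 * (b : ℝ)))) := by rw [h3]; ring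
    _ ≤ 1 * (2 * Real.exp (-(16 * (b : ℝ)))) := mul_le_mul_of_nonneg_right h5 (by positivity)
    _ ≤ _ := by rw [one_mul]; exact h6

end Pool.Agent.L0h78.DE
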