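import Pool.Agent.L0h78.DE.Corr2
import Pool.Agent.L0h78.DE.Hoef

/-!
# Samples are good with high probability
-/

namespace Pool.Agent.L0h78.DE

open Finset

/-- A block of consecutive indices. -/
def blk {NN : ℕ} (off len : ℕ) (h : off + len ≤ NN) : Fin len → Fin NN :=
  fun j => ⟨off + j, by omega⟩

theorem blk_inj {NN : ℕ} (off len : ℕ) (h : off + len ≤ NN) : Function.Injective (blk off len h) := by
  intro i j hij
  have := congrArg Fin.val hij
  simp only [blk] at this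
  exact Fin.ext (by omega)

theorem ofFn_drop_take {C : Type} {NN : ℕ} (w : Fin NN → C) (off len : ℕ) (h : off + len ≤ NN) :
    ((List.ofFn w).drop off).take len = List.ofFn fun j => w (blk off len h j) := by
  refine List.ext_getElem (by simp; omega) fun i h1 h2 => ?_
  simp [blk]

variable {n : ℕ}

section

variable {M N NN ME : ℕ}

/-- The indices of the random vectors. -/
def uIdx (hU : N * n ≤ NN) (i : Fin N) (k : Fin n) : Fin NN :=
  ⟨i * n + k, by
    have h1 : ((i : ℕ) + 1) * n ≤ N * n := Nat.mul_le_mul_right n i.2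
    have h2 := k.2
    have h3 : ((i : ℕ) + 1) * n = i * n + n := by ring
    omega⟩

theorem uIdx_inj (hU : N * n ≤ NN) :
    Function.Injective fun p : Fin N × Fin n => uIdx hU p.1 p.2 := by
  rintro ⟨i, k⟩ ⟨j, l⟩ h
  have h1 := congrArg Fin.val h
  simp only [uIdx] at h1
  have hn : 0 < n := lt_of_le_of_lt (Nat.zero_le _) k.2
  have h2 : (i : ℕ) = j := by
    have e1 : ((i : ℕ) * n + k) / n = i := by
      rw [Nat.add_comm, Nat.add_mul_div_right _ _ hn, Nat.div_eq_of_lt k.2, Nat.zero_add]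
    have e2 : ((j : ℕ) * n + l) / n = j := by
      rw [Nat.add_comm, Nat.add_mul_div_right _ _ hn, Nat.div_eq_of_lt l.2, Nat.zero_add]
    rw [← e1, ← e2, h1]
  rw [h2] at h1
  have h3 : (k : ℕ) = l := by omega
  exact Prod.ext (Fin.ext h2) (Fin.ext h3)

/-- The random vectors. -/
def uFn (hU : N * n ≤ NN) (w : Fin NN → Bool) : Fin N → Cu n := fun i k => w (uIdx hU i k)

theorem mp_uFn (hU : N * n ≤ NN) : MP fun w : Fin NN → Bool => uFn hU w := by
  have h1 := MP.restrict (C := Bool) (fun p : Fin N × Fin n => uIdx hU p.1 p.2) (uIdx_inj hU)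
  exact h1.comp (MP.curry (A := Fin N) (B := Fin n) (C := Bool))

theorem blk_bound {i k : ℕ} (hi : i < N) (hk : k < n) (ME : ℕ) :
    (i * n + k) * ME + ME ≤ N * n * ME := by
  have h1 : (i + 1) * n ≤ N * n := Nat.mul_le_mul_right n hi
  have h2 : i * n + k + 1 ≤ N * n := by nlinarith
  calc (i * n + k) * ME + ME = (i * n + k + 1) * ME := by ring
    _ ≤ N * n * ME := Nat.mul_le_mul_right _ h2

end

/-- Swapping. -/
def swapE (A B C : Type) : A × (B × C) ≃ B × (A × C) where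
  toFun p := (p.2.1, (p.1, p.2.2))
  invFun p := (p.2.1, (p.1, p.2.2))
  left_inv _ := rfl
  right_inv _ := rfl

/-- The projection used for the estimates. -/
theorem mp_est {NN len ME o1 o2 o3 : ℕ} (h1 : o1 + ME ≤ NN) (h2 : o2 + len ≤ NN)
    (h3 : o3 + ME ≤ NN) (h : o2 + len ≤ o3) :
    MP fun ω : Sample n NN => (((fun k => ω.2 (blk o2 len h2 k)),
      ((fun j => ω.1 (blk o1 ME h1 j)), (fun j => ω.2 (blk o3 ME h3 j)))) :
        (Fin len → Bool) × Sample n ME) := by
  have e1 : MP fun w : Fin NN → Cu n => fun j => w (blk o1 ME h1 j) :=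
    MP.restrict _ (blk_inj _ _ _)
  have e2 := MP.blocks (C := Bool) (blk o2 len h2) (blk o3 ME h3) (blk_inj _ _ _)
    (blk_inj _ _ _) (by
      intro a a' haa
      have h4 := congrArg Fin.val haa
      simp only [blk] at h4
      have := a.2
      omega)
  exact (e1.prod e2).comp (MP.equiv (swapE (Fin ME → Cu n) (Fin len → Bool) (Fin ME → Bool)))

theorem card_cl (n T : ℕ) : Fintype.card (Cl n T) ≤ 2 ^ ((n + 2) * T) := by
  have h1 : Fintype.card (Cl n T) = (2 * 2 ^ n + 1) ^ T := by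
    rw [Fintype.card_fun, Fintype.card_option, Fintype.card_prod, Fintype.card_bool,
      Fintype.card_fun, Fintype.card_bool, Fintype.card_fin, Fintype.card_fin]
  rw [h1, pow_mul]
  refine Nat.pow_le_pow_left ?_ T
  have h2 : 1 ≤ 2 ^ n := Nat.one_le_two_pow
  have h3 : 2 ^ (n + 2) = 4 * 2 ^ n := by ring
  omega

theorem card_idx (n T : ℕ) : Fintype.card (Cl n T × Cu n) ≤ 2 ^ ((n + 2) * T + 2 * n) := by
  rw [Fintype.card_prod, pow_add]
  have h1 : Fintype.card (Cu n) = 2 ^ n := by simp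
  rw [h1]
  exact Nat.mul_le_mul (card_cl n T) (Nat.pow_le_pow_right (by norm_num) (by omega))

theorem card_idx2 (n T : ℕ) :
    Fintype.card (Cl n T × Fin n × Cu n) ≤ 2 ^ ((n + 2) * T + 2 * n) := by
  rw [Fintype.card_prod, Fintype.card_prod, pow_add]
  have h1 : Fintype.card (Cu n) = 2 ^ n := by simp
  rw [h1, Fintype.card_fin]
  refine Nat.mul_le_mul (card_cl n T) ?_
  have h2 : n ≤ 2 ^ n := Nat.lt_two_pow_self.le
  calc n * 2 ^ n ≤ 2 ^ n * 2 ^ n := Nat.mul_le_mul_right _ h2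
    _ = 2 ^ (2 * n) := by rw [two_mul, pow_add]

theorem abs_ac_le {r : Cu n → ℝ} (hr : ∀ x, |r x| ≤ 2) (a : Cu n) : |ac r a| ≤ 4 := by
  refine abs_Ex_le_of fun x => ?_
  rw [abs_mul]
  have h1 := hr x
  have h2 := hr (sh x a)
  have h3 := abs_nonneg (r x)
  have h4 := abs_nonneg (r (sh x a))
  nlinarith

/-- The four uniform laws. -/
theorem unif_laws (f : Cu n → Bool) (D T M b : ℕ) (τ : ℝ) (hτ : 0 ≤ τ) (hb : 1 ≤ b)
    (hM : 128 * ((((n + 2) * T + 2 * n : ℕ) : ℝ) + 16 * b) ≤ M * τ ^ 2) :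
    Prob (fun U : Fin M → Cu n => ¬ ∀ (c : Cl n T), ∀ k < n, ∀ S : Cu n,
      |∑ i, ac (rC f D c) (cut (k + 1) (U i)) * chi S (U i) -
        M * en (rC f D c) (k + 1) S| ≤ M * τ) ≤ 1 / (8 * (b : ℝ)) ∧
    Prob (fun X : Fin M → Cu n => ¬ ∀ (c : Cl n T) (a : Cu n),
      |∑ j, sR (f (X j)) * pC D c (sh (X j) a) -
        M * Ex fun x => sR (f x) * pC D c (sh x a)| ≤ M * τ) ≤ 1 / (8 * (b : ℝ)) ∧
    Prob (fun X : Fin M → Cu n => ¬ ∀ (c : Cl n T) (a : Cu n),
      |∑ j, pC D c (X j) * pC D c (sh (X j) a) -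
        M * Ex fun x => pC D c x * pC D c (sh x a)| ≤ M * τ) ≤ 1 / (8 * (b : ℝ)) ∧
    Prob (fun X : Fin M → Cu n => ¬ ∀ (c : Cl n T) (S : Cu n),
      |∑ j, rC f D c (X j) * chi S (X j) - M * fc (rC f D c) S| ≤ M * τ) ≤
        1 / (8 * (b : ℝ)) := by
  have hM' : 8 * (4 : ℝ) ^ 2 * ((((n + 2) * T + 2 * n : ℕ) : ℝ) + 16 * b) ≤ M * τ ^ 2 := by
    norm_num at hM ⊢
    linarith
  refine ⟨?_, ?_, ?_, ?_⟩
  · have h := unif_dev M ((n + 2) * T + 2 * n) b
      (fun (p : Cl n T × Fin n × Cu n) (u : Cu n) =>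
        ac (rC f D p.1) (cut ((p.2.1 : ℕ) + 1) u) * chi p.2.2 u) 4 τ (by norm_num) (by
        intro p u
        rw [abs_mul, abs_chi, mul_one]
        exact abs_ac_le (abs_rC f D p.1) _) hτ hb (card_idx2 n T) hM'
    refine (prob_mono fun U hU => ?_).trans h
    push Not at hU
    obtain ⟨c, k, hk, S, h1⟩ := hU
    refine ⟨(c, ⟨k, hk⟩, S), ?_⟩
    rw [← en_eq] at h1
    exact h1
  · have h := unif_dev M ((n + 2) * T + 2 * n) b
      (fun (p : Cl n T × Cu n) (x : Cu n) => sR (f x) * pC D p.1 (sh x p.2)) 4 τ (by norm_num) (by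
        intro p u
        rw [abs_mul, abs_sR, one_mul]
        exact (abs_pC D p.1 _).trans (by norm_num)) hτ hb (card_idx n T) hM'
    refine (prob_mono fun U hU => ?_).trans h
    push Not at hU
    obtain ⟨c, a, h1⟩ := hU
    exact ⟨(c, a), h1⟩
  · have h := unif_dev M ((n + 2) * T + 2 * n) b
      (fun (p : Cl n T × Cu n) (x : Cu n) => pC D p.1 x * pC D p.1 (sh x p.2)) 4 τ
        (by norm_num) (by
        intro p u
        rw [abs_mul]
        have h1 := abs_pC D p.1 u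
        have h2 := abs_pC D p.1 (sh u p.2)
        have h3 := abs_nonneg (pC D p.1 u)
        have h4 := abs_nonneg (pC D p.1 (sh u p.2))
        nlinarith) hτ hb (card_idx n T) hM'
    refine (prob_mono fun U hU => ?_).trans h
    push Not at hU
    obtain ⟨c, a, h1⟩ := hU
    exact ⟨(c, a), h1⟩
  · have h := unif_dev M ((n + 2) * T + 2 * n) b
      (fun (p : Cl n T × Cu n) (x : Cu n) => rC f D p.1 x * chi p.2 x) 4 τ
        (by norm_num) (by
        intro p u
        rw [abs_mul, abs_chi, mul_one]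
        exact (abs_rC f D p.1 u).trans (by norm_num)) hτ hb (card_idx n T) hM'
    refine (prob_mono fun U hU => ?_).trans h
    push Not at hU
    obtain ⟨c, a, h1⟩ := hU
    exact ⟨(c, a), h1⟩

end Pool.Agent.L0h78.DE
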