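import Pool.Agent.L0h78.DE.Fwd

/-!
# The equivalence
-/

namespace Pool.Agent.L0h78.DE

open Finset
open Pool.Agent.NPC Pool.Agent.H424R2.PPAD
open Pool.Agent.Helper91K9.DL (dnfVal termVal examples nvars nvars_upoly)

variable {n : ℕ}

/-- The unit vector. -/
def unitL (n i : ℕ) : List Bool := (List.range n).map fun j => decide (j = i)

theorem pad_unitL {i : ℕ} (hi : i < n) : (pad (unitL n i) : Cu n) = ev ⟨i, hi⟩ := by
  funext j
  simp only [pad, unitL, ev]
  rw [List.getD_eq_getElem _ _ (by simp), List.getElem_map, List.getElem_range]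
  by_cases h : (j : ℕ) = i
  · have h2 : j = ⟨i, hi⟩ := Fin.ext h
    simp [h2]
  · have h2 : ¬ j = ⟨i, hi⟩ := fun h2 => h (congrArg Fin.val h2)
    simp [h, h2]

/-- The unit vectors. -/
def unitsL (k n : ℕ) : List (List Bool) := (List.range k).map fun i => unitL n i

theorem unitsL_length {k n : ℕ} : ∀ d ∈ unitsL k n, d.length = n := by
  intro d hd
  obtain ⟨i, -, rfl⟩ := List.mem_map.1 hd
  simp [unitL]

theorem psi_unitsL (f : Cu n → Bool) : ∀ k ≤ n,
    psi (unitsL k n) f = ∑ i ∈ range k, if h : i < n then influence f ⟨i, h⟩ else 0 := by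
  intro k
  induction k with
  | zero => intro _; simp [psi, unitsL]
  | succ k ih =>
    intro hk
    have h1 := ih (by omega)
    unfold psi unitsL at h1 ⊢
    rw [List.range_succ, List.map_append, List.map_append, List.sum_append, h1, sum_range_succ]
    congr 1
    rw [dif_pos (by omega : k < n), influence_eq]
    simp [pad_unitL (by omega : k < n)]

theorem psi_as (f : Cu n → Bool) : psi (unitsL n n) f = averageSensitivity n f := by
  rw [psi_unitsL f n le_rfl]
  unfold averageSensitivity
  rw [← Fin.sum_univ_eq_sum_range (fun i => if h : i < n then influence f ⟨i, h⟩ else 0) n]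
  refine sum_congr rfl fun i _ => ?_
  rw [dif_pos i.2]

theorem psi_first (f : Cu n → Bool) : psi (unitsL (min 1 n) n) f = firstInfluence n f := by
  rw [psi_unitsL f _ (min_le_right _ _)]
  unfold firstInfluence
  by_cases h : 0 < n
  · rw [min_eq_left (by omega), sum_range_one]
  · have h2 : n = 0 := by omega
    subst h2
    simp

theorem psi_anti (f : Cu n → Bool) :
    psi [(List.range n).map fun _ => true] f = antipodal n f := by
  unfold psi antipodal
  rw [List.map_cons, List.map_nil, List.sum_cons, List.sum_nil, add_zero, shiftProb_eq]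
  refine prob_congr fun x => ?_
  have h1 : sh x (pad ((List.range n).map fun _ => true)) = fun i => !x i := by
    funext j
    simp only [sh, pad]
    rw [List.getD_eq_getElem _ _ (by simp)]
    simp
  rw [h1]

theorem units_poly {k : List (List Bool × Bool) → ℕ} (hk : UPoly k) :
    NPC.Poly fun ex : List (List Bool × Bool) => unitsL (k ex) (nvars ex) := by
  have h1 : NPC.Poly fun ex : List (List Bool × Bool) => List.range (k ex) := hk.range
  have h2 : NPC.Poly fun p : List (List Bool × Bool) × ℕ => List.range (nvars p.1) :=
    (nvars_upoly.comp (NPC.Poly.fst NPC.Poly.id)).range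
  unfold unitsL unitL
  refine NPC.Poly.map (F := fun ex i => (List.range (nvars ex)).map fun j => decide (j = i)) h1 ?_
  exact NPC.Poly.map (F := fun (p : List (List Bool × Bool) × ℕ) j => decide (j = p.2)) h2
    (by fun_prop)

/-- Learning suffices for the estimation of sums of probabilities of change. -/
theorem est_of_learn (h : Learnable) (Ψ : (n : ℕ) → ((Fin n → Bool) → Bool) → ℝ)
    (dl : List (List Bool × Bool) → List (List Bool)) (DL : ℕ → List (List Bool))
    (hdl : NPC.Poly dl) (h1 : ∀ n, ∀ d ∈ DL n, d.length = n) (h2 : ∀ n, (DL n).length ≤ n + 1)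
    (h3 : ∀ ex, dl ex = DL (nvars ex)) (h4 : ∀ n f, psi (DL n) f = Ψ n f) : Estimable Ψ := by
  obtain ⟨H, hH, A, V, hA, hV, e, hspec⟩ := h
  refine ⟨estim A V e dl, PTime.of_poly (estim_poly hA.toPoly hV.toPoly e hdl), 6 * e + 17, ?_⟩
  intro n s g b F hg hb hF
  have hsz := size_fwd (n := n) (s := s) hg hb e
  have hmm : 1 ≤ mm n g b := by
    unfold mm
    have : 0 < 2048 * (g * g) * ((n + 1) * (n + 1)) * b := by positivity
    omega
  have h5 := est_prob hspec (dl := dl) (DL := DL n) (h1 n) (h2 n) hg hb hF rfl rfl rfl hsz
    (fun w => by rw [h3, nvars_examples F w (by omega)])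
  rw [h4] at h5
  exact h5

theorem main : List.TFAE [Learnable, EstimableShift, Estimable firstInfluence,
    Estimable averageSensitivity, Estimable antipodal] := by
  tfae_have 2 → 1 := learn_of_shift
  tfae_have 3 → 2 := shift_of_first
  tfae_have 4 → 2 := shift_of_as
  tfae_have 5 → 2 := shift_of_anti
  tfae_have 1 → 3 := fun h => est_of_learn h firstInfluence
    (fun ex => unitsL (min 1 (nvars ex)) (nvars ex)) (fun n => unitsL (min 1 n) n)
    (units_poly (UPoly.of_le (NPC.Poly.min (NPC.Poly.const 1) nvars_upoly.toPoly) nvars_upoly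
      fun a => min_le_right _ _)) (fun n => unitsL_length) (fun n => by
        simp only [unitsL, List.length_map, List.length_range]
        omega) (fun ex => rfl) (fun n f => psi_first f)
  tfae_have 1 → 4 := fun h => est_of_learn h averageSensitivity
    (fun ex => unitsL (nvars ex) (nvars ex)) (fun n => unitsL n n)
    (units_poly nvars_upoly) (fun n => unitsL_length) (fun n => by
        simp only [unitsL, List.length_map, List.length_range]
        omega) (fun ex => rfl) (fun n f => psi_as f)
  tfae_have 1 → 5 := fun h => est_of_learn h antipodal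
    (fun ex => [(List.range (nvars ex)).map fun _ => true])
    (fun n => [(List.range n).map fun _ => true])
    (by
      have h1 : NPC.Poly fun ex : List (List Bool × Bool) => List.range (nvars ex) :=
        nvars_upoly.range
      fun_prop) (fun n => by simp) (fun n => by simp) (fun ex => rfl) (fun n f => psi_anti f)
  tfae_finish

end Pool.Agent.L0h78.DE
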