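import Pool.Agent.L0h78.DE.Defs

/-!
# Elementary probability on finite sets
-/

namespace Pool.Agent.L0h78.DE

open Finset

variable {Ω Ω' Ω'' : Type} [Fintype Ω] [Fintype Ω'] [Fintype Ω'']

/-- The mean. -/
noncomputable def Ex (φ : Ω → ℝ) : ℝ := (∑ w, φ w) / Fintype.card Ω

theorem Ex_congr {φ ψ : Ω → ℝ} (h : ∀ w, φ w = ψ w) : Ex φ = Ex ψ := by
  unfold Ex
  rw [Finset.sum_congr rfl fun w _ => h w]

theorem Ex_nonneg {φ : Ω → ℝ} (h : ∀ w, 0 ≤ φ w) : 0 ≤ Ex φ :=
  div_nonneg (sum_nonneg fun w _ => h w) (Nat.cast_nonneg _)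

theorem Ex_add (φ ψ : Ω → ℝ) : Ex (fun w => φ w + ψ w) = Ex φ + Ex ψ := by
  unfold Ex
  rw [sum_add_distrib, add_div]

theorem Ex_sub (φ ψ : Ω → ℝ) : Ex (fun w => φ w - ψ w) = Ex φ - Ex ψ := by
  unfold Ex
  rw [sum_sub_distrib, sub_div]

theorem Ex_neg (φ : Ω → ℝ) : Ex (fun w => -φ w) = -Ex φ := by
  unfold Ex
  rw [sum_neg_distrib, neg_div]

theorem Ex_mul_left (c : ℝ) (φ : Ω → ℝ) : Ex (fun w => c * φ w) = c * Ex φ := by
  unfold Ex
  rw [← mul_sum, mul_div_assoc]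

theorem Ex_mul_right (c : ℝ) (φ : Ω → ℝ) : Ex (fun w => φ w * c) = Ex φ * c := by
  unfold Ex
  rw [← sum_mul, div_mul_eq_mul_div]

theorem Ex_sum {ι : Type*} (s : Finset ι) (φ : ι → Ω → ℝ) :
    Ex (fun w => ∑ i ∈ s, φ i w) = ∑ i ∈ s, Ex (φ i) := by
  unfold Ex
  rw [sum_comm, sum_div]

theorem Ex_mono {φ ψ : Ω → ℝ} (h : ∀ w, φ w ≤ ψ w) : Ex φ ≤ Ex ψ := by
  unfold Ex
  exact div_le_div_of_nonneg_right (sum_le_sum fun w _ => h w) (Nat.cast_nonneg _)

theorem Ex_const [Nonempty Ω] (c : ℝ) : Ex (fun _ : Ω => c) = c := by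
  unfold Ex
  rw [sum_const, card_univ, nsmul_eq_mul]
  have : (Fintype.card Ω : ℝ) ≠ 0 := by exact_mod_cast Fintype.card_ne_zero
  field_simp

theorem Ex_le [Nonempty Ω] {φ : Ω → ℝ} {c : ℝ} (h : ∀ w, φ w ≤ c) : Ex φ ≤ c :=
  (Ex_mono h).trans_eq (Ex_const c)

theorem abs_Ex_le (φ : Ω → ℝ) : |Ex φ| ≤ Ex (fun w => |φ w|) := by
  unfold Ex
  rw [abs_div, Nat.abs_cast]
  exact div_le_div_of_nonneg_right (abs_sum_le_sum_abs _ _) (Nat.cast_nonneg _)

theorem abs_Ex_le_of [Nonempty Ω] {φ : Ω → ℝ} {c : ℝ} (h : ∀ w, |φ w| ≤ c) : |Ex φ| ≤ c :=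
  (abs_Ex_le φ).trans (Ex_le h)

theorem Ex_equiv (e : Ω ≃ Ω') (φ : Ω' → ℝ) : Ex (fun w => φ (e w)) = Ex φ := by
  unfold Ex
  rw [e.sum_comp φ, Fintype.card_congr e]

theorem Ex_comm (φ : Ω → Ω' → ℝ) :
    Ex (fun u => Ex fun v => φ u v) = Ex (fun v => Ex fun u => φ u v) := by
  unfold Ex
  simp only [← sum_div]
  rw [sum_comm, div_div, div_div, mul_comm]

theorem Ex_prod (φ : Ω × Ω' → ℝ) : Ex φ = Ex (fun u => Ex fun v => φ (u, v)) := by
  unfold Ex
  rw [Fintype.sum_prod_type, Fintype.card_prod]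
  simp only [← sum_div]
  rw [div_div, mul_comm]
  push_cast
  ring

open Classical in
/-- The indicator of a proposition. -/
noncomputable def ind (p : Prop) : ℝ := if p then 1 else 0

theorem ind_of {p : Prop} (h : p) : ind p = 1 := if_pos h

theorem ind_of_not {p : Prop} (h : ¬ p) : ind p = 0 := if_neg h

theorem ind_nonneg (p : Prop) : 0 ≤ ind p := by
  by_cases h : p
  · rw [ind_of h]; norm_num
  · rw [ind_of_not h]

theorem ind_le_one (p : Prop) : ind p ≤ 1 := by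
  by_cases h : p
  · rw [ind_of h]
  · rw [ind_of_not h]; norm_num

theorem ind_mono {p q : Prop} (h : p → q) : ind p ≤ ind q := by
  by_cases hp : p
  · rw [ind_of hp, ind_of (h hp)]
  · rw [ind_of_not hp]; exact ind_nonneg q

theorem ind_not (p : Prop) : ind (¬ p) = 1 - ind p := by
  by_cases hp : p
  · rw [ind_of hp, ind_of_not (by simpa using hp)]; norm_num
  · rw [ind_of_not hp, ind_of hp]; norm_num

theorem ind_exists_le {ι : Type*} (s : Finset ι) (P : ι → Prop) :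
    ind (∃ i ∈ s, P i) ≤ ∑ i ∈ s, ind (P i) := by
  by_cases h : ∃ i ∈ s, P i
  · obtain ⟨i, hi, h'⟩ := h
    refine (ind_le_one _).trans ?_
    rw [← ind_of h']
    exact single_le_sum (f := fun i => ind (P i)) (fun j _ => ind_nonneg _) hi
  · rw [ind_of_not h]
    exact sum_nonneg fun i _ => ind_nonneg _

theorem prob_eq (P : Ω → Prop) : Prob P = Ex (fun w => ind (P w)) := by
  classical
  unfold Ex Prob ind
  rw [sum_boole]

theorem prob_nonneg (P : Ω → Prop) : 0 ≤ Prob P := by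
  rw [prob_eq]
  exact Ex_nonneg fun w => ind_nonneg _

theorem prob_mono {P Q : Ω → Prop} (h : ∀ w, P w → Q w) : Prob P ≤ Prob Q := by
  rw [prob_eq, prob_eq]
  exact Ex_mono fun w => ind_mono (h w)

theorem prob_congr {P Q : Ω → Prop} (h : ∀ w, P w ↔ Q w) : Prob P = Prob Q :=
  le_antisymm (prob_mono fun w => (h w).1) (prob_mono fun w => (h w).2)

theorem prob_not [Nonempty Ω] (P : Ω → Prop) : Prob P = 1 - Prob (fun w => ¬ P w) := by
  rw [prob_eq, prob_eq, Ex_congr fun w => ind_not (P w), Ex_sub, Ex_const]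
  ring

theorem prob_le_one (P : Ω → Prop) : Prob P ≤ 1 := by
  by_cases h : Nonempty Ω
  · rw [prob_eq]
    exact Ex_le fun w => ind_le_one _
  · have := not_nonempty_iff.1 h
    rw [prob_eq]
    unfold Ex
    simp

theorem prob_true [Nonempty Ω] {P : Ω → Prop} (h : ∀ w, P w) : Prob P = 1 := by
  rw [prob_eq, Ex_congr (ψ := fun _ => 1) fun w => ind_of (h w)]
  exact Ex_const 1

theorem prob_false {P : Ω → Prop} (h : ∀ w, ¬ P w) : Prob P = 0 := by
  rw [prob_eq, Ex_congr (ψ := fun _ => 0) fun w => ind_of_not (h w)]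
  simp [Ex]

theorem prob_exists_le {ι : Type*} (s : Finset ι) (P : ι → Ω → Prop) :
    Prob (fun w => ∃ i ∈ s, P i w) ≤ ∑ i ∈ s, Prob (P i) := by
  simp only [prob_eq]
  rw [← Ex_sum]
  exact Ex_mono fun w => ind_exists_le s fun i => P i w

theorem prob_or_le (P Q : Ω → Prop) : Prob (fun w => P w ∨ Q w) ≤ Prob P + Prob Q := by
  rw [prob_eq, prob_eq, prob_eq, ← Ex_add]
  refine Ex_mono fun w => ?_
  by_cases hp : P w
  · rw [ind_of (Or.inl hp), ind_of hp]
    have := ind_nonneg (Q w)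
    linarith
  · by_cases hq : Q w
    · rw [ind_of (Or.inr hq), ind_of hq]
      have := ind_nonneg (P w)
      linarith
    · rw [ind_of_not (by tauto)]
      exact add_nonneg (ind_nonneg _) (ind_nonneg _)

theorem prob_exists_le_of {ι : Type*} [Fintype ι] (P : ι → Ω → Prop) (δ : ℝ)
    (h : ∀ i, Prob (P i) ≤ δ) : Prob (fun w => ∃ i, P i w) ≤ Fintype.card ι * δ := by
  have h1 := prob_exists_le (univ : Finset ι) P
  refine (prob_mono fun w hw => ?_).trans (h1.trans ?_)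
  · obtain ⟨i, hi⟩ := hw
    exact ⟨i, mem_univ _, hi⟩
  · refine (sum_le_sum fun i _ => h i).trans ?_
    rw [sum_const, card_univ, nsmul_eq_mul]

/-- `1 - δ` bounds from bounds for the complement. -/
theorem le_prob_of [Nonempty Ω] {P : Ω → Prop} {δ : ℝ} (h : Prob (fun w => ¬ P w) ≤ δ) :
    1 - δ ≤ Prob P := by
  rw [prob_not P]
  linarith

theorem prob_not_le_of [Nonempty Ω] {P : Ω → Prop} {δ : ℝ} (h : 1 - δ ≤ Prob P) :
    Prob (fun w => ¬ P w) ≤ δ := by
  rw [prob_not P] at h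
  linarith

/-- Measure preserving maps between finite probability spaces. -/
def MP (π : Ω → Ω') : Prop := ∀ φ : Ω' → ℝ, Ex (fun w => φ (π w)) = Ex φ

theorem MP.prob {π : Ω → Ω'} (h : MP π) (P : Ω' → Prop) : Prob (fun w => P (π w)) = Prob P := by
  rw [prob_eq, prob_eq]
  exact h fun w => ind (P w)

theorem MP.comp {π : Ω → Ω'} {ρ : Ω' → Ω''} (h : MP π) (h' : MP ρ) : MP fun w => ρ (π w) :=
  fun φ => (h fun w => φ (ρ w)).trans (h' φ)

theorem MP.equiv (e : Ω ≃ Ω') : MP fun w => e w := fun φ => Ex_equiv e φ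

theorem MP.bij {π : Ω → Ω'} (h : Function.Bijective π) : MP π :=
  MP.equiv (Equiv.ofBijective π h)

theorem MP.id : MP fun w : Ω => w := fun _ => rfl

theorem MP.prod {Ω₁ Ω₂ : Type} [Fintype Ω₁] [Fintype Ω₂] {π : Ω → Ω'} {ρ : Ω₁ → Ω₂} (h : MP π)
    (h' : MP ρ) : MP fun w : Ω × Ω₁ => (π w.1, ρ w.2) := by
  intro φ
  rw [Ex_prod, Ex_prod (φ := φ)]
  have h1 : ∀ u : Ω, Ex (fun v => φ (π u, ρ v)) = Ex fun v => φ (π u, v) :=
    fun u => h' fun v => φ (π u, v)
  simp only [h1]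
  exact h fun u => Ex fun v => φ (u, v)

theorem MP.fst [Nonempty Ω'] : MP fun w : Ω × Ω' => w.1 := by
  intro φ
  rw [Ex_prod]
  exact Ex_congr fun u => Ex_const (φ u)

theorem MP.snd [Nonempty Ω] : MP fun w : Ω × Ω' => w.2 := by
  intro φ
  rw [Ex_prod]
  exact Ex_const (Ex φ)

theorem prob_prod_le [Nonempty Ω] {P : Ω → Ω' → Prop} {δ : ℝ}
    (h : ∀ u, Prob (fun v => P u v) ≤ δ) : Prob (fun w : Ω × Ω' => P w.1 w.2) ≤ δ := by
  rw [prob_eq, Ex_prod]
  refine Ex_le fun u => ?_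
  have := h u
  rw [prob_eq] at this
  exact this

/-- Restriction along an injection. -/
theorem MP.restrict {A B C : Type} [Fintype A] [Fintype B] [DecidableEq A] [DecidableEq B]
    [Fintype C] [Nonempty C] (ι : A → B) (hι : Function.Injective ι) :
    MP fun (w : B → C) (a : A) => w (ι a) := by
  classical
  -- split the coordinates
  let e1 : (B → C) ≃ ({x // x ∈ Set.range ι} → C) × ({x // ¬ x ∈ Set.range ι} → C) :=
    Equiv.piEquivPiSubtypeProd (fun x => x ∈ Set.range ι) (fun _ => C)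
  let e2 : ({x // x ∈ Set.range ι} → C) ≃ (A → C) :=
    Equiv.arrowCongr (Equiv.ofInjective ι hι).symm (Equiv.refl C)
  have h1 : MP fun w : B → C => e1 w := MP.equiv e1
  have h2 : MP fun w : ({x // x ∈ Set.range ι} → C) × ({x // ¬ x ∈ Set.range ι} → C) => w.1 :=
    MP.fst
  have h3 : MP fun w : {x // x ∈ Set.range ι} → C => e2 w := MP.equiv e2
  have h4 := (h1.comp h2).comp h3
  refine fun φ => Eq.trans ?_ (h4 φ)
  rfl

/-- Currying. -/
theorem MP.curry {A B C : Type} [Fintype A] [Fintype B] [DecidableEq A] [DecidableEq B]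
    [Fintype C] : MP fun (w : A × B → C) (a : A) (b : B) => w (a, b) :=
  MP.equiv (Equiv.curry A B C)

/-- Disjoint blocks. -/
theorem MP.blocks {A A' B C : Type} [Fintype A] [Fintype A'] [Fintype B] [DecidableEq A]
    [DecidableEq A'] [DecidableEq B] [Fintype C] [Nonempty C] (ι : A → B) (ι' : A' → B)
    (hι : Function.Injective ι) (hι' : Function.Injective ι') (h : ∀ a a', ι a ≠ ι' a') :
    MP fun w : B → C => ((fun a => w (ι a), fun a => w (ι' a)) : (A → C) × (A' → C)) := by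
  have hinj : Function.Injective (Sum.elim ι ι') := by
    rintro (a | a) (b | b) hab
    · exact congrArg _ (hι hab)
    · exact (h a b hab).elim
    · exact (h b a hab.symm).elim
    · exact congrArg _ (hι' hab)
  have h1 := MP.restrict (C := C) (Sum.elim ι ι') hinj
  have h2 := h1.comp (MP.equiv (Equiv.sumArrowEquivProdArrow A A' C))
  exact h2

end Pool.Agent.L0h78.DE
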