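import Pool.Agent.L0h78.DE.Shift

/-!
# Estimating one number suffices for estimating all autocorrelations
-/

namespace Pool.Agent.L0h78.DE

open Finset
open Pool.Agent.NPC Pool.Agent.H424R2.PPAD
open Pool.Agent.Helper91K9.DL (dnfVal termVal examples nvars)

variable {n : ℕ}

/-- The formula `F(x ⊕ z a)` in the variables `z, x`. -/
def FA (F : List (List (ℕ × Bool))) (a : List Bool) : List (List (ℕ × Bool)) :=
  (F.map fun t => (0, false) :: t.map fun l => (l.1 + 1, l.2)) ++
    F.map fun t => (0, true) :: t.map fun l => (l.1 + 1, xor l.2 (a.getD l.1 false))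

/-- `x ⊕ z a`. -/
def tw (z : Bool) (x a : Cu n) : Cu n := if z then sh x a else x

theorem tw_tw (z : Bool) (x a : Cu n) : tw z (tw z x a) a = x := by
  unfold tw
  cases z
  · rfl
  · exact sh_invol x a

theorem isDnf_FA {s : ℕ} {F : List (List (ℕ × Bool))} (hF : IsDnf n s F) (a : List Bool) :
    IsDnf (n + 1) (2 * s) (FA F a) := by
  refine ⟨?_, fun t ht l hl => ?_⟩
  · unfold FA
    rw [List.length_append, List.length_map, List.length_map]
    have := hF.1
    omega
  · unfold FA at ht
    rcases List.mem_append.1 ht with ht | ht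
    · obtain ⟨t', ht', rfl⟩ := List.mem_map.1 ht
      rcases List.mem_cons.1 hl with rfl | hl
      · simp
      · obtain ⟨l', hl', rfl⟩ := List.mem_map.1 hl
        have := hF.2 t' ht' l' hl'
        simp only
        omega
    · obtain ⟨t', ht', rfl⟩ := List.mem_map.1 ht
      rcases List.mem_cons.1 hl with rfl | hl
      · simp
      · obtain ⟨l', hl', rfl⟩ := List.mem_map.1 hl
        have := hF.2 t' ht' l' hl'
        simp only
        omega

theorem ofFn_cons (z : Bool) (x : Cu n) :
    List.ofFn (Fin.cons z x : Cu (n + 1)) = z :: List.ofFn x := by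
  rw [List.ofFn_succ]
  simp

theorem fn_FA {s : ℕ} {F : List (List (ℕ × Bool))} (hF : IsDnf n s F) (a : Cu n) (z : Bool)
    (x : Cu n) : fn (n + 1) (FA F (List.ofFn a)) (Fin.cons z x) = fn n F (tw z x a) := by
  unfold fn FA dnfVal
  rw [ofFn_cons, List.any_append, List.any_map, List.any_map]
  have h1 : ∀ t : List (ℕ × Bool), (z :: List.ofFn x).getD 0 false = z := fun _ => rfl
  cases z
  · -- `z = false`
    have e1 : F.any ((fun t => termVal t (false :: List.ofFn x)) ∘ fun t =>
        (0, false) :: t.map fun l => (l.1 + 1, l.2)) = F.any fun t => termVal t (List.ofFn x) := by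
      congr 1
      funext t
      simp only [Function.comp, termVal, List.all_cons, List.all_map]
      simp [Function.comp_def]
    have e2 : F.any ((fun t => termVal t (false :: List.ofFn x)) ∘ fun t =>
        (0, true) :: t.map fun l => (l.1 + 1, xor l.2 ((List.ofFn a).getD l.1 false))) = false := by
      rw [List.any_eq_false]
      intro t _
      simp [termVal]
    rw [e1, e2, Bool.or_false]
    rfl
  · have e1 : F.any ((fun t => termVal t (true :: List.ofFn x)) ∘ fun t =>
        (0, false) :: t.map fun l => (l.1 + 1, l.2)) = false := by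
      rw [List.any_eq_false]
      intro t _
      simp [termVal]
    have e2 : F.any ((fun t => termVal t (true :: List.ofFn x)) ∘ fun t =>
        (0, true) :: t.map fun l => (l.1 + 1, xor l.2 ((List.ofFn a).getD l.1 false))) =
        F.any fun t => termVal t (List.ofFn (sh x a)) := by
      have h2 : ∀ G : List (List (ℕ × Bool)), (∀ t ∈ G, ∀ l ∈ t, l.1 < n) →
          G.any ((fun t => termVal t (true :: List.ofFn x)) ∘ fun t =>
            (0, true) :: t.map fun l => (l.1 + 1, xor l.2 ((List.ofFn a).getD l.1 false))) =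
          G.any fun t => termVal t (List.ofFn (sh x a)) := by
        intro G
        induction G with
        | nil => intro _; rfl
        | cons t G ih =>
          intro hG
          rw [List.any_cons, List.any_cons, ih fun t' ht' => hG t' (List.mem_cons_of_mem _ ht')]
          congr 1
          simp only [Function.comp, termVal, List.all_cons, List.all_map]
          have h3 : ∀ t' : List (ℕ × Bool), (∀ l ∈ t', l.1 < n) →
              (t'.all ((fun l => (true :: List.ofFn x).getD l.1 false == l.2) ∘ fun l =>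
                (l.1 + 1, xor l.2 ((List.ofFn a).getD l.1 false)))) =
              t'.all fun l => (List.ofFn (sh x a)).getD l.1 false == l.2 := by
            intro t'
            induction t' with
            | nil => intro _; rfl
            | cons l t' ih' =>
              intro h4
              rw [List.all_cons, List.all_cons, ih' fun l' hl' => h4 l' (List.mem_cons_of_mem _ hl')]
              congr 1
              have h5 := h4 l (by simp)
              simp only [Function.comp, List.getD_cons_succ]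
              rw [getD_ofFn x l.1 h5, getD_ofFn a l.1 h5, getD_ofFn (sh x a) l.1 h5]
              simp only [sh]
              cases x ⟨l.1, h5⟩ <;> cases a ⟨l.1, h5⟩ <;> cases l.2 <;> rfl
          rw [h3 t (hG t (by simp))]
          simp
      exact h2 F hF.2
    rw [e1, e2, Bool.false_or]
    rfl

/-! ### The simulation of the examples -/

/-- The simulated examples. -/
def sim (a : List Bool) (ex : List (List Bool × Bool)) (zb : List Bool) :
    List (List Bool × Bool) :=
  (ex.zip zb).map fun p => (p.2 :: (bif p.2 then shL p.1.1 a else p.1.1), p.1.2)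

/-- The simulated points. -/
def simX {t : ℕ} (a : Cu n) (X : Fin t → Cu n) (Z : Fin t → Bool) : Fin t → Cu (n + 1) :=
  fun j => Fin.cons (Z j) (tw (Z j) (X j) a)

theorem sim_eq {s t : ℕ} {F : List (List (ℕ × Bool))} (hF : IsDnf n s F) (a : Cu n)
    (X : Fin t → Cu n) (Z : Fin t → Bool) :
    sim (List.ofFn a) (examples F X) (List.ofFn Z) =
      examples (FA F (List.ofFn a)) (simX a X Z) := by
  unfold sim examples
  refine List.ext_getElem (by simp) fun i h1 h2 => ?_
  have hi : i < t := by simpa using h2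
  simp only [List.getElem_map, List.getElem_zip, List.getElem_ofFn]
  have h3 : (List.ofFn (simX a X Z ⟨i, hi⟩)) = Z ⟨i, hi⟩ ::
      (bif Z ⟨i, hi⟩ then shL (List.ofFn (X ⟨i, hi⟩)) (List.ofFn a) else List.ofFn (X ⟨i, hi⟩)) := by
    unfold simX
    rw [ofFn_cons]
    unfold tw
    cases Z ⟨i, hi⟩
    · rfl
    · simp only [if_true, cond_true, shL_ofFn]
  have h4 : dnfVal (FA F (List.ofFn a)) (List.ofFn (simX a X Z ⟨i, hi⟩)) =
      dnfVal F (List.ofFn (X ⟨i, hi⟩)) := by
    have h5 := fn_FA hF a (Z ⟨i, hi⟩) (tw (Z ⟨i, hi⟩) (X ⟨i, hi⟩) a)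
    rw [tw_tw] at h5
    exact h5
  rw [h4, h3]

theorem simX_bij (t : ℕ) (a : Cu n) : Function.Bijective
    fun p : (Fin t → Cu n) × (Fin t → Bool) => simX a p.1 p.2 := by
  have h1 : Function.LeftInverse
      (fun Y : Fin t → Cu (n + 1) => ((fun j => tw (Y j 0) (fun i => Y j i.succ) a,
        fun j => Y j 0) : (Fin t → Cu n) × (Fin t → Bool)))
      (fun p : (Fin t → Cu n) × (Fin t → Bool) => simX a p.1 p.2) := by
    rintro ⟨X, Z⟩
    refine Prod.ext ?_ ?_
    · funext j
      simp only [simX, Fin.cons_zero, Fin.cons_succ]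
      exact tw_tw _ _ _
    · funext j
      simp [simX]
  have h2 : Function.RightInverse
      (fun Y : Fin t → Cu (n + 1) => ((fun j => tw (Y j 0) (fun i => Y j i.succ) a,
        fun j => Y j 0) : (Fin t → Cu n) × (Fin t → Bool)))
      (fun p : (Fin t → Cu n) × (Fin t → Bool) => simX a p.1 p.2) := by
    intro Y
    funext j
    simp only [simX, tw_tw]
    exact Fin.cons_self_tail (Y j)
  exact ⟨h1.injective, h2.surjective⟩

/-- The input for the simulated formula. -/
def simI (e g' b' : ℕ) (a : List Bool) (I : Input) : Input :=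
  ((I.1.1 + 1, 2 * I.1.2.1, g', b'),
    sim a (I.2.1.take ((I.1.1 + 1 + 2 * I.1.2.1 + g' + b') ^ e))
      (I.2.2.take ((I.1.1 + 1 + 2 * I.1.2.1 + g' + b') ^ e)),
    (I.2.2.drop ((I.1.1 + 1 + 2 * I.1.2.1 + g' + b') ^ e)).take
      ((I.1.1 + 1 + 2 * I.1.2.1 + g' + b') ^ e))

theorem sim_prob {s : ℕ} {F : List (List (ℕ × Bool))} (hF : IsDnf n s F) (a : Cu n)
    (g b g' b' e NN : ℕ) (hNN : 2 * (n + 1 + 2 * s + g' + b') ^ e ≤ NN) (Q : Input → Prop) :
    Prob (fun ω : Sample n NN => Q (simI e g' b' (List.ofFn a) (input n s g b F ω))) =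
      Prob (fun ω : Sample (n + 1) ((n + 1 + 2 * s + g' + b') ^ e) =>
        Q (input (n + 1) (2 * s) g' b' (FA F (List.ofFn a)) ω)) := by
  set t := (n + 1 + 2 * s + g' + b') ^ e with ht
  have e1 : MP fun w : Fin NN → Cu n => fun j => w (blk 0 t (by omega) j) :=
    MP.restrict _ (blk_inj _ _ _)
  have e2 := MP.blocks (C := Bool) (blk (NN := NN) 0 t (by omega)) (blk t t (by omega))
    (blk_inj _ _ _) (blk_inj _ _ _) (by
      intro a a' haa
      have h4 := congrArg Fin.val haa
      simp only [blk] at h4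
      have := a.2
      omega)
  have e3 := (e1.prod e2).comp (MP.equiv (Equiv.prodAssoc (Fin t → Cu n) (Fin t → Bool)
    (Fin t → Bool)).symm)
  have e4 := e3.comp (MP.prod (MP.bij (simX_bij t a)) (MP.id (Ω := Fin t → Bool)))
  have e5 := e4.prob (fun ω : Sample (n + 1) t =>
    Q (input (n + 1) (2 * s) g' b' (FA F (List.ofFn a)) ω))
  rw [← e5]
  refine prob_congr fun ω => ?_
  have h1 : (examples F ω.1).take t = examples F (fun j => ω.1 (blk 0 t (by omega) j)) := by
    have h := ofFn_drop_take (fun j => (List.ofFn (ω.1 j), dnfVal F (List.ofFn (ω.1 j)))) 0 t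
      (by omega)
    rw [List.drop_zero] at h
    exact h
  have h2 : (List.ofFn ω.2).take t = List.ofFn (fun j => ω.2 (blk 0 t (by omega) j)) := by
    have h := ofFn_drop_take ω.2 0 t (by omega)
    rw [List.drop_zero] at h
    exact h
  have h3 := ofFn_drop_take ω.2 t t (by omega)
  have h4 : simI e g' b' (List.ofFn a) (input n s g b F ω) =
      input (n + 1) (2 * s) g' b' (FA F (List.ofFn a))
        (simX a (fun j => ω.1 (blk 0 t (by omega) j)) (fun j => ω.2 (blk 0 t (by omega) j)),
          fun j => ω.2 (blk t t (by omega) j)) := by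
    unfold simI input
    simp only [← ht]
    rw [h1, h2, h3, sim_eq hF]
  rw [h4]
  rfl

/-! ### The numbers of the simulated formula -/

theorem mp_cons : MP fun p : Bool × Cu n => (Fin.cons p.1 p.2 : Cu (n + 1)) := by
  refine MP.bij ⟨fun p q h => ?_, fun y => ⟨(y 0, fun i => y i.succ), ?_⟩⟩
  · have h1 : p.1 = q.1 := by
      have := congrFun h 0
      simpa using this
    have h2 : p.2 = q.2 := by
      funext i
      have := congrFun h i.succ
      simpa using this
    exact Prod.ext h1 h2
  · exact Fin.cons_self_tail y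

/-- A probability on the large cube. -/
theorem prob_cons (P : Cu (n + 1) → Prop) (v : ℝ)
    (h : ∀ z : Bool, Prob (fun x : Cu n => P (Fin.cons z x)) = v) : Prob P = v := by
  rw [← mp_cons.prob, prob_eq, Ex_prod]
  rw [Ex_congr (ψ := fun _ => v) fun z => by
    have := h z
    rw [prob_eq] at this
    exact this]
  exact Ex_const v

theorem prob_sh (P : Cu n → Prop) (a : Cu n) : Prob (fun x => P (sh x a)) = Prob P :=
  (MP.equiv (shEquiv a)).prob P

theorem shiftProb_eq (f : Cu n → Bool) (a : Cu n) :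
    shiftProb f a = Prob fun x => f (sh x a) ≠ f x := rfl

theorem shiftProb_zv (f : Cu n → Bool) : shiftProb f zv = 0 := by
  rw [shiftProb_eq]
  refine prob_false fun x => ?_
  have : sh x zv = x := by
    funext i
    simp [sh, zv]
  simp [this]

theorem update_eq_sh (x : Cu n) (i : Fin n) : Function.update x i (!x i) = sh x (ev i) := by
  funext j
  by_cases h : j = i
  · subst h
    simp [sh, ev]
  · simp [sh, ev, h]

theorem influence_eq (f : Cu n → Bool) (i : Fin n) : influence f i = shiftProb f (ev i) := by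
  unfold influence
  simp only [update_eq_sh]
  rfl

theorem first_FA {s : ℕ} {F : List (List (ℕ × Bool))} (hF : IsDnf n s F) (a : Cu n) :
    influence (fn (n + 1) (FA F (List.ofFn a))) 0 = shiftProb (fn n F) a := by
  unfold influence
  refine prob_cons _ _ fun z => ?_
  have h1 : ∀ x : Cu n, Function.update (Fin.cons z x : Cu (n + 1)) 0
      (!(Fin.cons z x : Cu (n + 1)) 0) = Fin.cons (!z) x := by
    intro x
    rw [Fin.cons_zero, Fin.update_cons_zero]
  simp only [h1, fn_FA hF]
  rw [shiftProb_eq]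
  refine prob_congr fun x => ?_
  cases z
  · exact Iff.rfl
  · exact ne_comm

theorem first_eq {s : ℕ} {F : List (List (ℕ × Bool))} (hF : IsDnf n s F) (a : Cu n) :
    firstInfluence (n + 1) (fn (n + 1) (FA F (List.ofFn a))) = shiftProb (fn n F) a := by
  unfold firstInfluence
  rw [dif_pos (Nat.succ_pos n)]
  exact first_FA hF a

theorem tw_update (z : Bool) (x a : Cu n) (i : Fin n) :
    tw z (Function.update x i (!x i)) a =
      Function.update (tw z x a) i (!(tw z x a) i) := by
  rw [update_eq_sh, update_eq_sh]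
  cases z
  · rfl
  · funext j
    simp only [tw, sh, if_true]
    cases x j <;> cases a j <;> cases ev i j <;> rfl

theorem prob_tw (P : Cu n → Prop) (z : Bool) (a : Cu n) :
    Prob (fun x => P (tw z x a)) = Prob P := by
  cases z
  · rfl
  · exact prob_sh P a

theorem succ_FA {s : ℕ} {F : List (List (ℕ × Bool))} (hF : IsDnf n s F) (a : Cu n) (i : Fin n) :
    influence (fn (n + 1) (FA F (List.ofFn a))) i.succ = influence (fn n F) i := by
  unfold influence
  refine prob_cons _ _ fun z => ?_
  have h1 : ∀ x : Cu n, Function.update (Fin.cons z x : Cu (n + 1)) i.succ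
      (!(Fin.cons z x : Cu (n + 1)) i.succ) = Fin.cons z (Function.update x i (!x i)) := by
    intro x
    rw [Fin.cons_succ, Fin.cons_update]
  simp only [h1, fn_FA hF, tw_update]
  exact prob_tw (fun x => fn n F (Function.update x i (!x i)) ≠ fn n F x) z a

theorem as_eq {s : ℕ} {F : List (List (ℕ × Bool))} (hF : IsDnf n s F) (a : Cu n) :
    averageSensitivity (n + 1) (fn (n + 1) (FA F (List.ofFn a))) =
      shiftProb (fn n F) a + averageSensitivity n (fn n F) := by
  unfold averageSensitivity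
  rw [Fin.sum_univ_succ, first_FA hF]
  congr 1
  exact sum_congr rfl fun i _ => succ_FA hF a i

/-- The antipode. -/
def neg (x : Cu n) : Cu n := fun i => !x i

theorem neg_eq (x : Cu n) : neg x = sh x (fun _ => true) := by
  funext i
  simp [neg, sh]

theorem anti_eq {s : ℕ} {F : List (List (ℕ × Bool))} (hF : IsDnf n s F) (a : Cu n) :
    antipodal (n + 1) (fn (n + 1) (FA F (List.ofFn (neg a)))) = shiftProb (fn n F) a := by
  unfold antipodal
  refine prob_cons _ _ fun z => ?_
  have h1 : ∀ x : Cu n, (fun i => !(Fin.cons z x : Cu (n + 1)) i) = Fin.cons (!z) (neg x) := by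
    intro x
    funext i
    refine Fin.cases ?_ (fun i => ?_) i
    · simp
    · simp [neg]
  simp only [h1, fn_FA hF]
  rw [shiftProb_eq]
  cases z
  · refine prob_congr fun x => ?_
    have h2 : tw (!false) (neg x) (neg a) = sh x a := by
      funext i
      simp only [tw, sh, neg, Bool.not_false, if_true]
      cases x i <;> cases a i <;> rfl
    rw [h2]
    exact Iff.rfl
  · rw [← prob_sh (fun x => fn n F (sh x a) ≠ fn n F x) (fun _ => true)]
    refine prob_congr fun x => ?_
    have h2 : tw true x (neg a) = sh (sh x fun _ => true) a := by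
      funext i
      simp only [tw, sh, neg, if_true]
      cases x i <;> cases a i <;> rfl
    rw [h2, ← neg_eq]
    exact ne_comm

/-! ### The reductions -/

theorem simI_poly {α : Type} [TEnc α] (e : ℕ) {g' b' : α → ℕ} {a : α → List Bool} {I : α → Input}
    (hg : NPC.Poly g') (hb : NPC.Poly b') (ha : NPC.Poly a) (hI : NPC.Poly I) :
    NPC.Poly (fun x => simI e (g' x) (b' x) (a x) (I x)) := by
  have ht : NPC.Poly (fun x => ((I x).1.1 + 1 + 2 * (I x).1.2.1 + g' x + b' x) ^ e) :=
    pow_poly e (by fun_prop)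
  have h1 := Pool.Agent.H424R2.SG.PolyA.poly_take
    (NPC.Poly.fst (NPC.Poly.snd hI) : NPC.Poly fun x => (I x).2.1) ht
  have h2 := Pool.Agent.H424R2.SG.PolyA.poly_take
    (NPC.Poly.snd (NPC.Poly.snd hI) : NPC.Poly fun x => (I x).2.2) ht
  have h3 := Pool.Agent.H424R2.SG.PolyA.poly_take (Pool.Agent.H424R2.SG.PolyA.poly_drop
    (NPC.Poly.snd (NPC.Poly.snd hI) : NPC.Poly fun x => (I x).2.2) ht) ht
  unfold simI sim
  fun_prop

theorem size_red {s g b g' b' e : ℕ} (hg : 1 ≤ g) (hb : 1 ≤ b) (hg' : g' ≤ 4 * g)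
    (hb' : b' ≤ 2 * b) :
    2 * (n + 1 + 2 * s + g' + b') ^ e ≤ (n + s + g + b) ^ (4 * e + 1) := by
  have h1 : n + 1 + 2 * s + g' + b' ≤ (n + s + g + b) ^ 4 := by
    have h2 : 2 ≤ n + s + g + b := by omega
    have h3 : n + 1 + 2 * s + g' + b' ≤ 5 * (n + s + g + b) := by omega
    have h4 : 5 ≤ (n + s + g + b) ^ 3 := by
      calc 5 ≤ 2 ^ 3 := by norm_num
        _ ≤ _ := Nat.pow_le_pow_left h2 3
    calc n + 1 + 2 * s + g' + b' ≤ 5 * (n + s + g + b) := h3
      _ ≤ (n + s + g + b) ^ 3 * (n + s + g + b) := Nat.mul_le_mul_right _ h4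
      _ = _ := by ring
  calc 2 * (n + 1 + 2 * s + g' + b') ^ e ≤ (n + s + g + b) * ((n + s + g + b) ^ 4) ^ e :=
        Nat.mul_le_mul (by omega) (Nat.pow_le_pow_left h1 e)
    _ = _ := by rw [← pow_mul, pow_succ, mul_comm]

theorem shift_of_first (h : Estimable firstInfluence) : EstimableShift := by
  obtain ⟨E, hE, e, hspec⟩ := h
  refine ⟨fun p => E (simI e p.2.1.2.2.1 p.2.1.2.2.2 p.1 p.2), PTime.of_poly ?_, 4 * e + 1, ?_⟩
  · exact hE.toPoly.comp (simI_poly e (by fun_prop) (by fun_prop) (by fun_prop) (by fun_prop))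
  · intro n s g b F a hg hb hF
    have h1 := hspec (n + 1) (2 * s) g b (FA F (List.ofFn a)) hg hb (isDnf_FA hF _)
    rw [first_eq hF] at h1
    refine h1.trans_eq ?_
    exact (sim_prob hF a g b g b e _ (size_red hg hb (by omega) (by omega))
      (fun I => |(E I : ℝ) / g - shiftProb (fn n F) a| ≤ 1 / (g : ℝ))).symm

theorem shift_of_anti (h : Estimable antipodal) : EstimableShift := by
  obtain ⟨E, hE, e, hspec⟩ := h
  refine ⟨fun p => E (simI e p.2.1.2.2.1 p.2.1.2.2.2 (p.1.map fun b => !b) p.2),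
    PTime.of_poly ?_, 4 * e + 1, ?_⟩
  · exact hE.toPoly.comp (simI_poly e (by fun_prop) (by fun_prop) (by fun_prop) (by fun_prop))
  · intro n s g b F a hg hb hF
    have h1 := hspec (n + 1) (2 * s) g b (FA F (List.ofFn (neg a))) hg hb (isDnf_FA hF _)
    rw [anti_eq hF] at h1
    refine h1.trans_eq ?_
    have h2 : (List.ofFn a).map (fun b => !b) = List.ofFn (neg a) := by
      rw [List.map_ofFn]
      rfl
    simp only [h2]
    exact (sim_prob hF (neg a) g b g b e _ (size_red hg hb (by omega) (by omega))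
      (fun I => |(E I : ℝ) / g - shiftProb (fn n F) a| ≤ 1 / (g : ℝ))).symm

theorem round_diff {g v w : ℕ} (hg : 1 ≤ g) {x y : ℝ} (hx : 0 ≤ x)
    (h1 : |(v : ℝ) / (4 * g : ℕ) - (x + y)| ≤ 1 / ((4 * g : ℕ) : ℝ))
    (h2 : |(w : ℝ) / (4 * g : ℕ) - y| ≤ 1 / ((4 * g : ℕ) : ℝ)) :
    |(((v - w + 2) / 4 : ℕ) : ℝ) / g - x| ≤ 1 / (g : ℝ) := by
  have hg0 : (0 : ℝ) < g := by exact_mod_cast hg
  push_cast at h1 h2
  have k1 : |(v : ℝ) - 4 * g * (x + y)| ≤ 1 := by
    have h3 : (v : ℝ) / (4 * g) - (x + y) = (v - 4 * g * (x + y)) / (4 * g) := by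
      field_simp
    rw [h3, abs_div, abs_of_pos (by positivity : (0 : ℝ) < 4 * g)] at h1
    exact (div_le_div_iff_of_pos_right (by positivity)).1 h1
  have k2 : |(w : ℝ) - 4 * g * y| ≤ 1 := by
    have h3 : (w : ℝ) / (4 * g) - y = (w - 4 * g * y) / (4 * g) := by
      field_simp
    rw [h3, abs_div, abs_of_pos (by positivity : (0 : ℝ) < 4 * g)] at h2
    exact (div_le_div_iff_of_pos_right (by positivity)).1 h2
  have k3 : |((v - w : ℕ) : ℝ) - 4 * g * x| ≤ 2 := by
    rw [abs_le] at k1 k2 ⊢
    have hgx : 0 ≤ (g : ℝ) * x := by positivity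
    rcases le_total w v with h | h
    · rw [Nat.cast_sub h]
      constructor <;> nlinarith [k1.1, k1.2, k2.1, k2.2]
    · rw [Nat.sub_eq_zero_of_le h]
      have h5 : (v : ℝ) ≤ w := by exact_mod_cast h
      push_cast
      constructor <;> nlinarith [k1.1, k1.2, k2.1, k2.2]
  set z := v - w with hz
  have k4 : |(((z + 2) / 4 : ℕ) : ℝ) - z / 4| ≤ 1 / 2 := by
    have h3 : 4 * ((z + 2) / 4) ≤ z + 2 := Nat.mul_div_le _ _
    have h4 : z + 2 < 4 * ((z + 2) / 4) + 4 := by omega
    have h4' : z + 2 ≤ 4 * ((z + 2) / 4) + 3 := by omega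
    have h5 : 4 * (((z + 2) / 4 : ℕ) : ℝ) ≤ z + 2 := by exact_mod_cast h3
    have h6 : (z : ℝ) + 2 ≤ 4 * (((z + 2) / 4 : ℕ) : ℝ) + 3 := by exact_mod_cast h4'
    rw [abs_le]
    constructor <;> linarith
  have k5 : |(((z + 2) / 4 : ℕ) : ℝ) - g * x| ≤ 1 := by
    rw [abs_le] at k3 k4 ⊢
    constructor <;> linarith [k3.1, k3.2, k4.1, k4.2]
  have h3 : (((z + 2) / 4 : ℕ) : ℝ) / g - x = ((((z + 2) / 4 : ℕ) : ℝ) - g * x) / g := by
    field_simp
  rw [h3, abs_div, abs_of_pos hg0]
  exact div_le_div_of_nonneg_right k5 hg0.le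

theorem shift_of_as (h : Estimable averageSensitivity) : EstimableShift := by
  obtain ⟨E, hE, e, hspec⟩ := h
  refine ⟨fun p => (E (simI e (4 * p.2.1.2.2.1) (2 * p.2.1.2.2.2) p.1 p.2) -
    E (simI e (4 * p.2.1.2.2.1) (2 * p.2.1.2.2.2) (p.1.map fun _ => false) p.2) + 2) / 4,
    PTime.of_poly ?_, 4 * e + 1, ?_⟩
  · have h1 : NPC.Poly fun p : List Bool × Input =>
        E (simI e (4 * p.2.1.2.2.1) (2 * p.2.1.2.2.2) p.1 p.2) :=
      hE.toPoly.comp (simI_poly e (by fun_prop) (by fun_prop) (by fun_prop) (by fun_prop))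
    have h2 : NPC.Poly fun p : List Bool × Input =>
        E (simI e (4 * p.2.1.2.2.1) (2 * p.2.1.2.2.2) (p.1.map fun _ => false) p.2) :=
      hE.toPoly.comp (simI_poly e (by fun_prop) (by fun_prop) (by fun_prop) (by fun_prop))
    exact NPC.Poly.div (NPC.Poly.add (NPC.Poly.sub h1 h2) (NPC.Poly.const 2)) (NPC.Poly.const 4)
  · intro n s g b F a hg hb hF
    have hb0 : (0 : ℝ) < b := by exact_mod_cast hb
    have h1 := hspec (n + 1) (2 * s) (4 * g) (2 * b) (FA F (List.ofFn a)) (by omega) (by omega)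
      (isDnf_FA hF _)
    have h2 := hspec (n + 1) (2 * s) (4 * g) (2 * b) (FA F (List.ofFn (zv : Cu n))) (by omega)
      (by omega) (isDnf_FA hF _)
    rw [as_eq hF] at h1 h2
    rw [shiftProb_zv, zero_add] at h2
    have hsz := size_red (n := n) (s := s) (e := e) hg hb (le_refl (4 * g)) (le_refl (2 * b))
    rw [← sim_prob hF a g b (4 * g) (2 * b) e _ hsz
      (fun I => |(E I : ℝ) / (4 * g : ℕ) - (shiftProb (fn n F) a +
        averageSensitivity n (fn n F))| ≤ 1 / ((4 * g : ℕ) : ℝ))] at h1
    rw [← sim_prob hF zv g b (4 * g) (2 * b) e _ hsz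
      (fun I => |(E I : ℝ) / (4 * g : ℕ) - averageSensitivity n (fn n F)| ≤
        1 / ((4 * g : ℕ) : ℝ))] at h2
    have h3 := prob_not_le_of h1
    have h4 := prob_not_le_of h2
    have h5 : (List.ofFn a).map (fun _ => false) = List.ofFn (zv : Cu n) := by
      rw [List.map_ofFn]
      rfl
    refine le_prob_of ?_
    have h6 := (prob_or_le (fun ω : Sample n ((n + s + g + b) ^ (4 * e + 1)) =>
      ¬ |(E (simI e (4 * g) (2 * b) (List.ofFn a) (input n s g b F ω)) : ℝ) / (4 * g : ℕ) -
        (shiftProb (fn n F) a + averageSensitivity n (fn n F))| ≤ 1 / ((4 * g : ℕ) : ℝ))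
      (fun ω : Sample n ((n + s + g + b) ^ (4 * e + 1)) =>
      ¬ |(E (simI e (4 * g) (2 * b) (List.ofFn (zv : Cu n)) (input n s g b F ω)) : ℝ) / (4 * g : ℕ) -
        averageSensitivity n (fn n F)| ≤ 1 / ((4 * g : ℕ) : ℝ)))
    have h7 : 1 / ((2 * b : ℕ) : ℝ) + 1 / ((2 * b : ℕ) : ℝ) = 1 / (b : ℝ) := by
      push_cast
      field_simp
      norm_num
    refine le_trans (prob_mono fun ω hω => ?_) (h6.trans (by linarith))
    by_contra hcon
    rw [not_or, not_not, not_not] at hcon
    refine hω ?_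
    have h8 := round_diff hg (prob_nonneg _ : 0 ≤ shiftProb (fn n F) a) hcon.1 hcon.2
    rw [← h5] at h8
    exact h8

end Pool.Agent.L0h78.DE
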