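import Pool.Agent.L0h78.DE.GoodProb

/-!
# Estimating all autocorrelations suffices for learning
-/

namespace Pool.Agent.L0h78.DE

open Finset
open Pool.Agent.NPC Pool.Agent.H424R2.PPAD
open Pool.Agent.Helper91K9.DL (dnfVal termVal examples nvars)

variable {n : ℕ}

/-! ### Parameters -/

theorem four_le_qq {n s a b : ℕ} (ha : 1 ≤ a) (hb : 1 ≤ b) : 4 ≤ qq n s a b := by
  unfold qq; omega

theorem dd_pos {s a : ℕ} (ha : 1 ≤ a) : 0 < dd s a := by
  unfold dd
  positivity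

theorem dd_le {n s a b : ℕ} : dd s a ≤ qq n s a b ^ 2 := by
  unfold dd qq
  have h : (s + a + 2) ^ 2 ≤ (n + s + a + b + 2) ^ 2 := Nat.pow_le_pow_left (by omega) 2
  refine le_trans ?_ h
  have h2 : 2 * ((s : ℤ) * a) ≤ s ^ 2 + a ^ 2 := by nlinarith [sq_nonneg ((s : ℤ) - a)]
  have h3 : 2 * (s * a) ≤ s ^ 2 + a ^ 2 := by exact_mod_cast h2
  nlinarith

/-- The parameter `τ`. -/
noncomputable def tau (D : ℕ) : ℝ := 1 / (8 * (D : ℝ) ^ 2)

theorem tau_nonneg (D : ℕ) : 0 ≤ tau D := by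
  unfold tau
  positivity

theorem par_ok {n s a b : ℕ} (ha : 1 ≤ a) (hb : 1 ≤ b) :
    Par (qq n s a b ^ 30) (qq n s a b ^ 30) (dd s a) (qq n s a b ^ 10) (tau (dd s a)) := by
  have hq := four_le_qq (n := n) (s := s) ha hb
  have hD := dd_pos (s := s) ha
  have hDq := dd_le (n := n) (s := s) (a := a) (b := b)
  set q := qq n s a b with hqd
  set D := dd s a with hDd
  have hD0 : (1 : ℝ) ≤ D := by exact_mod_cast hD
  have hq0 : (4 : ℝ) ≤ q := by exact_mod_cast hq
  have hDq' : (D : ℝ) ≤ q ^ 2 := by exact_mod_cast hDq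
  refine ⟨hD, by positivity, by positivity, by positivity, by unfold tau; positivity, ?_, ?_⟩
  · unfold tau
    have h1 : 4 * (D : ℝ) ^ 2 ≤ (q : ℝ) ^ 10 := by
      have h2 : (D : ℝ) ^ 2 ≤ (q ^ 2 : ℝ) ^ 2 := pow_le_pow_left₀ (by linarith) hDq' 2
      have h3 : (4 : ℝ) ≤ (q : ℝ) ^ 6 := by
        calc (4 : ℝ) ≤ q := hq0
          _ = (q : ℝ) ^ 1 := (pow_one _).symm
          _ ≤ (q : ℝ) ^ 6 := pow_le_pow_right₀ (by linarith) (by norm_num)
      calc 4 * (D : ℝ) ^ 2 ≤ (q : ℝ) ^ 6 * (q ^ 2 : ℝ) ^ 2 :=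
            mul_le_mul h3 h2 (by positivity) (by positivity)
        _ = _ := by ring
    have h2 : 2 / ((q ^ 10 : ℕ) : ℝ) ≤ 1 / (2 * (D : ℝ) ^ 2) := by
      push_cast
      rw [div_le_div_iff₀ (by positivity) (by positivity)]
      linarith
    have h3 : 4 * (1 / (8 * (D : ℝ) ^ 2)) = 1 / (2 * (D : ℝ) ^ 2) := by
      field_simp
      norm_num
    have h4 : 1 / (D : ℝ) ^ 2 = 1 / (2 * (D : ℝ) ^ 2) + 1 / (2 * (D : ℝ) ^ 2) := by
      field_simp
      norm_num
    linarith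
  · unfold tau
    rw [mul_one_div, div_le_one (by positivity)]
    nlinarith

theorem hoef_ok {n s a b : ℕ} (ha : 1 ≤ a) (hb : 1 ≤ b) :
    128 * ((((n + 2) * (dd s a * dd s a + 1) + 2 * n : ℕ) : ℝ) + 16 * b) ≤
      ((qq n s a b ^ 30 : ℕ) : ℝ) * (tau (dd s a)) ^ 2 := by
  have hq := four_le_qq (n := n) (s := s) ha hb
  have hD := dd_pos (s := s) ha
  have hDq := dd_le (n := n) (s := s) (a := a) (b := b)
  have hn : n + 2 ≤ qq n s a b := by unfold qq; omega
  have hbq : b ≤ qq n s a b := by unfold qq; omega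
  set q := qq n s a b with hqd
  set D := dd s a with hDd
  have h1 : 128 * ((n + 2) * (D * D + 1) + 2 * n + 16 * b) * (64 * D ^ 4) ≤ q ^ 30 := by
    have e1 : D * D + 1 ≤ q ^ 5 := by
      have h2 : D * D ≤ q ^ 2 * q ^ 2 := Nat.mul_le_mul hDq hDq
      have h3 : q ^ 2 * q ^ 2 + 1 ≤ q ^ 5 := by
        have h4 : 1 ≤ q ^ 4 := Nat.one_le_pow _ _ (by omega)
        calc q ^ 2 * q ^ 2 + 1 = q ^ 4 + 1 := by ring
          _ ≤ q ^ 4 + q ^ 4 := by omega
          _ = 2 * q ^ 4 := by ring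
          _ ≤ q * q ^ 4 := Nat.mul_le_mul_right _ (by omega)
          _ = q ^ 5 := by ring
      omega
    have e2 : (n + 2) * (D * D + 1) ≤ q ^ 6 := by
      calc (n + 2) * (D * D + 1) ≤ q * q ^ 5 := Nat.mul_le_mul hn e1
        _ = q ^ 6 := by ring
    have e3 : 2 * n + 16 * b ≤ q ^ 6 := by
      have h4 : 18 ≤ q ^ 5 := by
        calc 18 ≤ 4 ^ 5 := by norm_num
          _ ≤ q ^ 5 := Nat.pow_le_pow_left hq 5
      calc 2 * n + 16 * b ≤ 18 * q := by omega
        _ ≤ q ^ 5 * q := Nat.mul_le_mul_right _ h4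
        _ = q ^ 6 := by ring
    have e4 : D ^ 4 ≤ q ^ 8 := by
      calc D ^ 4 ≤ (q ^ 2) ^ 4 := Nat.pow_le_pow_left hDq 4
        _ = q ^ 8 := by ring
    have e5 : 16384 ≤ q ^ 7 := by
      calc 16384 ≤ 4 ^ 7 := by norm_num
        _ ≤ q ^ 7 := Nat.pow_le_pow_left hq 7
    calc 128 * ((n + 2) * (D * D + 1) + 2 * n + 16 * b) * (64 * D ^ 4)
        ≤ 128 * (q ^ 6 + q ^ 6) * (64 * q ^ 8) :=
          Nat.mul_le_mul (Nat.mul_le_mul_left _ (by omega)) (Nat.mul_le_mul_left _ e4)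
      _ = 16384 * q ^ 14 := by ring
      _ ≤ q ^ 7 * q ^ 14 := Nat.mul_le_mul_right _ e5
      _ = q ^ 21 := by ring
      _ ≤ q ^ 30 := Nat.pow_le_pow_right (by omega) (by norm_num)
  have h2 : 128 * ((((n + 2) * (D * D + 1) + 2 * n : ℕ) : ℝ) + 16 * b) * (64 * (D : ℝ) ^ 4) ≤
      ((q ^ 30 : ℕ) : ℝ) := by exact_mod_cast h1
  unfold tau
  have hD0 : (0 : ℝ) < D := by exact_mod_cast hD
  have e : (8 * (D : ℝ) ^ 2) ^ 2 = 64 * (D : ℝ) ^ 4 := by ring
  rw [div_pow, one_pow, e, mul_one_div, le_div_iff₀ (by positivity)]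
  exact h2

/-- The number of examples is large enough. -/
theorem size_ok {n s a b : ℕ} (ha : 1 ≤ a) (hb : 1 ≤ b) (e : ℕ) :
    qq n s a b ^ 30 * n +
      (qq n s a b ^ 30 + qq n s a b ^ 30 * n * (n + s + qq n s a b ^ 10 + qq n s a b ^ 40) ^ e) ≤
      (n + s + a + b) ^ (2 * (33 + 41 * e)) := by
  have hq := four_le_qq (n := n) (s := s) ha hb
  have hn : n ≤ qq n s a b := by unfold qq; omega
  have hns : n + s ≤ qq n s a b := by unfold qq; omega
  have hy : qq n s a b ≤ (n + s + a + b) ^ 2 := by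
    unfold qq
    have : 2 ≤ n + s + a + b := by omega
    nlinarith
  rw [pow_mul]
  refine le_trans ?_ (Nat.pow_le_pow_left hy _)
  set q := qq n s a b with hqd
  have e1 : n + s + q ^ 10 + q ^ 40 ≤ q ^ 41 := by
    have h1 : q ≤ q ^ 40 := Nat.le_self_pow (by norm_num) q
    have h2 : q ^ 10 ≤ q ^ 40 := Nat.pow_le_pow_right (by omega) (by norm_num)
    calc n + s + q ^ 10 + q ^ 40 ≤ q ^ 40 + q ^ 40 + q ^ 40 := by omega
      _ ≤ 4 * q ^ 40 := by omega
      _ ≤ q * q ^ 40 := Nat.mul_le_mul_right _ hq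
      _ = q ^ 41 := by ring
  have e2 : (n + s + q ^ 10 + q ^ 40) ^ e ≤ q ^ (41 * e) := by
    rw [pow_mul]
    exact Nat.pow_le_pow_left e1 e
  have e3 : q ^ 30 * n ≤ q ^ 31 := by
    calc q ^ 30 * n ≤ q ^ 30 * q := Nat.mul_le_mul_left _ hn
      _ = q ^ 31 := by ring
  have e4 : q ^ 30 * n * (n + s + q ^ 10 + q ^ 40) ^ e ≤ q ^ (31 + 41 * e) := by
    rw [pow_add]
    exact Nat.mul_le_mul e3 e2
  have e5 : q ^ 31 ≤ q ^ (31 + 41 * e) := Nat.pow_le_pow_right (by omega) (by omega)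
  have e6 : q ^ 30 ≤ q ^ (31 + 41 * e) := Nat.pow_le_pow_right (by omega) (by omega)
  have e7 : q ^ (33 + 41 * e) = q ^ 2 * q ^ (31 + 41 * e) := by
    rw [← pow_add]
    congr 1
    omega
  rw [e7]
  have e8 : 3 ≤ q ^ 2 := by nlinarith
  have e9 := Nat.mul_le_mul_right (q ^ (31 + 41 * e)) e8
  omega

/-! ### The data of the learner -/

section

variable (E : List Bool × Input → ℕ) (s g b' : ℕ) (F : List (List (ℕ × Bool))) {M NN ME : ℕ}

/-- The list of estimates. -/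
def wL (M ME : ℕ) (ω : Sample n NN) (u : Cu n) (i : ℕ) : List ℕ :=
  (List.range n).map fun k => E (prefL (k + 1) (List.ofFn u), (n, s, g, b'),
    ((examples F ω.1).drop (M + (i * n + k) * ME)).take ME,
    ((List.ofFn ω.2).drop (M * n + (i * n + k) * ME)).take ME)

theorem take_examples (ω : Fin NN → Cu n) (hM : M ≤ NN) :
    (examples F ω).take M = stL (fn n F) fun j : Fin M => ω (blk 0 M (by omega) j) := by
  have h := ofFn_drop_take (fun j => (List.ofFn (ω j), dnfVal F (List.ofFn (ω j)))) 0 M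
    (by omega)
  rw [List.drop_zero] at h
  exact h

theorem mkTab_eq (ω : Sample n NN) (hU : M * n ≤ NN) :
    mkTab E n s g b' M n M M ME (examples F ω.1) (List.ofFn ω.2) =
      tabL (uFn hU ω.2) fun i : Fin M => wL E s g b' F M ME ω (uFn hU ω.2 i) i := by
  unfold mkTab tabL
  refine List.ext_getElem (by simp) fun i h1 h2 => ?_
  have hi : i < M := by simpa using h1
  rw [List.getElem_map, List.getElem_range, List.getElem_ofFn]
  have h3 : ((List.ofFn ω.2).drop (i * n)).take n = List.ofFn (uFn hU ω.2 ⟨i, hi⟩) := by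
    have h4 : (i + 1) * n ≤ M * n := Nat.mul_le_mul_right n hi
    have h5 : (i + 1) * n = i * n + n := by ring
    rw [ofFn_drop_take ω.2 (i * n) n (by omega)]
    rfl
  rw [h3]
  rfl

theorem wL_getD (ω : Sample n NN) (u : Cu n) {i k : ℕ} (hi : i < M) (hk : k < n)
    (h1 : M + M * n * ME ≤ NN) (h2 : M * n + M * n * ME ≤ NN) :
    (wL E s g b' F M ME ω u i).getD k 0 = E (List.ofFn (cut (k + 1) u), input n s g b' F
      ((fun j => ω.1 (blk (M + (i * n + k) * ME) ME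
        (by have := blk_bound hi hk ME; omega) j)),
      (fun j => ω.2 (blk (M * n + (i * n + k) * ME) ME
        (by have := blk_bound hi hk ME; omega) j)))) := by
  unfold wL
  rw [List.getD_eq_getElem _ _ (by simpa using hk), List.getElem_map, List.getElem_range,
    prefL_ofFn]
  unfold input
  have h3 := ofFn_drop_take ω.2 (M * n + (i * n + k) * ME) ME
    (by have := blk_bound hi hk ME; omega)
  have h4 := ofFn_drop_take (fun j => (List.ofFn (ω.1 j), dnfVal F (List.ofFn (ω.1 j))))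
    (M + (i * n + k) * ME) ME (by have := blk_bound hi hk ME; omega)
  rw [h3]
  unfold examples
  rw [h4]

end

theorem good_prob {E : List Bool × Input → ℕ} {e : ℕ}
    (hE : ∀ (n s g b : ℕ) (F : List (List (ℕ × Bool))) (a : Fin n → Bool), 1 ≤ g → 1 ≤ b →
      IsDnf n s F →
      1 - 1 / (b : ℝ) ≤ Prob fun ω : Sample n ((n + s + g + b) ^ e) =>
        |(E (List.ofFn a, input n s g b F ω) : ℝ) / g - shiftProb (fn n F) a| ≤ 1 / (g : ℝ))
    {s b D T g b' M NN ME : ℕ} {τ : ℝ} {F : List (List (ℕ × Bool))} (hb : 1 ≤ b)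
    (hF : IsDnf n s F) (hg1 : 1 ≤ g) (hb1 : 1 ≤ b') (hτ : 0 ≤ τ)
    (hhoef : 128 * ((((n + 2) * T + 2 * n : ℕ) : ℝ) + 16 * b) ≤ M * τ ^ 2)
    (hME : ME = (n + s + g + b') ^ e) (hMb : 8 * b * (M * n) ≤ b')
    (hM : M ≤ NN) (hU : M * n ≤ NN) (h1 : M + M * n * ME ≤ NN) (h2 : M * n + M * n * ME ≤ NN) :
    1 - 1 / (b : ℝ) ≤ Prob fun ω : Sample n NN =>
      Good D T g τ (fn n F) (fun j : Fin M => ω.1 (blk 0 M (by omega) j))
        (uFn hU ω.2) (fun i : Fin M => wL E s g b' F M ME ω (uFn hU ω.2 i) i) := by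
  subst hME
  set ME := (n + s + g + b') ^ e with hME
  have hb0 : (0 : ℝ) < b := by exact_mod_cast hb
  obtain ⟨l2, l3, l4, l5⟩ := unif_laws (fn n F) D T M b τ hτ hb hhoef
  -- the projections
  have m1 : MP fun ω : Sample n NN => fun j : Fin M => ω.1 (blk 0 M (by omega) j) := by
    have h3 : MP fun w : Fin NN → Cu n => fun j => w (blk 0 M (by omega) j) :=
      MP.restrict _ (blk_inj _ _ _)
    exact (MP.fst (Ω := Fin NN → Cu n) (Ω' := Fin NN → Bool)).comp h3
  have m2 : MP fun ω : Sample n NN => uFn hU ω.2 :=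
    (MP.snd (Ω := Fin NN → Cu n) (Ω' := Fin NN → Bool)).comp (mp_uFn hU)
  rw [← m2.prob] at l2
  rw [← m1.prob] at l3 l4 l5
  -- the estimates
  have hest : ∀ (i : Fin M) (k : Fin n), Prob (fun ω : Sample n NN =>
      ¬ |((wL E s g b' F M ME ω (uFn hU ω.2 i) i).getD k 0 : ℝ) / g -
        shiftProb (fn n F) (cut (k + 1) (uFn hU ω.2 i))| ≤ 1 / g) ≤ 1 / (b' : ℝ) := by
    intro i k
    have hbl := blk_bound i.2 k.2 ME
    have hbl2 : (i : ℕ) * n + n ≤ M * n := by
      have h5 : ((i : ℕ) + 1) * n ≤ M * n := Nat.mul_le_mul_right n i.2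
      have h6 : ((i : ℕ) + 1) * n = i * n + n := by ring
      omega
    have mp := mp_est (n := n) (NN := NN) (len := n) (ME := ME)
      (o1 := M + ((i : ℕ) * n + k) * ME) (o2 := (i : ℕ) * n)
      (o3 := M * n + ((i : ℕ) * n + k) * ME) (by omega) (by omega) (by omega) (by omega)
    have h5 := mp.prob (fun p : (Fin n → Bool) × Sample n ME =>
      ¬ |(E (List.ofFn (cut (k + 1) p.1), input n s g b' F p.2) : ℝ) / g -
        shiftProb (fn n F) (cut (k + 1) p.1)| ≤ 1 / (g : ℝ))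
    have h6 : Prob (fun p : (Fin n → Bool) × Sample n ME =>
      ¬ |(E (List.ofFn (cut (k + 1) p.1), input n s g b' F p.2) : ℝ) / g -
        shiftProb (fn n F) (cut (k + 1) p.1)| ≤ 1 / (g : ℝ)) ≤ 1 / (b' : ℝ) := by
      refine prob_prod_le (P := fun (u : Fin n → Bool) (ω' : Sample n ME) =>
        ¬ |(E (List.ofFn (cut (k + 1) u), input n s g b' F ω') : ℝ) / g -
        shiftProb (fn n F) (cut (k + 1) u)| ≤ 1 / (g : ℝ)) fun u => ?_
      exact prob_not_le_of (hE n s g b' F (cut (k + 1) u) hg1 hb1 hF)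
    rw [← h5] at h6
    refine le_trans (prob_mono fun ω hω => ?_) h6
    rw [wL_getD E s g b' F ω (uFn hU ω.2 i) i.2 k.2 h1 h2] at hω
    exact hω
  have l1 : Prob (fun ω : Sample n NN => ∃ i : Fin M, ∃ k : Fin n,
      ¬ |((wL E s g b' F M ME ω (uFn hU ω.2 i) i).getD k 0 : ℝ) / g -
        shiftProb (fn n F) (cut (k + 1) (uFn hU ω.2 i))| ≤ 1 / g) ≤
      (M : ℝ) * ((n : ℝ) * (1 / (b' : ℝ))) := by
    have h3 := prob_exists_le_of (fun (i : Fin M) (ω : Sample n NN) => ∃ k : Fin n,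
      ¬ |((wL E s g b' F M ME ω (uFn hU ω.2 i) i).getD k 0 : ℝ) / g -
        shiftProb (fn n F) (cut (k + 1) (uFn hU ω.2 i))| ≤ 1 / g)
      ((n : ℝ) * (1 / (b' : ℝ))) (fun i => by
        have h4 := prob_exists_le_of (fun (k : Fin n) (ω : Sample n NN) =>
          ¬ |((wL E s g b' F M ME ω (uFn hU ω.2 i) i).getD k 0 : ℝ) / g -
            shiftProb (fn n F) (cut (k + 1) (uFn hU ω.2 i))| ≤ 1 / g)
          (1 / (b' : ℝ)) (hest i)
        rw [Fintype.card_fin] at h4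
        exact h4)
    rw [Fintype.card_fin] at h3
    exact h3
  have l1' : (M : ℝ) * ((n : ℝ) * (1 / (b' : ℝ))) ≤ 1 / (8 * (b : ℝ)) := by
    have h4 : 8 * (b : ℝ) * (M * n) ≤ b' := by exact_mod_cast hMb
    have h5 : (0 : ℝ) < b' := by exact_mod_cast hb1
    rw [← mul_assoc, mul_one_div, div_le_div_iff₀ h5 (by positivity)]
    linarith
  have t1 := l1.trans l1'
  refine le_prob_of ?_
  set P1 : Sample n NN → Prop := fun ω => ∃ i : Fin M, ∃ k : Fin n,
      ¬ |((wL E s g b' F M ME ω (uFn hU ω.2 i) i).getD k 0 : ℝ) / g -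
        shiftProb (fn n F) (cut (k + 1) (uFn hU ω.2 i))| ≤ 1 / g with hP1
  set P2 : Sample n NN → Prop := fun ω => ¬ ∀ (c : Cl n T), ∀ k < n, ∀ S : Cu n,
      |∑ i, ac (rC (fn n F) D c) (cut (k + 1) (uFn hU ω.2 i)) * chi S (uFn hU ω.2 i) -
        M * en (rC (fn n F) D c) (k + 1) S| ≤ M * τ with hP2
  set P3 : Sample n NN → Prop := fun ω => ¬ ∀ (c : Cl n T) (a : Cu n),
      |∑ j, sR (fn n F (ω.1 (blk 0 M (by omega) j))) * pC D c (sh (ω.1 (blk 0 M (by omega) j)) a) -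
        M * Ex fun x => sR (fn n F x) * pC D c (sh x a)| ≤ M * τ with hP3
  set P4 : Sample n NN → Prop := fun ω => ¬ ∀ (c : Cl n T) (a : Cu n),
      |∑ j, pC D c (ω.1 (blk 0 M (by omega) j)) * pC D c (sh (ω.1 (blk 0 M (by omega) j)) a) -
        M * Ex fun x => pC D c x * pC D c (sh x a)| ≤ M * τ with hP4
  set P5 : Sample n NN → Prop := fun ω => ¬ ∀ (c : Cl n T) (S : Cu n),
      |∑ j, rC (fn n F) D c (ω.1 (blk 0 M (by omega) j)) * chi S (ω.1 (blk 0 M (by omega) j)) -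
        M * fc (rC (fn n F) D c) S| ≤ M * τ with hP5
  have hbad : ∀ ω : Sample n NN, ¬ Good D T g τ (fn n F)
        (fun j : Fin M => ω.1 (blk 0 M (by omega) j))
        (uFn hU ω.2) (fun i : Fin M => wL E s g b' F M ME ω (uFn hU ω.2 i) i) →
      P1 ω ∨ (P2 ω ∨ (P3 ω ∨ (P4 ω ∨ P5 ω))) := by
    intro ω hω
    by_contra hcon
    simp only [not_or] at hcon
    obtain ⟨c1, c2, c3, c4, c5⟩ := hcon
    refine hω ⟨fun i k hk => ?_, not_not.1 c2, not_not.1 c3, not_not.1 c4, not_not.1 c5⟩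
    by_contra h5
    exact c1 ⟨i, ⟨k, hk⟩, h5⟩
  refine (prob_mono hbad).trans ?_
  have s1 := prob_or_le P1 (fun ω => P2 ω ∨ (P3 ω ∨ (P4 ω ∨ P5 ω)))
  have s2 := prob_or_le P2 (fun ω => P3 ω ∨ (P4 ω ∨ P5 ω))
  have s3 := prob_or_le P3 (fun ω => P4 ω ∨ P5 ω)
  have s4 := prob_or_le P4 P5
  have h8 : 1 / (8 * (b : ℝ)) = 1 / 8 * (1 / b) := by
    rw [one_div_mul_one_div]
  have h9 : (0 : ℝ) < 1 / b := by positivity
  rw [h8] at l2 l3 l4 l5 t1
  linarith

theorem nvars_examples {NN : ℕ} (F : List (List (ℕ × Bool))) (w : Fin NN → Cu n) (h : 0 < NN) :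
    nvars (examples F w) = n := by
  obtain ⟨m, rfl⟩ : ∃ m, NN = m + 1 := ⟨NN - 1, by omega⟩
  unfold nvars examples
  rw [List.ofFn_succ]
  simp

theorem learn_of_shift (h : EstimableShift) : Learnable := by
  obtain ⟨E, hE, e, hspec⟩ := h
  refine ⟨List (Bool × List Bool), inferInstance, learner E e, evalH,
    PTime.of_poly (learner_poly hE.toPoly e), PTime.of_poly evalH_poly, 2 * (33 + 41 * e), ?_⟩
  intro n s a b F ha hb hF
  have hsize := size_ok (n := n) (s := s) ha hb e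
  have hq := four_le_qq (n := n) (s := s) ha hb
  have hnq : n ≤ qq n s a b := by unfold qq; omega
  have hbq : b ≤ qq n s a b := by unfold qq; omega
  have hD := dd_le (n := n) (s := s) (a := a) (b := b)
  have hpar := par_ok (n := n) (s := s) ha hb
  have hhoef := hoef_ok (n := n) (s := s) ha hb
  have hMb : 8 * b * (qq n s a b ^ 30 * n) ≤ qq n s a b ^ 40 := by
    have e1 : 8 ≤ qq n s a b ^ 2 := by nlinarith
    calc 8 * b * (qq n s a b ^ 30 * n) ≤ qq n s a b ^ 2 * qq n s a b *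
          (qq n s a b ^ 30 * qq n s a b) :=
          Nat.mul_le_mul (Nat.mul_le_mul e1 hbq) (Nat.mul_le_mul_left _ hnq)
      _ = qq n s a b ^ 34 := by ring
      _ ≤ qq n s a b ^ 40 := Nat.pow_le_pow_right (by omega) (by norm_num)
  have hDD : 4 * (dd s a * dd s a) ≤ qq n s a b ^ 30 ∧ dd s a * dd s a + 1 ≤ qq n s a b ^ 30 := by
    have h1 : dd s a * dd s a ≤ qq n s a b ^ 2 * qq n s a b ^ 2 := Nat.mul_le_mul hD hD
    have h2 : 4 * (qq n s a b ^ 2 * qq n s a b ^ 2) ≤ qq n s a b ^ 5 := by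
      calc 4 * (qq n s a b ^ 2 * qq n s a b ^ 2) ≤ qq n s a b *
            (qq n s a b ^ 2 * qq n s a b ^ 2) := Nat.mul_le_mul_right _ hq
        _ = qq n s a b ^ 5 := by ring
    have h3 : qq n s a b ^ 5 ≤ qq n s a b ^ 30 :=
      Nat.pow_le_pow_right (by omega) (by norm_num)
    have h4 : 0 < qq n s a b ^ 2 * qq n s a b ^ 2 :=
      Nat.mul_pos (Nat.pow_pos (by omega)) (Nat.pow_pos (by omega))
    constructor <;> omega
  have hM0 : 0 < qq n s a b ^ 30 := Nat.pow_pos (by omega)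
  have hg0 : 1 ≤ qq n s a b ^ 10 := Nat.one_le_pow _ _ (by omega)
  have hb0 : 1 ≤ qq n s a b ^ 40 := Nat.one_le_pow _ _ (by omega)
  have hlr : ∀ (NN : ℕ) (ω : Sample n NN), learner E e (input n s a b F ω) =
      loop (qq n s a b ^ 10) (qq n s a b ^ 30) (dd s a)
        ((examples F ω.1).take (qq n s a b ^ 30))
        (mkTab E n s (qq n s a b ^ 10) (qq n s a b ^ 40)
          (min (qq n s a b ^ 30) (examples F ω.1).length) (nvars (examples F ω.1))
          (qq n s a b ^ 30) (qq n s a b ^ 30) ((n + s + qq n s a b ^ 10 + qq n s a b ^ 40) ^ e)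
          (examples F ω.1) (List.ofFn ω.2)) (nvars (examples F ω.1)) (examples F ω.1).length
        (min (dd s a * dd s a + 1) (examples F ω.1).length) := fun NN ω => rfl
  have hτ0 : 0 ≤ tau (dd s a) := tau_nonneg _
  generalize (n + s + a + b) ^ (2 * (33 + 41 * e)) = NN at *
  generalize qq n s a b ^ 30 = M at *
  generalize qq n s a b ^ 10 = g at *
  generalize qq n s a b ^ 40 = b' at *
  generalize hDd : dd s a = D at *
  generalize hME : (n + s + g + b') ^ e = ME at *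
  have hM : M ≤ NN := by omega
  have hU : M * n ≤ NN := by omega
  have hg := good_prob (D := D) (T := D * D + 1) (τ := tau D) hspec hb hF hg0 hb0 hτ0 hhoef
    hME.symm hMb hM hU (by omega) (by omega)
  refine hg.trans (prob_mono fun ω hω => ?_)
  have hlen : (examples F ω.1).length = NN := by simp [examples]
  have h1 := learn_spec hF ha (D := D) (cap := NN) hDd.symm hω hpar (by omega)
  have h2 : learner E e (input n s a b F ω) = loop g M D
      (stL (fn n F) fun j : Fin M => ω.1 (blk 0 M (by omega) j))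
      (tabL (uFn hU ω.2) (fun i : Fin M => wL E s g b' F M ME ω (uFn hU ω.2 i) i)) n NN
        (D * D + 1) := by
    rw [hlr, hlen, nvars_examples F ω.1 (by omega), min_eq_left hM, min_eq_left (by omega),
      take_examples F ω.1 hM, mkTab_eq E s g b' F ω hU]
  rw [h2]
  exact h1

end Pool.Agent.L0h78.DE
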